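import Pool.Agent.H71.XR.Xd

/-!
# The digits on one event

`tv_near`, `tv_far`, `tv_dn`, `tv_df`: the digits of the target against its label. `uv2`: the digits of
the pair. `qtg_ev`: they are the quantities of the class theorems. `ful_ev`: the number of the last
place.
-/

set_option autoImplicit false

namespace Pool.XR71

open Finset Real MvPolynomial
open Pool.Agent.H49.Ent Pool.Agent.H32.Dense
open Pool.STK hiding pr2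
open Pool.KA Pool.KSAT Pool.K2S Pool.PB Pool.S6C
open Pool.GEN Pool.CHT Pool.CHX Pool.ISO Pool.LA91 Pool.AVG71 Pool.AVG5 Pool.D2F2 Pool.AVG57
open Pool.RCD Pool.AVG96 Pool.OWN68 Pool.V0F Pool.VA83 Pool.V0S Pool.ALT Pool.V0T
open Pool.AJW (CfB)
open Pool.UNJ (ceI)
open Pool.KVA (MI)
open Pool.GRD (LbP)
open Pool.VG83 (Hif ld_if jh_if vv_if jv_if cl_cR)

variable {m : ℕ}

/-- **Digits of a number** in a unit `2 ^ a`. -/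
theorem CH_dg {Ω : Type} [Fintype Ω] {p : Ω → ℝ} (hp : IsLaw p) {x : Ω → ℝ} {U : Ω → ℤ} {a b d : ℝ}
    {β : Type} {Z : Ω → β} (hU : ∀ ω, 0 < p ω → U ω = ⌊(2 : ℝ) ^ b * x ω⌋)
    (hZ : Det p Z (fun ω => ⌊(2 : ℝ) ^ a * x ω⌋)) (hd : b - a ≤ d) (hd0 : 0 ≤ d) :
    CH p U Z ≤ d * Real.log 2 + Real.log 5 := by
  have hl2 : 0 < Real.log 2 := Real.log_pos one_lt_two
  have h1 : CH p U Z ≤ CH p (fun ω => ⌊(2 : ℝ) ^ b * x ω⌋) Z :=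
    CH_mono_left hp.nonneg fun ω ν hω hν e => by
      have e1 := (Prod.ext_iff.mp e).1
      rw [hU ω hω, hU ν hν]
      exact e1
  refine h1.trans ((CH_dig hp (a := a) (b := b) x Z hZ).trans (add_le_add
    (mul_le_mul_of_nonneg_right (max_le hd hd0) hl2.le) le_rfl))

/-- **The digits of the pair.** -/
noncomputable def uv2 {J : ℕ} (F : Fam m J) (c : ℕ → Fin m) (k : ℕ) (w : ℝ)
    (Hf : LnT F → ℕ → MvPolynomial (Option (Fin m)) ℝ)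
    (Hn : LnT F → MvPolynomial (Option (Fin m)) ℝ) (P : ℕ → ℝ) (ω : F.Ω) (t : Fin (1 + 1)) : ℤ :=
  if (t : ℕ) = 0 then th0 F c k ⌊w * J⌋₊ Hf (P 0) ω else nh F (c (k + 1)) w (P 1) Hn ω

/-- **They are the quantities of the class theorems.** -/
theorem qtg_ev (m D k K₀ : ℕ) (P : ℕ → ℝ) {w E : ℝ} (hw0 : 0 ≤ w) (hw1 : w ≤ 1) :
    ∃ M J₁ : ℕ, ∀ K ≥ M, ∀ J ≥ J₁, ∀ {F : Fam m J} {c : ℕ → Fin m} {q : ℕ} {b φ e₀ ρ₀ : ℝ}
      {sn : ℕ → ℝ → ℝ} {A : F.Ω → Prop}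
      {Hb Hw H₀ H : LnT F → ℕ → MvPolynomial (Option (Fin m)) ℝ}
      {Hn : LnT F → MvPolynomial (Option (Fin m)) ℝ} {γ : ℕ → ℕ} {TV : F.Ω → ℝ},
      XEv F c k D q sn b w φ E K₀ e₀ ρ₀ A Hb Hw H₀ H Hn γ TV → ∀ e : ℝ, 0 ≤ e →
      (qTg m c k (1 + 1) w (prx k sn w φ) P).P K e J F A (uv2 F c k w (Hif k H Hw) Hn P) := by
  obtain ⟨M, J₁, hM⟩ := ld_th m D k (P 0) (w := w) (E := E) hw0 hw1
  obtain ⟨M', J₁', hM'⟩ := qj_win m K₀ 0 (N := P 1) (w := w) (E := E) hw0 hw1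
  refine ⟨M + M', J₁ + J₁', fun K hK J hJ F c q b φ e₀ ρ₀ sn A Hb Hw H₀ H Hn γ TV X e he => ?_⟩
  have hJ0 : (0 : ℝ) ≤ J := Nat.cast_nonneg J
  intro t
  have ht : (t : ℕ) = 0 ∨ (t : ℕ) = 1 := by omega
  rcases ht with ht | ht
  · have h1 := hM K (by omega) J (by omega) (ld_if le_rfl X.ld X.hH) e he
    show (qJet m ((range (k + (t : ℕ))).image c) (c (k + (t : ℕ))) 0 w (prx k sn w φ t)
      (P t)).P K e J F A (fun ω => uv2 F c k w (Hif k H Hw) Hn P ω t)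
    have e1 : (fun ω => uv2 F c k w (Hif k H Hw) Hn P ω t) =
        th0 F c k ⌊w * J⌋₊ (Hif k H Hw) (P 0) := by
      funext ω
      exact if_pos ht
    rw [e1, ht]
    exact h1
  · obtain ⟨V, z, z', g, h1, h2⟩ := X.ln
    have h3 := hM' K (by omega) J (by omega) F _ (c (k + 1)) A V z z' g _
      (sn (k + 1) w - φ) e (LbP.of h1) (cfb_of X.cn h2) (Nat.floor_le_floor
        (mul_le_mul_of_nonneg_right (by linarith) hJ0))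
    show (qJet m ((range (k + (t : ℕ))).image c) (c (k + (t : ℕ))) 0 w (prx k sn w φ t)
      (P t)).P K e J F A (fun ω => uv2 F c k w (Hif k H Hw) Hn P ω t)
    have e1 : (fun ω => uv2 F c k w (Hif k H Hw) Hn P ω t) = fun ω =>
        ⌊(2 : ℝ) ^ (P 1 * J) * ojet F (c (k + 1)) 0 (g (z' (slam F ⌊w * J⌋₊ ω))) ω⌋ := by
      funext ω
      show (if (t : ℕ) = 0 then _ else _) = _
      rw [if_neg (by omega)]
      show ⌊(2 : ℝ) ^ (P 1 * J) * ojet F (c (k + 1)) 0 (Hn (slam F ⌊w * J⌋₊ ω)) ω⌋ = _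
      rw [h2]
    rw [e1, ht]
    exact h3

section

variable {J : ℕ} {F : Fam m J} {c : ℕ → Fin m} {k D q : ℕ} {sn : ℕ → ℝ → ℝ} {b w φ E e₀ ρ₀ : ℝ}
  {K₀ : ℕ} {A B : F.Ω → Prop} {Hb Hw H₀ H : LnT F → ℕ → MvPolynomial (Option (Fin m)) ℝ}
  {Hn : LnT F → MvPolynomial (Option (Fin m)) ℝ} {γ : ℕ → ℕ} {TV : F.Ω → ℝ} {p : F.Ω → ℝ}

/-- The digits of the last place. -/
theorem ch_nh (hp : IsLaw p) {M M' d : ℝ} (κ : Fin m) {β : Type} {Z : F.Ω → β}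
    (hZ : Det p Z (nh F κ w M Hn)) (hd : (M' - M) * J ≤ d) (hd0 : 0 ≤ d) :
    CH p (nh F κ w M' Hn) Z ≤ d * Real.log 2 + Real.log 5 :=
  CH_dg hp (a := M * J) (b := M' * J) (x := fun ω => ojet F κ 0 (Hn (slam F ⌊w * J⌋₊ ω)) ω)
    (fun _ _ => rfl) hZ (by linarith) hd0

/-- The target in powers of two. -/
theorem XEv.tv' (X : XEv F c k D q sn b w φ E K₀ e₀ ρ₀ A Hb Hw H₀ H Hn γ TV) (n : ℕ) {ω : F.Ω}
    (hω : A ω) : (2 : ℝ) ^ n * TV ω =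
      2 ^ ((n : ℝ) + γ k + q) * ojet F (c k) 0 (Hw (slam F ⌊w * J⌋₊ ω) k) ω := by
  rw [X.tv ω hω]
  have e1 : (2 : ℝ) ^ ((n : ℝ) + γ k + q) = 2 ^ n * 2 ^ (γ k + q) := by
    have : (n : ℝ) + γ k + q = ((n + (γ k + q) : ℕ) : ℝ) := by
      push_cast
      ring
    rw [this, Real.rpow_natCast, pow_add]
  rw [e1]
  ring

/-- **The near digits** from the ones of the target. -/
theorem XEv.t1 (X : XEv F c k D q sn b w φ E K₀ e₀ ρ₀ A Hb Hw H₀ H Hn γ TV) (hp : IsLaw p)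
    (hA : ∀ ω, 0 < p ω → A ω) {M d : ℝ} (n : ℕ) {β : Type} {Z : F.Ω → β}
    (hZ : Det p Z (fun ω => ⌊(2 : ℝ) ^ n * TV ω⌋)) (hd : M * J - (n + γ k + q) ≤ d)
    (hd0 : 0 ≤ d) :
    CH p (th0 F c k ⌊w * J⌋₊ (Hif k H Hw) M) Z ≤ d * Real.log 2 + Real.log 5 := by
  refine CH_dg hp (a := (n : ℝ) + γ k + q) (b := M * J)
    (x := fun ω => ojet F (c k) 0 (Hw (slam F ⌊w * J⌋₊ ω) k) ω) (fun ω _ => ?_)
    (fun ω ν hω hν e => ?_) hd hd0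
  · show ⌊(2 : ℝ) ^ (M * J) * ojet F (c k) 0 (Hif k H Hw (slam F ⌊w * J⌋₊ ω) k) ω⌋ = _
    unfold Hif
    rw [if_neg (lt_irrefl k)]
  · have e1 := hZ ω ν hω hν e
    show ⌊_⌋ = ⌊_⌋
    rw [← X.tv' n (hA ω hω), ← X.tv' n (hA ν hν)]
    exact e1

/-- **The digits of the target** from the digits of the class theorems. -/
theorem XEv.t2 (X : XEv F c k D q sn b w φ E K₀ e₀ ρ₀ A Hb Hw H₀ H Hn γ TV) (hp : IsLaw p)
    (hA : ∀ ω, 0 < p ω → A ω) {M d : ℝ} (n : ℕ) {β : Type} {Z : F.Ω → β}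
    (hZ : Det p Z (th0 F c k ⌊w * J⌋₊ (Hif k H Hw) M)) (hd : (n + γ k + q) - M * J ≤ d)
    (hd0 : 0 ≤ d) :
    CH p (fun ω => ⌊(2 : ℝ) ^ n * TV ω⌋) Z ≤ d * Real.log 2 + Real.log 5 := by
  refine CH_dg hp (a := M * J) (b := (n : ℝ) + γ k + q)
    (x := fun ω => ojet F (c k) 0 (Hw (slam F ⌊w * J⌋₊ ω) k) ω) (fun ω hω => ?_)
    (fun ω ν hω hν e => ?_) hd hd0
  · rw [X.tv' n (hA ω hω)]
  · have e1 := hZ ω ν hω hν e
    change ⌊(2 : ℝ) ^ (M * J) * ojet F (c k) 0 (Hif k H Hw (slam F ⌊w * J⌋₊ ω) k) ω⌋ =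
      ⌊(2 : ℝ) ^ (M * J) * ojet F (c k) 0 (Hif k H Hw (slam F ⌊w * J⌋₊ ν) k) ν⌋ at e1
    unfold Hif at e1
    rw [if_neg (lt_irrefl k), if_neg (lt_irrefl k)] at e1
    exact e1

/-- **The slope-one places** from the digits in natural units. -/
theorem ch_jhv (hp : IsLaw p) (hJ : 0 < J) {n : ℕ → ℝ} {N : ℕ → ℕ} {d : ℝ}
    (hd : ∀ l < k, n l * J - N l ≤ d) (hd0 : 0 ≤ d) :
    CH p (jh F c k ⌊w * J⌋₊ H n) (Vv F c k ⌊w * J⌋₊ H (fun l => (N l : ℝ))) ≤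
      k * (d * Real.log 2 + Real.log 5) := by
  have hJ' : (0 : ℝ) < J := by exact_mod_cast hJ
  have e1 : (fun l => (N l : ℝ)) = fun l => ((N l : ℝ) / J) * J := by
    funext l
    field_simp
  refine CH_jh hp (n := fun l => (N l : ℝ) / J) (n' := n) (d := d) (fun l hl => ?_) hd0 _
    (fun ω ν hω hν e => ?_)
  · have : (n l - (N l : ℝ) / J) * J = n l * J - N l := by field_simp
    rw [this]
    exact hd l hl
  · rw [e1] at e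
    exact vv_jh (fun l => (N l : ℝ) / J) ω ν hω hν e

/-- **The number of the last place**, on parts. -/
theorem ful_ev (X : XEv F c k D q sn b w φ E K₀ e₀ ρ₀ A Hb Hw H₀ H Hn γ TV) {v π₁ : ℝ} {a : ℚ}
    {s₁ s₂ : ℝ} (hva : v ≤ a) (ha1 : a ≤ (1 : ℚ)) (hπ₁ : π₁ ≤ sn (k + 1) w - φ) (hB : Sub B A)
    (hp0 : ∀ ω, 0 ≤ p ω) (hpB : ∀ ω, 0 < p ω → B ω) {R : ℝ}
    (hful : ∀ (V : Type) (z : PtT F → V) (z' : LnT F → V)
      (g : V → MvPolynomial (Option (Fin m)) ℝ),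
      LbOK F ((range (k + 1)).image c) (c (k + 1)) K₀ ⌊e₀ * J⌋₊ J ⌊w * J⌋₊ ⌊ρ₀ * J⌋₊ ⌊π₁ * J⌋₊ B
        z z' g →
      ∀ (C : Type) (zc : PtT F → C) (zc' : LnT F → C),
      (∀ ω, B ω → zc (ptr F J ω) = zc' (slam F ⌊(a : ℝ) * J⌋₊ ω)) →
      R ≤ CH p (xa F (c (k + 1)) z' ⌊w * J⌋₊ g s₂)
          (fun ω => (xa F (c (k + 1)) z' ⌊w * J⌋₊ g s₁ ω, (zc' (slam F ⌊(a : ℝ) * J⌋₊ ω),
            (ceI ((range k).image c) (fun _ => J) (F.x ω), F.W ω))))) :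
    R ≤ CH p (nh F (c (k + 1)) w s₂ Hn)
      (fun ω => ((fun l : Fin k => F.X J ω (c l)), (cR F B v ω, F.W ω))) := by
  obtain ⟨V, z, z', g, h1, h2⟩ := X.ln
  have hJ0 : (0 : ℝ) ≤ J := Nat.cast_nonneg J
  have h1' := (h1.sub hB).mono (Finset.Subset.refl _) le_rfl le_rfl le_rfl
    (Nat.floor_le_floor (mul_le_mul_of_nonneg_right hπ₁ hJ0))
  obtain ⟨⟨f₁, hf₁⟩, ⟨f₂, hf₂⟩⟩ := cl_cR F B v
  obtain ⟨χ, hχ⟩ := vg_mono hva (by exact_mod_cast ha1) J F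
  have h3 := hful V z z' g h1' _ f₁ (fun s => f₂ (χ s)) (fun ω hω => by
    rw [← hf₁ ω hω, hf₂ ω hω, hχ ω]
    rfl)
  refine h3.trans ?_
  have e1 : xa F (c (k + 1)) z' ⌊w * J⌋₊ g s₂ = nh F (c (k + 1)) w s₂ Hn := by
    funext ω
    show ⌊(2 : ℝ) ^ (s₂ * J) * ojet F (c (k + 1)) 0 (g (z' (slam F ⌊w * J⌋₊ ω))) ω⌋ =
      ⌊(2 : ℝ) ^ (s₂ * J) * ojet F (c (k + 1)) 0 (Hn (slam F ⌊w * J⌋₊ ω)) ω⌋
    rw [h2]
  rw [e1]
  refine CH_mono_cond hp0 fun ω ν hω hν e => ?_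
  simp only [Prod.mk.injEq] at e ⊢
  obtain ⟨-, e2, e3, e4⟩ := e
  refine ⟨funext fun l => tup_ceI e3 l.2, ?_, e4⟩
  rw [hf₂ ω (hpB ω hω), hf₂ ν (hpB ν hν), hχ ω, hχ ν]
  exact e2

end

end Pool.XR71
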