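import Pool.Agent.H71.XR.Xb
import Pool.Agent.H87.V0S.Sp
import Pool.Agent.H63.RW2.FulN

/-!
# The row and no look-ahead of a steep place over the side path of the last place: statements

`XBox`: a class near a window, with slope-one places `c 0, …, c (k - 1)`, a steep place `c k` of slope
`al` and the last place `c (k + 1)` of slope `be ≤ al`. `FulB`: the digits of the last place are full
over the exact slope-one places and every closed code. `XEv`: the labels and the target on one event.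
`XrowStmt`, `XnlStmt`: the fields `row` and `nl` of `Pool.V0S.PEv` for the target `c k` and a side
path which knows the digits of the last place.
-/

set_option autoImplicit false

namespace Pool.XR71

open Finset Real MvPolynomial
open Pool.Agent.H49.Ent Pool.Agent.H32.Dense
open Pool.STK hiding pr2
open Pool.KA Pool.KSAT Pool.K2S Pool.PB Pool.S6C
open Pool.GEN Pool.CHT Pool.CHX Pool.ISO Pool.LA91 Pool.AVG71 Pool.AVG5 Pool.D2F2 Pool.AVG57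
open Pool.RCD Pool.AVG96 Pool.OWN68 Pool.V0F Pool.VA83 Pool.V0S Pool.ALT
open Pool.AJW (CfB)
open Pool.UNJ (ceI)
open Pool.KVA (MI)

/-- **The box of a pair over slope-one places**: the class `S` near the window `w`, in the unit `u`.
`φ`: the error of the ladder, the levels and the rows; `e`: the error of the free velocities and of
the no look-ahead (in units `u`); `Λ`: the room. -/
structure XBox {m : ℕ} (S : PCl m) (c : ℕ → Fin m) (k : ℕ) (sn sp : ℕ → ℝ → ℝ) (G : Set ℝ)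
    (al be h b o w u Λ φ e : ℝ) (lam : ℝ → ℝ) : Prop where
  lad : LadV S c k 1 sn G b o φ
  img : (range (k + 1)).image c = univ.erase (c (k + 1))
  be1 : 1 ≤ be
  bal : be ≤ al
  u0 : 0 < u
  wG : w ∈ G
  bw : b + Λ * u ≤ w
  wo : w + Λ * u ≤ o
  o1 : o + Λ * u ≤ 1
  b0 : Λ * u ≤ b
  room : ∀ l ≤ k + 1, Λ * u ≤ sn l b ∧ sn l o + Λ * u ≤ 1
  lin0 : ∀ v ∈ G, b ≤ v → v ≤ o → |sn k v - sn k w - al * (v - w)| ≤ φ
  lin1 : ∀ v ∈ G, b ≤ v → v ≤ o → |sn (k + 1) v - sn (k + 1) w - be * (v - w)| ≤ φ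
  lamt : ∀ v : ℝ, b ≤ v → v ≤ o → |lam v - sn (k + 1) w - be * (v - w)| ≤ φ
  row : ∀ P₁ P₂ : ℝ, |P₁ - sn (k + 1) w| ≤ Λ * u → |P₂ - sn (k + 1) w| ≤ Λ * u → P₁ ≤ P₂ →
    RawN S (univ.erase (c (k + 1))) (c (k + 1)) P₁ (P₂ - P₁) h φ
  att : ∃ rk E : ℝ, rk < 1 ∧ 0 ≤ E ∧
    AttG S ((range (k + 1)).image c) (c (k + 1)) w (sn (k + 1) w) rk E ∧
    sn (k + 1) w + E + Λ * u ≤ 1
  spb : ∀ i < k, sp i b ≤ sn i b - φ
  free : ∀ (P : Fin k → ℚ) (w₁ : ℚ) (x' : ℝ), w ≤ w₁ → x' ∈ G → w₁ ≤ x' → x' ≤ w + Λ * u →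
    (∀ i : Fin k, sn i w - w + u ≤ P i ∧ (P i : ℝ) ≤ sn i w - w + Λ * u) →
    (∀ l i : Fin k, l < i → (P i : ℝ) - (sn i w - w) + u / 2 ≤ P l - (sn l w - w)) →
    FrI S c k sp b (fun i => (P i : ℝ)) w₁ x' (e * u)
  nla : ∀ w₁ v y : ℚ, w ≤ w₁ → w₁ ≤ v → v ≤ y → (y : ℝ) ≤ w + Λ * u →
    NlI S (c (k + 1)) w₁ v (lam v) (lam y) (e * u)
  rn : ∀ w₁ : ℚ, ∃ η : ℝ, RNum S (fun J F => ptr F J) (vg (w₁ : ℝ)) η

/-- **(F3)** The digits of the last place are full over the exact slope-one places and over every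
closed code, for all labels of the window `w` of the complexity `(K₀, e₀, ρ₀, π₁)`. -/
def FulB {m : ℕ} (S : PCl m) (c : ℕ → Fin m) (k : ℕ) (be w u Λ e : ℝ) (lam : ℝ → ℝ) (K₀ : ℕ)
    (e₀ ρ₀ π₁ : ℝ) : Prop :=
  ∀ a y : ℚ, w ≤ a → a ≤ y → (y : ℝ) ≤ w + Λ * u → Bas S (fun J F A =>
    ∀ (V : Type) (z : PtT F → V) (z' : LnT F → V) (g : V → MvPolynomial (Option (Fin m)) ℝ),
    LbOK F ((range (k + 1)).image c) (c (k + 1)) K₀ ⌊e₀ * J⌋₊ J ⌊w * J⌋₊ ⌊ρ₀ * J⌋₊ ⌊π₁ * J⌋₊ A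
      z z' g →
    ∀ (C : Type) (zc : PtT F → C) (zc' : LnT F → C),
    (∀ ω, A ω → zc (ptr F J ω) = zc' (slam F ⌊(a : ℝ) * J⌋₊ ω)) →
    (be * (y - a) * Real.log 2 - e * u) * J ≤
      CH (Pool.Agent.H49.Ent.cond F.p A True) (xa F (c (k + 1)) z' ⌊w * J⌋₊ g (lam y))
        (fun ω => (xa F (c (k + 1)) z' ⌊w * J⌋₊ g (lam a) ω, (zc' (slam F ⌊(a : ℝ) * J⌋₊ ω),
          (ceI ((range k).image c) (fun _ => J) (F.x ω), F.W ω)))))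

/-- **The digits of the last place** over a label of the window `w`. -/
noncomputable def nh {m J : ℕ} (F : Fam m J) (κ : Fin m) (w M : ℝ)
    (Hn : LnT F → MvPolynomial (Option (Fin m)) ℝ) (ω : F.Ω) : ℤ :=
  ⌊(2 : ℝ) ^ (M * J) * ojet F κ 0 (Hn (slam F ⌊w * J⌋₊ ω)) ω⌋

/-- **The labels and the target on one event.** `TV`: the height of `c k` over its label of the
window `w`, in the unit `2 ^ (-(γ k + q))`. -/
structure XEv {m J : ℕ} (F : Fam m J) (c : ℕ → Fin m) (k D q : ℕ) (sn : ℕ → ℝ → ℝ)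
    (b w φ E : ℝ) (K₀ : ℕ) (e₀ ρ₀ : ℝ) (A : F.Ω → Prop)
    (Hb Hw H₀ H : LnT F → ℕ → MvPolynomial (Option (Fin m)) ℝ)
    (Hn : LnT F → MvPolynomial (Option (Fin m)) ℝ) (γ : ℕ → ℕ) (TV : F.Ω → ℝ) : Prop where
  ld : LD F c k D b w φ E sn A Hb Hw H₀
  hH : ∀ ω, ∀ l < k, H (slam F ⌊w * J⌋₊ ω) l = Hb (slam F ⌊b * J⌋₊ ω) l
  ln : ∃ (V : Type) (z : PtT F → V) (z' : LnT F → V) (g : V → MvPolynomial (Option (Fin m)) ℝ),
    LbOK F ((range (k + 1)).image c) (c (k + 1)) K₀ ⌊e₀ * J⌋₊ J ⌊w * J⌋₊ ⌊ρ₀ * J⌋₊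
      ⌊(sn (k + 1) w - φ) * J⌋₊ A z z' g ∧ ∀ s, g (z' s) = Hn s
  cn : CfB F ⌊w * J⌋₊ E (c (k + 1)) A (fun s => s) Hn
  γb : ∀ l ≤ k, (sn l w - φ) * J ≤ γ l ∧ (γ l : ℝ) ≤ sn l w * J
  tv : ∀ ω, A ω → TV ω = 2 ^ (γ k + q) * ojet F (c k) 0 (Hw (slam F ⌊w * J⌋₊ ω) k) ω

/-- **(ROW)** The field `row` of `PEv`, with `h * (be / al)` in place of `h`. `sd`: any function which
knows the digits of the last place (to `(be / al) (u + 500 y + ξ u)` behind the natural ones of the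
window `w`) up to few bits. -/
def XrowStmt : Prop := ∀ (k : ℕ) (al be h ξ δ π₀ : ℝ), 0 ≤ h → h ≤ 1 → 0 < ξ → ξ ≤ 1 → 0 < δ →
  0 < π₀ → 0 < al → ∃ φ₁ : ℝ, 0 < φ₁ ∧
  ∀ {m : ℕ} {S : PCl m} {c : ℕ → Fin m} {sn sp : ℕ → ℝ → ℝ} {G : Set ℝ}
    {b o w u Λ φ e : ℝ} {lam : ℝ → ℝ}, XBox S c k sn sp G al be h b o w u Λ φ e lam →
    10 ≤ Λ → ∀ {y : ℝ} {w₁ : ℚ} {K₀ : ℕ} {e₀ ρ₀ π₁ : ℝ}, 0 ≤ y → y ≤ φ₁ * u → φ ≤ φ₁ * u →
    0 ≤ e → e ≤ φ₁ → w ≤ w₁ → (w₁ : ℝ) ≤ w + φ → FulB S c k be w u Λ e lam K₀ e₀ ρ₀ π₁ →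
    π₁ ≤ sn (k + 1) w - φ → ∀ (D : ℕ) (E : ℝ), Bas S (fun J F A =>
      ∀ (Hb Hw H₀ H : LnT F → ℕ → MvPolynomial (Option (Fin m)) ℝ)
        (Hn : LnT F → MvPolynomial (Option (Fin m)) ℝ) (γ : ℕ → ℕ) (TV : F.Ω → ℝ) (σ : Type)
        (sd : F.Ω → σ),
      XEv F c k D ⌊(u + 500 * y) * J⌋₊ sn b w φ E K₀ e₀ ρ₀ A Hb Hw H₀ H Hn γ TV →
      (∀ B : F.Ω → Prop, Sub B A → π₀ * Pe F.p A ≤ Pe F.p B →
        CH (Pool.Agent.H49.Ent.cond F.p B True)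
          (nh F (c (k + 1)) w (sn (k + 1) w + be / al * (u + 500 * y + ξ * u)) Hn)
          (fun ω => (sd ω, F.W ω)) ≤ φ₁ * u * J) →
      ∀ B : F.Ω → Prop, Sub B A → π₀ * Pe F.p A ≤ Pe F.p B →
      CH (Pool.Agent.H49.Ent.cond F.p B True) (fun ω => ⌊(2 : ℝ) ^ ⌊ξ * u * J⌋₊ * TV ω⌋)
        (fun ω => (⌊TV ω⌋, (Vv F c k ⌊w * J⌋₊ H (fun l => ((γ l + ⌊(u + 500 * y) * J⌋₊ +
          ⌊ξ * u * J⌋₊ : ℕ) : ℝ)) ω, (sd ω, (cR F A w₁ ω, F.W ω))))) ≤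
        ((1 - h * (be / al)) * ξ * u * Real.log 2 + δ * u) * J)

/-- **(NL)** The field `nl` of `PEv`. `sd`: any function which knows the digits of the last place and
which is few bits given them, the far path of the slope-one places and the record of `w₁`. -/
def XnlStmt : Prop := ∀ (k : ℕ) (al be h ξ T δ : ℝ), 0 < ξ → ξ ≤ 1 → 1 ≤ T → 0 < δ → 0 < al →
  ∃ φ₁ : ℝ, 0 < φ₁ ∧
  ∀ {m : ℕ} {S : PCl m} {c : ℕ → Fin m} {sn sp : ℕ → ℝ → ℝ} {G : Set ℝ}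
    {b o w u Λ φ e : ℝ} {lam : ℝ → ℝ}, XBox S c k sn sp G al be h b o w u Λ φ e lam →
    4 * T + 2 * k + 10 ≤ Λ → ∀ {y j : ℝ} {w₁ : ℚ} {K₀ : ℕ} {e₀ ρ₀ : ℝ}, 0 ≤ y → y ≤ φ₁ * u →
    φ ≤ φ₁ * u → 0 ≤ e → e ≤ φ₁ → w ≤ w₁ → (w₁ : ℝ) ≤ w + φ → w₁ ≤ j → j ≤ w + u / al →
    ∀ (D : ℕ) (E : ℝ), Bas S (fun J F A =>
      ∀ (Hb Hw H₀ H : LnT F → ℕ → MvPolynomial (Option (Fin m)) ℝ)
        (Hn : LnT F → MvPolynomial (Option (Fin m)) ℝ) (γ : ℕ → ℕ) (TV : F.Ω → ℝ) (σ : Type)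
        (sd : F.Ω → σ),
      XEv F c k D ⌊(u + 500 * y) * J⌋₊ sn b w φ E K₀ e₀ ρ₀ A Hb Hw H₀ H Hn γ TV →
      CH (Pool.Agent.H49.Ent.cond F.p A True)
        (nh F (c (k + 1)) w (sn (k + 1) w + be / al * (u + 500 * y + ξ * u)) Hn)
        (fun ω => (sd ω, F.W ω)) ≤ φ₁ * u * J →
      CH (Pool.Agent.H49.Ent.cond F.p A True) sd (fun ω =>
        (nh F (c (k + 1)) w (sn (k + 1) w + be / al * (u + 500 * y + ξ * u)) Hn ω,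
          (nrP F c k sn H w (T * u) ω, (cR F A w₁ ω, F.W ω)))) ≤ φ₁ * u * J →
      ∀ ne Pe' : ℕ → ℝ, (∀ l < k, sn l w + 3 * T * u ≤ ne l ∧
        ne l ≤ sn l w + 3 * T * u + 100 * y ∧ sn l w - w + 3 * T * u ≤ Pe' l ∧
        Pe' l ≤ sn l w - w + (3 * T + k + 2) * u) →
      MI (Pool.Agent.H49.Ent.cond F.p A True) (cR F A j)
        (fun ω => ⌊(2 : ℝ) ^ ⌊ξ * u * J⌋₊ * TV ω⌋)
        (fun ω => (⌊TV ω⌋, (sd ω, ((jh F c k ⌊w * J⌋₊ H ne ω, jv F c k ⌊w * J⌋₊ H Pe' ω),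
          (cR F A w₁ ω, F.W ω))))) ≤ δ * u * J)

end Pool.XR71
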