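import Pool.Agent.H5.V0T.Nlr
import Pool.Agent.H91.V0T.Rwr
import Pool.Agent.H83.VG.Cls

/-!
# The row of a steep place over a side path: the entropies

`mi_part`: one part of a pair given the other. `nl_tr`: no look-ahead for the digits of a place `u`
over a side path `sd`, which is few bits given the digits `n₁`, `n₂` of another place and the path.
`ex_tr`: the exchange: the row of `u` given the far digits of the other place. `row_sd`: the row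
over the side path.
-/

set_option autoImplicit false

namespace Pool.XR71

open Finset Real
open Pool.Agent.H49.Ent Pool.Agent.H32.Dense Pool.STK Pool.KA Pool.KSAT Pool.K2S Pool.PB Pool.GEN
open Pool.S6C Pool.RCD Pool.LA91 Pool.OWN68 Pool.V0F
open Pool.KVA (MI)

section law

variable {Ω : Type} [Fintype Ω] {p : Ω → ℝ}

/-- **One part of a pair given the other.** -/
theorem mi_part (h0 : ∀ ω, 0 ≤ p ω) {α β γ δ ε : Type} {R : Ω → α} {Y : Ω → β} {A : Ω → γ}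
    {B : Ω → δ} {Z : Ω → ε} {K : ℝ} (h : MI p R Y Z ≤ K) (hA : Det p Y A) (hB : Det p Y B) :
    CH p A (fun ω => (B ω, Z ω)) ≤ CH p A (fun ω => (B ω, (R ω, Z ω))) + K := by
  rw [Pool.AVG71.MI_eq' h0] at h
  have key : ∀ {ζ : Type} (W : Ω → ζ), CH p Y W = CH p B W + CH p A (fun ω => (B ω, W ω)) +
      CH p Y (fun ω => ((A ω, B ω), W ω)) := fun W => by
    have e1 : CH p Y W = CH p (fun ω => (Y ω, (A ω, B ω))) W := CH_congr h0
      (fun ω ω' hω hω' e => by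
        have e1 := Prod.ext_iff.mp e
        exact Prod.ext e1.1 (Prod.ext (hA ω ω' hω hω' e1.1) (hB ω ω' hω hω' e1.1)))
      (fun ω ω' _ _ e => (Prod.ext_iff.mp (Prod.ext_iff.mp e).1).1)
      (fun _ _ _ _ e => e) (fun _ _ _ _ e => e)
    rw [e1, CH_chain h0, CH_chain h0]
  have k1 := key Z
  have k2 := key (fun ω => (R ω, Z ω))
  have b1 : CH p B (fun ω => (R ω, Z ω)) ≤ CH p B Z := CH_mono_cond h0 fun ω ω' _ _ e =>
    (Prod.ext_iff.mp e).2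
  have b2 : CH p Y (fun ω => ((A ω, B ω), (R ω, Z ω))) ≤ CH p Y (fun ω => ((A ω, B ω), Z ω)) :=
    CH_mono_cond h0 fun ω ω' _ _ e => by
      have e1 := Prod.ext_iff.mp e
      exact Prod.ext e1.1 (Prod.ext_iff.mp e1.2).2
  linarith

/-- **No look-ahead over a side path**: `P'`, `P`: the paths of the slope-one places, `u₁`, `u₂`,
`n₁`, `n₂`: the digits of the two places, `U₁`, `U₂` the same digits of the first place up to few
bits; the side path `sd` knows `n₁`, `n₂` and is few bits given them and the path. -/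
theorem nl_tr (h0 : ∀ ω, 0 ≤ p ω) {α β γ α₁ α₂ α₃ α₄ α₅ α₆ α₇ α₈ α₉ : Type} {Rv : Ω → α}
    {Rj : Ω → β} {P' : Ω → γ} {Pt : Ω → α₁} {u₁ : Ω → α₂} {u₂ : Ω → α₃} {n₁ : Ω → α₄}
    {n₂ : Ω → α₅} {U₁ : Ω → α₆} {U₂ : Ω → α₇} {sd : Ω → α₈} {z : Ω → α₉} {ζ : Type} {y : Ω → ζ}
    {K e : ℝ} (hM : MI p Rv (fun ω => (P' ω, (u₂ ω, n₂ ω)))
      (fun ω => ((Pt ω, (u₁ ω, n₁ ω)), (z ω, y ω))) ≤ K) (hj : CH p Rj Rv ≤ e)
    (ha : CH p (fun ω => (n₁ ω, n₂ ω)) (fun ω => (sd ω, y ω)) ≤ e)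
    (hb : CH p sd (fun ω => ((n₁ ω, n₂ ω), (Pt ω, (z ω, y ω)))) ≤ e)
    (h1 : CH p u₁ U₁ ≤ e) (h1' : CH p U₁ u₁ ≤ e) (h2 : CH p u₂ U₂ ≤ e) (h2' : CH p U₂ u₂ ≤ e) :
    MI p Rj U₂ (fun ω => (U₁ ω, (sd ω, (Pt ω, (z ω, y ω))))) ≤ K + 8 * e := by
  have he : 0 ≤ e := (CH_nonneg h0 _ _).trans hj
  have m1 := mi_part h0 hM (A := u₂) (B := n₂)
    (fun ω ω' _ _ e => by
      simp only [Prod.mk.injEq] at e
      exact e.2.1) (fun ω ω' _ _ e => by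
      simp only [Prod.mk.injEq] at e
      exact e.2.2)
  obtain ⟨C, hC⟩ : ∃ C : Ω → α₅ × ((α₁ × (α₂ × α₄)) × (α₉ × ζ)), C = fun ω =>
    (n₂ ω, ((Pt ω, (u₁ ω, n₁ ω)), (z ω, y ω))) := ⟨_, rfl⟩
  obtain ⟨D, hD⟩ : ∃ D : Ω → α₆ × (α₈ × (α₁ × (α₉ × ζ))), D = fun ω =>
    (U₁ ω, (sd ω, (Pt ω, (z ω, y ω)))) := ⟨_, rfl⟩
  rw [← hD, Pool.AVG71.MI_eq' h0]
  rw [← hC] at m1
  -- the upper bound
  have a1 := CH_le_add h0 U₂ (fun ω => (u₁ ω, (n₁ ω, n₂ ω))) D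
  have a2 : CH p (fun ω => (u₁ ω, (n₁ ω, n₂ ω))) D ≤ e + e := by
    refine (CH_subadd h0 u₁ _ _).trans (add_le_add (le_trans (CH_mono_cond h0 ?_) h1)
      (le_trans (CH_mono_cond h0 ?_) ha))
    · intro ω ω' _ _ h
      rw [hD] at h
      simp only [Prod.mk.injEq] at h
      exact h.1
    · intro ω ω' _ _ h
      rw [hD] at h
      simp only [Prod.mk.injEq] at h ⊢
      tauto
  have a3 : CH p U₂ (fun ω => ((u₁ ω, (n₁ ω, n₂ ω)), D ω)) ≤ CH p U₂ C := CH_mono_cond h0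
    fun ω ω' _ _ h => by
      rw [hD] at h
      rw [hC]
      simp only [Prod.mk.injEq] at h ⊢
      tauto
  have a4 := CH_le_add h0 U₂ u₂ C
  have a5 : CH p U₂ (fun ω => (u₂ ω, C ω)) ≤ e := le_trans (CH_mono_cond h0 fun ω ω' _ _ h =>
    (Prod.ext_iff.mp h).1) h2'
  -- the lower bound
  obtain ⟨E, hE⟩ : ∃ E : Ω → α₅ × (α × ((α₁ × (α₂ × α₄)) × (α₉ × ζ))), E = fun ω =>
    (n₂ ω, (Rv ω, ((Pt ω, (u₁ ω, n₁ ω)), (z ω, y ω)))) := ⟨_, rfl⟩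
  rw [← hE] at m1
  have b1 := CH_le_add h0 u₂ U₂ E
  have b2 : CH p U₂ E ≤ CH p U₂ (fun ω => ((Rj ω, (sd ω, U₁ ω)), E ω)) +
      CH p (fun ω => (Rj ω, (sd ω, U₁ ω))) E := by
    have := CH_le_add h0 U₂ (fun ω => (Rj ω, (sd ω, U₁ ω))) E
    linarith
  have b3 : CH p (fun ω => (Rj ω, (sd ω, U₁ ω))) E ≤ e + (e + e) := by
    refine (CH_subadd h0 Rj _ _).trans (add_le_add (le_trans (CH_mono_cond h0 ?_) hj)
      ((CH_subadd h0 sd _ _).trans (add_le_add (le_trans (CH_mono_cond h0 ?_) hb)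
      (le_trans (CH_mono_cond h0 ?_) h1'))))
    · intro ω ω' _ _ h
      rw [hE] at h
      simp only [Prod.mk.injEq] at h
      exact h.2.1
    · intro ω ω' _ _ h
      rw [hE] at h
      simp only [Prod.mk.injEq] at h ⊢
      tauto
    · intro ω ω' _ _ h
      rw [hE] at h
      simp only [Prod.mk.injEq] at h
      exact h.2.2.1.2.1
  have b4 : CH p U₂ (fun ω => ((Rj ω, (sd ω, U₁ ω)), E ω)) ≤
      CH p U₂ (fun ω => (Rj ω, D ω)) := CH_mono_cond h0 fun ω ω' _ _ h => by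
    rw [hE] at h
    rw [hD]
    simp only [Prod.mk.injEq] at h ⊢
    tauto
  have b5 : CH p u₂ (fun ω => (U₂ ω, E ω)) ≤ e := le_trans (CH_mono_cond h0 fun ω ω' _ _ h =>
    (Prod.ext_iff.mp h).1) h2
  linarith

/-- **The exchange**: the row of the first place given the far digits of the second one, from the
joint row and from the fullness of the second one over the exact positions `XV` and a record. -/
theorem ex_tr (h0 : ∀ ω, 0 ≤ p ω) {α₁ α₂ α₃ α₄ α₅ α₆ α₇ α₈ α₉ : Type} {u₁ : Ω → α₁} {u₂ : Ω → α₂}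
    {n₁ : Ω → α₃} {n₂ : Ω → α₄} {V : Ω → α₅} {z : Ω → α₆} {Rv : Ω → α₇} {XV : Ω → α₈} {y : Ω → α₉}
    {R e : ℝ} (hR : CH p (fun ω => (u₂ ω, n₂ ω))
      (fun ω => ((u₁ ω, n₁ ω), (V ω, (z ω, y ω)))) ≤ R)
    (hzv : CH p z Rv ≤ e) (v1 : CH p u₁ (fun ω => (XV ω, (Rv ω, y ω))) ≤ e)
    (v3 : CH p n₁ (fun ω => (XV ω, (Rv ω, y ω))) ≤ e)
    (hV : CH p V (fun ω => (XV ω, (z ω, y ω))) ≤ e) :
    CH p u₂ (fun ω => (n₂ ω, ((u₁ ω, n₁ ω), (V ω, (z ω, y ω))))) ≤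
      R - CH p n₂ (fun ω => (XV ω, (Rv ω, y ω))) + 5 * e := by
  rw [CH_chain h0] at hR
  have c1 := CH_le_add h0 n₂ (fun ω => (u₁ ω, (n₁ ω, (V ω, z ω))))
    (fun ω => (XV ω, (Rv ω, y ω)))
  have hzv' : CH p z (fun ω => (XV ω, (Rv ω, y ω))) ≤ e := le_trans (CH_mono_cond h0
    fun ω ω' _ _ h => by
      simp only [Prod.mk.injEq] at h
      exact h.2.1) hzv
  have c2 : CH p (fun ω => (u₁ ω, (n₁ ω, (V ω, z ω)))) (fun ω => (XV ω, (Rv ω, y ω))) ≤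
      e + (e + ((e + e) + e)) := by
    refine (CH_subadd h0 u₁ _ _).trans (add_le_add v1 ((CH_subadd h0 n₁ _ _).trans
      (add_le_add v3 ((CH_subadd h0 V _ _).trans (add_le_add ?_ hzv')))))
    exact CH_tr h0 V (A := z) hzv' hV fun ω ω' _ _ h => by
      simp only [Prod.mk.injEq] at h ⊢
      tauto
  have c3 : CH p n₂ (fun ω => ((u₁ ω, (n₁ ω, (V ω, z ω))), (XV ω, (Rv ω, y ω)))) ≤
      CH p n₂ (fun ω => ((u₁ ω, n₁ ω), (V ω, (z ω, y ω)))) := CH_mono_cond h0 fun ω ω' _ _ h => by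
    simp only [Prod.mk.injEq] at h ⊢
    tauto
  linarith

/-- **The row over a side path** `sd` which knows the digits of the second place. -/
theorem row_sd (h0 : ∀ ω, 0 ≤ p ω) {α₁ α₂ α₃ α₄ α₅ α₆ α₇ α₈ α₉ β₁ β₂ : Type} {u₁ : Ω → α₁}
    {u₂ : Ω → α₂} {n₁ : Ω → α₃} {n₂ : Ω → α₄} {V : Ω → α₅} {V' : Ω → α₆} {z : Ω → α₇} {y : Ω → α₈}
    {U₁ : Ω → α₉} {U₂ : Ω → β₁} {sd : Ω → β₂} {R e : ℝ}
    (hR : CH p u₂ (fun ω => (n₂ ω, ((u₁ ω, n₁ ω), (V ω, (z ω, y ω))))) ≤ R)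
    (hsd : CH p (fun ω => (n₁ ω, n₂ ω)) (fun ω => (sd ω, y ω)) ≤ e)
    (h1 : CH p u₁ U₁ ≤ e) (h2 : CH p U₂ u₂ ≤ e) (hV : CH p V V' ≤ e) :
    CH p U₂ (fun ω => (U₁ ω, (V' ω, (sd ω, (z ω, y ω))))) ≤ R + 4 * e := by
  obtain ⟨D, hD⟩ : ∃ D : Ω → α₉ × (α₆ × (β₂ × (α₇ × α₈))), D = fun ω =>
    (U₁ ω, (V' ω, (sd ω, (z ω, y ω)))) := ⟨_, rfl⟩
  rw [← hD]
  have a1 := CH_le_add h0 U₂ (fun ω => (u₁ ω, (V ω, (n₁ ω, n₂ ω)))) D
  have a2 : CH p (fun ω => (u₁ ω, (V ω, (n₁ ω, n₂ ω)))) D ≤ e + (e + e) := by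
    refine (CH_subadd h0 u₁ _ _).trans (add_le_add (le_trans (CH_mono_cond h0 ?_) h1)
      ((CH_subadd h0 V _ _).trans (add_le_add (le_trans (CH_mono_cond h0 ?_) hV)
      (le_trans (CH_mono_cond h0 ?_) hsd))))
    · intro ω ω' _ _ h
      rw [hD] at h
      simp only [Prod.mk.injEq] at h
      exact h.1
    · intro ω ω' _ _ h
      rw [hD] at h
      simp only [Prod.mk.injEq] at h
      exact h.2.1
    · intro ω ω' _ _ h
      rw [hD] at h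
      simp only [Prod.mk.injEq] at h ⊢
      tauto
  have a3 : CH p U₂ (fun ω => ((u₁ ω, (V ω, (n₁ ω, n₂ ω))), D ω)) ≤
      CH p U₂ (fun ω => (n₂ ω, ((u₁ ω, n₁ ω), (V ω, (z ω, y ω))))) := CH_mono_cond h0
    fun ω ω' _ _ h => by
      rw [hD] at h
      simp only [Prod.mk.injEq] at h ⊢
      tauto
  obtain ⟨C, hC⟩ : ∃ C : Ω → α₄ × ((α₁ × α₃) × (α₅ × (α₇ × α₈))), C = fun ω =>
    (n₂ ω, ((u₁ ω, n₁ ω), (V ω, (z ω, y ω)))) := ⟨_, rfl⟩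
  rw [← hC] at a3 hR
  have a4 := CH_le_add h0 U₂ u₂ C
  have a5 : CH p U₂ (fun ω => (u₂ ω, C ω)) ≤ e := le_trans (CH_mono_cond h0 fun ω ω' _ _ h =>
    (Prod.ext_iff.mp h).1) h2
  linarith

end law

end Pool.XR71
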