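import Pool.Agent.H71.XR.Xa
import Pool.Agent.H83.VA.Nlr
import Pool.Agent.H83.VA.Rwr

/-!
# The row of the first place given the far digits of the second one

`near_v`: the near digits of both places are few bits given the exact positions of the slope-one
places and a record. `ex_row`: the exchange, on parts of large events, from the joint rows (83) and
from the fullness of the second place over the exact positions of the slope-one places.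
-/

set_option autoImplicit false

namespace Pool.XR71

open Finset Real MvPolynomial
open Pool.Agent.H49.Ent Pool.Agent.H32.Dense Pool.STK Pool.KA Pool.KSAT Pool.K2S Pool.PB Pool.GEN
open Pool.S6C Pool.RCD Pool.LA91 Pool.AVG96 Pool.OWN68 Pool.V0F Pool.V0T Pool.VA83
open Pool.UNJ (ceI)
open Pool.KVA (MI)
open Pool.VG83 (bas_ev mx_ev cl_cR)

variable {m : ℕ} {S : PCl m} {c : ℕ → Fin m} {k : ℕ} {sn : ℕ → ℝ → ℝ} {G : Set ℝ} {b o φ : ℝ}

/-- **The near digits** of both places, given the exact positions of the slope-one places. -/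
theorem near_v (L : LadV S c k 1 sn G b o φ) {w v x' Cr E₁ : ℝ} {pr P : ℕ → ℝ}
    (hCr : 100 * ((k : ℝ) + 3) ^ 2 ≤ Cr) (hw : w ∈ G) (hv : v ∈ G) (hx' : x' ∈ G) (hbw : b ≤ w)
    (hwv : w ≤ v) (hvx : v + Cr * φ ≤ x') (hxo : x' ≤ o) (hx1 : x' + Cr * φ ≤ 1)
    (hlx : ∀ l < k, sn l x' ≤ 1) (hpr : ∀ u ≤ 1, sn (k + u) w - φ ≤ pr u)
    (hP : ∀ u ≤ 1, 0 ≤ P u ∧ P u ≤ 1 ∧ P u + Cr * φ ≤ sn (k + u) v ∧
      P u + Cr * φ ≤ sn (k + u) w + (x' - w))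
    (hPl : ∀ u ≤ 1, ∀ l < k + u, P u + Cr * φ ≤ sn (k + u) w + (1 - sn l w))
    (hatt : ∃ rk : ℝ, rk < 1 ∧ 0 ≤ E₁ ∧
      AttG S ((range (k + 1)).image c) (c (k + 1)) w (sn (k + 1) w) rk E₁ ∧ P 1 + E₁ ≤ 1)
    {η : ℝ} (hη : 0 < η) : ∃ a : ℝ, 0 < a ∧ ∃ e : ℝ, 0 < e ∧ ∀ u < 2,
      TgF S c k (k + u) w v η (pr u) (P u) (P u) a e := by
  obtain ⟨rk, hrk, hE, hatt, hPE⟩ := hatt
  have hφ := L.φ0
  have hk0 : (0 : ℝ) ≤ k := Nat.cast_nonneg k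
  have hkφ : 0 ≤ (k : ℝ) * φ := by positivity
  have hC : 60 * ((k : ℝ) + ((1 : ℕ) : ℝ) + 2) * φ ≤ Cr * φ := by
    refine mul_le_mul_of_nonneg_right (le_trans ?_ hCr) hφ.le
    push_cast
    nlinarith
  have hC' : 200 * (k * φ) + 400 * φ ≤ Cr * φ := by
    have : 200 * (k * φ) + 400 * φ = (200 * (k : ℝ) + 400) * φ := by ring
    rw [this]
    refine mul_le_mul_of_nonneg_right (le_trans ?_ hCr) hφ.le
    nlinarith
  have Lb := L.toLadR.lad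
  have hvo : v ≤ o := by linarith
  have hbx' : b ≤ x' := by linarith
  have hfl : ∀ l < k, sn l w + (x' - w) ≤ 1 + 2 * φ := fun l hl => by
    have h1 := abs_le.1 (Lb.flat hl hw hx' hbw (by linarith) hbx' hxo)
    have h2 := hlx l hl
    linarith [h1.2]
  obtain ⟨D, hDx, hDM, hDub⟩ := fam_sup (fun u => P u - sn (k + u) w + 40 * φ) (v - w) 2
  have hD : D ≤ x' - w - (200 * (k * φ) + 360 * φ) := by
    refine hDub _ (by linarith) fun u hu => ?_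
    have := (hP u (by omega)).2.2.2
    linarith
  have hD1 : D + (50 * (k : ℝ) + 60) * φ ≤ 1 - w := by
    have : (50 * (k : ℝ) + 60) * φ = 50 * (k * φ) + 60 * φ := by ring
    rw [this]
    linarith
  have hD2 : ∀ l < k, D + (50 * (k : ℝ) + 60) * φ ≤ 1 - sn l w := fun l hl => by
    have : (50 * (k : ℝ) + 60) * φ = 50 * (k * φ) + 60 * φ := by ring
    rw [this]
    linarith [hfl l hl]
  obtain ⟨u₁, rd, hrd, hch⟩ := L.ch.ch w hw
  have hw1 : w ≤ 1 := by linarith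
  refine fam_min 2 (P := fun u a e => TgF S c k (k + u) w v η (pr u) (P u) (P u) a e)
    (fun u a a' e e' h _ h1 _ h2 => h.mn h1 h2) fun u hu => ?_
  obtain ⟨p1, p2, p3, p4⟩ := hP u (by omega)
  have hA : ∃ rk E : ℝ, rk < 1 ∧ 0 ≤ E ∧
      AttG S ((range (k + u)).image c) (c (k + u)) w (sn (k + u) w) rk E ∧ P u + E ≤ 1 := by
    rcases Nat.lt_or_ge u 1 with h | h
    · exact ⟨rd (k + u), 0, hch.r1 (k + u) (Nat.zero_le _) (by omega), le_rfl,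
        (hch.att (k + u) (Nat.zero_le _) (by omega)).attG hw1 le_rfl, by linarith⟩
    · obtain rfl : u = 1 := by omega
      exact ⟨rk, E₁, hrk, hE, hatt, hPE⟩
  have hDu : P u - sn (k + u) w + 40 * φ ≤ D := hDM u hu
  refine tgv_facts L (by omega) hw hv hbw hwv hvo (hpr u (by omega)) p1 le_rfl (by linarith)
    (by linarith) (fun l hl => by linarith [hPl u (by omega) l hl]) hA hDx ?_ hD1 hD2 hη
  push_cast
  linarith

/-- **The exchange on parts of large events.** `P₁`, `P₂`: near and far digits of the heights, `v`: a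
window at which the near digits are natural, `n`: the digits of the slope-one places. -/
theorem ex_row (L : LadV S c k 1 sn G b o φ) (hI : (range (k + 1)).image c = univ.erase (c (k + 1)))
    {w w₁ v x x' η Cr E₁ h δ : ℝ} {p n pr P₁ P₂ : ℕ → ℝ} (hCr : 100 * ((k : ℝ) + 3) ^ 2 ≤ Cr)
    (hw : w ∈ G) (hv : v ∈ G) (hx : x ∈ G) (hx' : x' ∈ G) (hbw : b ≤ w) (hw1 : w ≤ w₁)
    (hwv : w₁ ≤ v) (hvx : v ≤ x) (hxx : x + Cr * φ ≤ x') (hxo : x' ≤ o) (hx1 : x' + Cr * φ ≤ 1)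
    (hp : ∀ i < k, sn i b - φ ≤ p i) (hpr : ∀ u ≤ 1, sn (k + u) w - φ ≤ pr u)
    (hn : ∀ i < k, sn i x' ≤ n i ∧ n i ≤ 1) (tp : Tp k sn b φ n)
    (hP : ∀ u ≤ 1, 0 ≤ P₁ u ∧ P₁ u ≤ P₂ u ∧ P₂ u ≤ 1 ∧ P₁ u + Cr * φ ≤ sn (k + u) v ∧
      P₂ u + Cr * φ ≤ sn (k + u) x ∧ P₂ u + Cr * φ ≤ sn (k + u) w + (x' - w))
    (hPn : sn k x ≤ P₂ 0 + 2 * Cr * φ)
    (hPl : ∀ u ≤ 1, ∀ l < k + u, P₂ u + Cr * φ ≤ sn (k + u) w + (1 - sn l w))
    (hatt : ∃ rk : ℝ, rk < 1 ∧ 0 ≤ E₁ ∧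
      AttG S ((range (k + 1)).image c) (c (k + 1)) w (sn (k + 1) w) rk E₁ ∧ P₂ 1 + E₁ ≤ 1)
    (hraw : RawN S (univ.erase (c (k + 1))) (c (k + 1)) (P₁ 1) (P₂ 1 - P₁ 1) h δ)
    (hη : RNum S (fun J F => ptr F J) (vg w₁) η) {π₀ ε : ℝ} (hπ : 0 < π₀) (hε : 0 < ε) :
    ∃ e₀ : ℝ, 0 < e₀ ∧ ∀ K : ℕ, Bas S (fun J F A => ∀ u u₁ u₂,
      (qJets m c 0 k 0 (fun _ _ => b) (fun l _ => p l) (fun l _ => n l)).P K e₀ J F A u →
      (qTg m c k (1 + 1) w pr P₁).P K e₀ J F A u₁ → (qTg m c k (1 + 1) w pr P₂).P K e₀ J F A u₂ →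
      ∀ B : F.Ω → Prop, Sub B A → π₀ * Pe F.p A ≤ Pe F.p B →
      CH (Pool.Agent.H49.Ent.cond F.p B True) (fun ω => u₂ ω 0)
          (fun ω => (u₂ ω 1, ((u₁ ω 0, u₁ ω 1), (u ω, (cR F A w₁ ω, F.W ω))))) ≤
        (((1 - h) * (P₂ 1 - P₁ 1) + (P₂ 0 - P₁ 0)) * Real.log 2 + δ + 16 * Cr * φ + ε) * J -
          CH (Pool.Agent.H49.Ent.cond F.p B True) (fun ω => u₂ ω 1)
            (fun ω => ((fun l : Fin k => F.X J ω (c l)), (cR F B v ω, F.W ω)))) := by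
  have hφ := L.φ0
  have hk0 : (0 : ℝ) ≤ k := Nat.cast_nonneg k
  have hkφ : 0 ≤ (k : ℝ) * φ := by positivity
  have hC' : 200 * (k * φ) + 400 * φ ≤ Cr * φ := by
    have : 200 * (k * φ) + 400 * φ = (200 * (k : ℝ) + 400) * φ := by ring
    rw [this]
    refine mul_le_mul_of_nonneg_right (le_trans ?_ hCr) hφ.le
    nlinarith
  have hCr' : 100 * ((k : ℝ) + ((1 : ℕ) : ℝ) + 2) ^ 2 ≤ Cr := by
    push_cast
    have : (k : ℝ) + 1 + 2 = k + 3 := by ring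
    rw [this]
    exact hCr
  have Lb := L.toLadR.lad
  have hwv' : w ≤ v := hw1.trans hwv
  have hwx : w ≤ x := hwv'.trans hvx
  have hxo' : x ≤ o := by linarith
  have hbx' : b ≤ x' := by linarith
  have hv1 : v ≤ 1 := by linarith [L.o1]
  have hw₁1 : w₁ ≤ 1 := hwv.trans hv1
  obtain ⟨ρ, hρ⟩ : ∃ ρ : ℝ, ρ = ε / 16 := ⟨_, rfl⟩
  have hρ0 : 0 < ρ := by rw [hρ]; positivity
  obtain ⟨rk, hrk, hE, hatt, hPE⟩ := hatt
  -- the joint rows
  obtain ⟨k₁, hk₁, e₁, he₁, H₁⟩ := rowv L hI hCr' hw hx hx' hbw hwx hxx hxo hx1 hp hpr hn tp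
    (fun u hu => by
      obtain ⟨a1, a2, a3, -, a5, a6⟩ := hP u hu
      exact ⟨a1, a2, a3, a5, a6⟩) (fun u hu => by
      obtain rfl : u = 0 := by omega
      exact hPn) hPl hrk hE hatt hPE hraw hρ0
  -- the near digits
  obtain ⟨k₂, hk₂, e₂, he₂, H₂⟩ := near_v L (x' := x') (P := P₁) hCr hw hv hx' hbw hwv'
    (by linarith) hxo hx1 (fun l hl => (hn l hl).1.trans (hn l hl).2) hpr (fun u hu => by
      obtain ⟨a1, a2, a3, a4, a5, a6⟩ := hP u hu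
      exact ⟨a1, a2.trans a3, a4, by linarith⟩) (fun u hu l hl => by
      have := hPl u hu l hl
      linarith [(hP u hu).2.1]) ⟨rk, hrk, hE, hatt, by linarith [(hP 1 le_rfl).2.1]⟩ hρ0
  -- the slope-one places
  have hbn : ∀ i < k, sn i b ≤ n i ∧ n i ≤ 1 := fun i hi => by
    have h1 := abs_le.1 (Lb.flat hi L.bG hx' le_rfl (L.bo) hbx' hxo)
    obtain ⟨h2, h3⟩ := hn i hi
    exact ⟨by linarith [h1.2], h3⟩
  obtain ⟨k₃, hk₃, e₃, he₃, H₃⟩ := fux Lb L.bG le_rfl L.bo hp hbn tp ρ hρ0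
  obtain ⟨e₀, he₀, f1, f2, f3⟩ : ∃ e₀ : ℝ, 0 < e₀ ∧ e₀ ≤ e₁ ∧ e₀ ≤ e₂ ∧ e₀ ≤ e₃ := by
    refine ⟨min e₁ (min e₂ e₃), by positivity, ?_, ?_, ?_⟩ <;>
      simp only [min_le_iff, le_refl, true_or, or_true]
  obtain ⟨κ, hκ, g0⟩ : ∃ κ : ℝ, 0 < κ ∧ κ ≤ ρ := ⟨ρ, hρ0, le_rfl⟩
  refine ⟨e₀, he₀, fun K => ?_⟩
  refine Bas.mono 0 (((bas_ev (H₁ K) hπ).and (bas_ev ((H₂ 0 (by omega) K).and
    (H₂ 1 (by omega) K)) hπ)).and (((bas_ev (H₃ K) hπ).and (mx_ev L.pos hη hκ hπ)).and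
    (pos_bas L.pos))) ?_
  rintro J - F A ⟨⟨H₁, H₂⟩, ⟨H₃, H₄⟩, hA⟩ u u₁ u₂ hu hu₁ hu₂ B hB hPB
  have hB0 : 0 < Pe F.p B := lt_of_lt_of_le (mul_pos hπ hA) hPB
  have hJ0 : (0 : ℝ) ≤ J := Nat.cast_nonneg J
  have hcl := isLaw_cond F.isLaw hB0
  have h0 := hcl.nonneg
  have hzm := H₄ B hB hPB
  -- records of the part
  have rw' := mx_cR hB0 w hk₁.le
  have rv := mx_cR hB0 v hk₂.le
  have rv' : Mx (fun J F => ptr F J) (vg v) κ F B (cR F B v) := mx_cR hB0 v hκ.le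
  have rb := mx_cR hB0 b hk₃.le
  have d1 : CH (Pool.Agent.H49.Ent.cond F.p B True) (cR F B w) (cR F A w₁) ≤ κ * J :=
    mx_before hzm hw1 hw₁1 rw'.1
  have d2 : CH (Pool.Agent.H49.Ent.cond F.p B True) (cR F A w₁) (cR F B v) ≤ κ * J :=
    mx_before rv' hwv hv1 hzm.1
  have d3 : CH (Pool.Agent.H49.Ent.cond F.p B True) (cR F B b) (cR F A w₁) ≤ κ * J :=
    mx_before hzm (hbw.trans hw1) hw₁1 rb.1
  have hκJ : κ * J ≤ ρ * J := mul_le_mul_of_nonneg_right g0 hJ0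
  -- the inequalities on the part
  have q0 := (qJets m c 0 k 0 _ _ _).sub hB hu
  have q1 := (qTg m c k (1 + 1) w pr P₁).sub hB hu₁
  have q2 := (qTg m c k (1 + 1) w pr P₂).sub hB hu₂
  have a1 := H₁ B hB hPB _ (cR F B w) rw' u u₁ u₂ ((qJets m c 0 k 0 _ _ _).mono le_rfl f1 q0)
    ((qTg m c k (1 + 1) w pr P₁).mono le_rfl f1 q1) ((qTg m c k (1 + 1) w pr P₂).mono le_rfl f1 q2)
  obtain ⟨b1, b2⟩ := H₂ B hB hPB
  have c1 := ((b1 (fun ω => u₁ ω 0) (fun ω => u₁ ω 0)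
    ((qJet m _ _ _ _ _ _).mono le_rfl f2 (q1 0)) ((qJet m _ _ _ _ _ _).mono le_rfl f2 (q1 0))).2
    _ (cR F B v) rv).1
  have c2 := ((b2 (fun ω => u₁ ω 1) (fun ω => u₁ ω 1)
    ((qJet m _ _ _ _ _ _).mono le_rfl f2 (q1 1)) ((qJet m _ _ _ _ _ _).mono le_rfl f2 (q1 1))).2
    _ (cR F B v) rv).1
  have c3 := (H₃ B hB hPB _ (cR F B b) rb u ((qJets m c 0 k 0 _ _ _).mono le_rfl f3 q0)).2.2 _
    (cR F B b) rb
  have c4 : CH (Pool.Agent.H49.Ent.cond F.p B True) u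
      (fun ω => ((fun l : Fin k => F.X J ω (c l)), (cR F A w₁ ω, F.W ω))) ≤ 2 * (ρ * J) := by
    have := CH_tr h0 u (A := cR F B b) (W := fun ω => ((fun l : Fin k => F.X J ω (c l)),
      (cR F A w₁ ω, F.W ω))) (le_trans (CH_mono_cond h0 fun ω ω' _ _ e => by
        simp only [Prod.mk.injEq] at e
        exact e.2.1) d3) c3 fun ω ω' _ _ e => by
          simp only [Prod.mk.injEq] at e ⊢
          tauto
    linarith
  -- the joint row over the record of the row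
  have a2 : CH (Pool.Agent.H49.Ent.cond F.p B True) (fun ω => (u₂ ω 0, u₂ ω 1))
      (fun ω => ((u₁ ω 0, u₁ ω 1), (u ω, (cR F A w₁ ω, F.W ω)))) ≤
      (((1 - h) * (P₂ 1 - P₁ 1) + (P₂ 0 - P₁ 0)) * Real.log 2 + δ + 16 * Cr * φ + ρ) * J +
        ρ * J := by
    have e1 : CH (Pool.Agent.H49.Ent.cond F.p B True) (fun ω => (u₂ ω 0, u₂ ω 1))
        (fun ω => ((u₁ ω 0, u₁ ω 1), (u ω, (cR F A w₁ ω, F.W ω)))) ≤
        CH (Pool.Agent.H49.Ent.cond F.p B True) u₂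
          (fun ω => (u₁ ω, (u ω, (cR F A w₁ ω, F.W ω)))) := by
      refine (CH_mono_left h0 (X' := u₂) fun ω ω' _ _ e => ?_).trans
        (CH_mono_cond h0 fun ω ω' _ _ e => ?_)
      · have e1 := (Prod.ext_iff.mp e).1
        exact Prod.ext (congrFun e1 0) (congrFun e1 1)
      · simp only [Prod.mk.injEq] at e ⊢
        refine ⟨funext fun i => ?_, e.2⟩
        fin_cases i
        · exact e.1.1
        · exact e.1.2
    have e2 := CH_le_add h0 u₂ (cR F B w) (fun ω => (u₁ ω, (u ω, (cR F A w₁ ω, F.W ω))))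
    have e3 : CH (Pool.Agent.H49.Ent.cond F.p B True) (cR F B w)
        (fun ω => (u₁ ω, (u ω, (cR F A w₁ ω, F.W ω)))) ≤ κ * J :=
      le_trans (CH_mono_cond h0 fun ω ω' _ _ e => by
        simp only [Prod.mk.injEq] at e
        exact e.2.2.1) d1
    have e4 : CH (Pool.Agent.H49.Ent.cond F.p B True) u₂
        (fun ω => (cR F B w ω, (u₁ ω, (u ω, (cR F A w₁ ω, F.W ω))))) ≤
        CH (Pool.Agent.H49.Ent.cond F.p B True) u₂
          (fun ω => (u₁ ω, (u ω, (cR F B w ω, F.W ω)))) :=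
      CH_mono_cond h0 fun ω ω' _ _ e => by
        simp only [Prod.mk.injEq] at e ⊢
        exact ⟨e.2.1, e.2.2.1, e.1, e.2.2.2.2⟩
    have e5 : (((1 - h) * (P₂ 1 - P₁ 1) + ∑ u ∈ range 1, (P₂ u - P₁ u)) * Real.log 2 + δ +
        8 * (((1 : ℕ) : ℝ) + 1) * Cr * φ + ρ) * J =
        (((1 - h) * (P₂ 1 - P₁ 1) + (P₂ 0 - P₁ 0)) * Real.log 2 + δ + 16 * Cr * φ + ρ) * J := by
      rw [Finset.sum_range_one]
      push_cast
      ring
    rw [e5] at a1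
    linarith
  have key := ex_tr h0 (u₁ := fun ω => u₁ ω 0) (u₂ := fun ω => u₂ ω 0) (n₁ := fun ω => u₁ ω 1)
    (n₂ := fun ω => u₂ ω 1) (V := u) (z := cR F A w₁) (Rv := cR F B v)
    (XV := fun ω => fun l : Fin k => F.X J ω (c l)) (y := F.W) (e := 2 * (ρ * J)) a2
    (by
      have : 0 ≤ ρ * J := by positivity
      linarith) (by
      have : 0 ≤ ρ * J := by positivity
      linarith) (by
      have : 0 ≤ ρ * J := by positivity
      linarith) c4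
  refine key.trans (le_of_eq_of_le ?_ (sub_le_sub_right (?_ : (((1 - h) * (P₂ 1 - P₁ 1) +
    (P₂ 0 - P₁ 0)) * Real.log 2 + δ + 16 * Cr * φ + ρ) * J + ρ * J + 10 * (ρ * J) ≤ _) _))
  · ring
  · rw [hρ]
    have : 0 ≤ ε * J := by positivity
    linarith

end Pool.XR71
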