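import Pool.Agent.H71.XR.S

/-!
# The windows

`XBox.mesh`: a fine mesh of windows. `XBox.win`: the window at a given depth of the steep place.
`XBox.lev`: the levels. `XWn`: the windows of the near digits, `XBox.wins`: they exist.
-/

set_option autoImplicit false

namespace Pool.XR71

open Finset Real MvPolynomial
open Pool.Agent.H49.Ent Pool.Agent.H32.Dense
open Pool.STK hiding pr2
open Pool.KA Pool.KSAT Pool.K2S Pool.PB Pool.S6C
open Pool.GEN Pool.CHT Pool.CHX Pool.ISO Pool.LA91 Pool.AVG71 Pool.AVG5 Pool.D2F2 Pool.AVG57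
open Pool.RCD Pool.AVG96 Pool.OWN68 Pool.V0F Pool.VA83 Pool.V0S Pool.ALT
open Pool.AJW (CfB)
open Pool.UNJ (ceI)
open Pool.KVA (MI)

variable {m : ℕ} {S : PCl m} {c : ℕ → Fin m} {k : ℕ} {sn sp : ℕ → ℝ → ℝ} {G : Set ℝ}
  {al be h b o w u Λ φ e : ℝ} {lam : ℝ → ℝ}

/-- **A fine mesh of windows.** -/
theorem XBox.mesh (X : XBox S c k sn sp G al be h b o w u Λ φ e lam) (hΛ : 1 ≤ Λ)
    (hφ : 10 * φ ≤ u) : ∀ x, b ≤ x → x ≤ o → ∃ v ∈ G, |v - x| ≤ φ ∧ al * |v - x| ≤ 3 * φ := by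
  obtain ⟨φ', h1, h2, h3, h4⟩ := X.lad.fm
  have hu := X.u0
  have hΛu : u ≤ Λ * u := le_mul_of_one_le_left hu.le hΛ
  have hbw := X.bw
  have hwo := X.wo
  have hal : 0 < al := by linarith [X.be1, X.bal]
  obtain ⟨v, hv, hv1⟩ := h3 (w + 2 * φ') (by linarith) (by linarith)
  have hv2 := abs_le.1 hv1
  have a1 := h4 k le_rfl (by omega) w X.wG v hv (by linarith) (by linarith) (by linarith)
    (by linarith)
  have a2 := (abs_le.1 (X.lin0 v hv (by linarith) (by linarith))).1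
  have a3 : al * φ' ≤ al * (v - w) := mul_le_mul_of_nonneg_left (by linarith) hal.le
  intro x hx hx'
  obtain ⟨v', hv', hv3⟩ := h3 x hx hx'
  exact ⟨v', hv', hv3.trans h2, (mul_le_mul_of_nonneg_left hv3 hal.le).trans (by linarith)⟩

/-- **The window at the depth** `s` of the steep place. -/
theorem XBox.win (X : XBox S c k sn sp G al be h b o w u Λ φ e lam) (hΛ : 1 ≤ Λ)
    (hφ : 10 * φ ≤ u) {s : ℝ} (h3 : 3 * φ ≤ s) (hs : s + φ ≤ Λ * u) : ∃ v ∈ G, w ≤ v ∧ v ≤ o ∧
      v - w ≤ s + φ ∧ s ≤ al * (v - w) + 3 * φ ∧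
      |sn k v - sn k w - s| ≤ 4 * φ ∧ |sn (k + 1) v - sn (k + 1) w - be / al * s| ≤ 4 * φ ∧
      |be * (v - w) - be / al * s| ≤ 3 * φ := by
  have hu := X.u0
  have hb1 := X.be1
  have hba := X.bal
  have hφ0 := X.lad.φ0
  have hal : 0 < al := by linarith
  have hbw := X.bw
  have hwo := X.wo
  have hΛu : u ≤ Λ * u := le_mul_of_one_le_left hu.le hΛ
  have hs0 : 0 ≤ s := by linarith
  have hsa : s / al ≤ s := div_le_self hs0 (by linarith)
  have hsa0 : 0 ≤ s / al := by positivity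
  obtain ⟨v, hv, h1, h2⟩ := X.mesh hΛ hφ (w + s / al) (by linarith) (by linarith)
  have e0 : al * (s / al) = s := by field_simp
  have e1 : al * (v - w) = s + al * (v - (w + s / al)) := by
    have : al * (v - w) = al * (s / al) + al * (v - (w + s / al)) := by ring
    rw [this, e0]
  have e2 : |al * (v - (w + s / al))| ≤ 3 * φ := by
    rw [abs_mul, abs_of_pos hal]
    exact h2
  have e3 : |be * (v - (w + s / al))| ≤ 3 * φ := by
    rw [abs_mul, abs_of_pos (by linarith : 0 < be)]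
    exact (mul_le_mul_of_nonneg_right hba (abs_nonneg _)).trans h2
  have e4 : be * (v - w) - be / al * s = be * (v - (w + s / al)) := by
    have : be / al * s = be * (s / al) := by ring
    rw [this]
    ring
  have h1' := abs_le.1 h1
  have e2' := abs_le.1 e2
  have e3' := abs_le.1 e3
  have hwv : w ≤ v := by
    have : 0 ≤ al * (v - w) := by linarith
    have := nonneg_of_mul_nonneg_right this hal
    linarith
  have hvo : v ≤ o := by linarith
  have l0 := abs_le.1 (X.lin0 v hv (by linarith) hvo)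
  have l1 := abs_le.1 (X.lin1 v hv (by linarith) hvo)
  refine ⟨v, hv, hwv, hvo, by linarith, by linarith, ?_, ?_, ?_⟩
  · rw [abs_le]
    constructor <;> linarith
  · rw [abs_le]
    constructor <;> linarith
  · rw [e4]
    exact e3

/-- **The levels.** -/
theorem XBox.lev (X : XBox S c k sn sp G al be h b o w u Λ φ e lam) (hΛ : 1 ≤ Λ)
    (hφ : 10 * φ ≤ u) : ∀ l ≤ k + 1, Λ * u ≤ sn l w ∧ sn l w + Λ * u ≤ 1 ∧
      sn l w + (o - w) + Λ * u ≤ 1 + 2 * φ := by
  intro l hl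
  have hu := X.u0
  have hbw := X.bw
  have hwo := X.wo
  have hφ0 := X.lad.φ0
  have hΛu : u ≤ Λ * u := le_mul_of_one_le_left hu.le hΛ
  obtain ⟨r1, r2⟩ := X.room l hl
  have hb : b ≤ w := by linarith
  have ho : w ≤ o := by linarith
  rcases Nat.lt_or_ge l k with h1 | h1
  · have Lb := X.lad.toLadR.lad
    have a1 := abs_le.1 (Lb.flat h1 X.wG Lb.bG hb ho le_rfl Lb.bo)
    have a2 := abs_le.1 (Lb.flat h1 X.wG Lb.oG hb ho Lb.bo le_rfl)
    refine ⟨by linarith, by linarith, by linarith⟩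
  · have a1 := X.lad.st l h1 hl b X.lad.bG w X.wG le_rfl hb ho
    have a2 := X.lad.st l h1 hl w X.wG o X.lad.oG hb ho le_rfl
    refine ⟨by linarith, by linarith, by linarith⟩

/-- **The windows of the near digits**: `v` for the near digits of the steep place (depth `s₁`), `vq`,
`yq`: rational windows for the digits of the last place (depths `be / al * s₁`, `be / al * s₂`). -/
structure XWn (k : ℕ) (sn : ℕ → ℝ → ℝ) (G : Set ℝ) (r be w o s₁ s₂ φ Cr η : ℝ) (lam : ℝ → ℝ)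
    (v : ℝ) (vq yq : ℚ) : Prop where
  vG : v ∈ G
  wv : w ≤ v
  vo : v ≤ o
  vs : v - w ≤ s₁ + (Cr + 5) * φ
  al1 : s₁ + Cr * φ ≤ sn k v - sn k w
  al2 : sn k v - sn k w ≤ s₁ + (Cr + 8) * φ
  sv1 : r * s₁ - 4 * φ ≤ sn (k + 1) v - sn (k + 1) w
  vvq : v ≤ vq
  vq1 : be * (vq - w) ≤ r * s₁ + (Cr + 8) * φ
  lvq : lam vq ≤ sn (k + 1) w + r * s₁ + (Cr + 9) * φ
  vy : vq ≤ yq
  yq1 : r * s₂ - 2 * η - φ ≤ be * (yq - w)
  yq2 : be * (yq - w) ≤ r * s₂ - 2 * η
  yqs : (yq : ℝ) - w ≤ s₂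
  lyq : |lam yq - (sn (k + 1) w + r * s₂ - 2 * η)| ≤ 2 * φ

/-- **They exist.** -/
theorem XBox.wins (X : XBox S c k sn sp G al be h b o w u Λ φ e lam) (hΛ : 1 ≤ Λ)
    (hφ : 10 * φ ≤ u) {s₁ s₂ Cr η : ℝ} (hCr : 10 ≤ Cr) (h1 : 0 ≤ s₁) (h12 : s₁ ≤ s₂)
    (hη : Cr * φ ≤ η) (h2 : s₂ + (2 * Cr + 10) * φ ≤ Λ * u)
    (hr : be / al * s₁ + (Cr + 10) * φ + 2 * η ≤ be / al * s₂) :
    ∃ (v : ℝ) (vq yq : ℚ), XWn k sn G (be / al) be w o s₁ s₂ φ Cr η lam v vq yq := by
  have hu := X.u0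
  have hb1 := X.be1
  have hba := X.bal
  have hφ0 := X.lad.φ0
  have hal : 0 < al := by linarith
  have hbe : 0 < be := by linarith
  have hr0 : 0 < be / al := by positivity
  have hr1 : be / al ≤ 1 := (div_le_one hal).2 hba
  have hbw := X.bw
  have hwo := X.wo
  have hΛu : u ≤ Λ * u := le_mul_of_one_le_left hu.le hΛ
  obtain ⟨r, hr'⟩ : ∃ r, r = be / al := ⟨_, rfl⟩
  rw [← hr'] at hr0 hr1 hr ⊢
  have hCφ : 10 * φ ≤ Cr * φ := mul_le_mul_of_nonneg_right hCr hφ0.le
  have e1 : (Cr + 10) * φ = Cr * φ + 10 * φ := by ring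
  have e2 : (2 * Cr + 10) * φ = 2 * (Cr * φ) + 10 * φ := by ring
  rw [e1] at hr
  rw [e2] at h2
  obtain ⟨v, hv, v1, v2, v3, -, v4, v5, v6⟩ := X.win hΛ hφ (s := s₁ + Cr * φ + 4 * φ)
    (by linarith) (by linarith)
  rw [← hr'] at v5 v6
  have v4' := abs_le.1 v4
  have v5' := abs_le.1 v5
  have v6' := abs_le.1 v6
  have e3 : r * (s₁ + Cr * φ + 4 * φ) = r * s₁ + r * (Cr * φ + 4 * φ) := by ring
  have e4 : r * (Cr * φ + 4 * φ) ≤ Cr * φ + 4 * φ := by
    have : r * (Cr * φ + 4 * φ) ≤ 1 * (Cr * φ + 4 * φ) :=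
      mul_le_mul_of_nonneg_right hr1 (by linarith)
    linarith
  have e5 : 0 ≤ r * (Cr * φ + 4 * φ) := mul_nonneg hr0.le (by linarith)
  rw [e3] at v5' v6'
  have hφb : 0 < φ / be := by positivity
  have ebe : be * (φ / be) = φ := by field_simp
  obtain ⟨vq, q1, q2⟩ := exists_rat_btwn (show v < v + φ / be by linarith)
  have q3 : be * (vq - w) ≤ be * (v - w) + φ := by
    have : be * (vq - w) ≤ be * (v + φ / be - w) := mul_le_mul_of_nonneg_left (by linarith) hbe.le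
    have e6 : be * (v + φ / be - w) = be * (v - w) + be * (φ / be) := by ring
    rw [e6, ebe] at this
    exact this
  obtain ⟨yq, y1, y2⟩ := exists_rat_btwn (show w + (r * s₂ - 2 * η - φ) / be <
    w + (r * s₂ - 2 * η) / be by
      have : (r * s₂ - 2 * η - φ) / be < (r * s₂ - 2 * η) / be :=
        (div_lt_div_iff_of_pos_right hbe).2 (by linarith)
      linarith)
  have y3 : r * s₂ - 2 * η - φ ≤ be * (yq - w) := by
    have : be * ((r * s₂ - 2 * η - φ) / be) ≤ be * (yq - w) :=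
      mul_le_mul_of_nonneg_left (by linarith) hbe.le
    have e6 : be * ((r * s₂ - 2 * η - φ) / be) = r * s₂ - 2 * η - φ := by field_simp
    rw [e6] at this
    exact this
  have y4 : be * (yq - w) ≤ r * s₂ - 2 * η := by
    have : be * (yq - w) ≤ be * ((r * s₂ - 2 * η) / be) :=
      mul_le_mul_of_nonneg_left (by linarith) hbe.le
    have e6 : be * ((r * s₂ - 2 * η) / be) = r * s₂ - 2 * η := by field_simp
    rw [e6] at this
    exact this
  have hvy : (vq : ℝ) ≤ yq := by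
    have : be * (vq - w) ≤ be * (yq - w) := by linarith
    have := le_of_mul_le_mul_left this hbe
    linarith
  have hvq : (v : ℝ) ≤ vq := q1.le
  have hrs : r * s₂ ≤ s₂ := by
    have : r * s₂ ≤ 1 * s₂ := mul_le_mul_of_nonneg_right hr1 (h1.trans h12)
    linarith
  have hys : (yq : ℝ) - w ≤ s₂ := by
    have a1 : 0 ≤ (yq : ℝ) - w := by linarith
    have a2 : 1 * ((yq : ℝ) - w) ≤ be * (yq - w) := mul_le_mul_of_nonneg_right hb1 a1
    linarith
  have l1 := abs_le.1 (X.lamt vq (by linarith) (by linarith))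
  have l2 := abs_le.1 (X.lamt yq (by linarith) (by linarith))
  exact ⟨v, vq, yq, {
    vG := hv
    wv := v1
    vo := v2
    vs := by
      have : (Cr + 5) * φ = Cr * φ + 5 * φ := by ring
      linarith
    al1 := by linarith
    al2 := by
      have : (Cr + 8) * φ = Cr * φ + 8 * φ := by ring
      linarith
    sv1 := by linarith
    vvq := hvq
    vq1 := by
      have : (Cr + 8) * φ = Cr * φ + 8 * φ := by ring
      linarith
    lvq := by
      have : (Cr + 9) * φ = Cr * φ + 9 * φ := by ring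
      linarith
    vy := by exact_mod_cast hvy
    yq1 := y3
    yq2 := y4
    yqs := hys
    lyq := by
      rw [abs_le]
      constructor <;> linarith }⟩

end Pool.XR71
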