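import Pool.Agent.H71.XR.Xc

/-!
# The row, class level

`P1x`, `P2x`: near and far digits of the heights. `XBox.row_cls`: the row of the steep place given the
digits of the last place, on all parts of large events.
-/

set_option autoImplicit false

namespace Pool.XR71

open Finset Real MvPolynomial
open Pool.Agent.H49.Ent Pool.Agent.H32.Dense
open Pool.STK hiding pr2
open Pool.KA Pool.KSAT Pool.K2S Pool.PB Pool.S6C
open Pool.GEN Pool.CHT Pool.CHX Pool.ISO Pool.LA91 Pool.AVG71 Pool.AVG5 Pool.D2F2 Pool.AVG57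
open Pool.RCD Pool.AVG96 Pool.OWN68 Pool.V0F Pool.VA83 Pool.V0S Pool.ALT Pool.V0T
open Pool.AJW (CfB)
open Pool.UNJ (ceI)
open Pool.KVA (MI)

variable {m : ℕ} {S : PCl m} {c : ℕ → Fin m} {k : ℕ} {sn sp : ℕ → ℝ → ℝ} {G : Set ℝ}
  {al be h b o w u Λ φ e : ℝ} {lam : ℝ → ℝ}

/-- The near digits. -/
noncomputable def P1x (k : ℕ) (sn : ℕ → ℝ → ℝ) (w r s₁ Cr φ : ℝ) (t : ℕ) : ℝ :=
  if t = 0 then sn k w + s₁ else sn (k + 1) w + r * s₁ - (Cr + 4) * φ

/-- The far digits. -/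
noncomputable def P2x (k : ℕ) (sn : ℕ → ℝ → ℝ) (w s₂ : ℝ) (lam : ℝ → ℝ) (yq : ℚ) (t : ℕ) : ℝ :=
  if t = 0 then sn k w + s₂ else lam yq

/-- The digits of the slope-one places. -/
noncomputable def nVx (sn : ℕ → ℝ → ℝ) (w s₂ Cr φ : ℝ) (l : ℕ) : ℝ :=
  sn l w + s₂ + (3 * Cr + 10) * φ

/-- The precision of the labels. -/
noncomputable def prx (k : ℕ) (sn : ℕ → ℝ → ℝ) (w φ : ℝ) (t : ℕ) : ℝ := sn (k + t) w - φ

/-- **The row, class level.** -/
theorem XBox.row_cls (X : XBox S c k sn sp G al be h b o w u Λ φ e lam) (hΛ : 1 ≤ Λ)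
    (hφ : 10 * φ ≤ u) {s₁ s₂ Cr η v : ℝ} {vq yq w₁ : ℚ} (hCr : 100 * ((k : ℝ) + 3) ^ 2 ≤ Cr)
    (W : XWn k sn G (be / al) be w o s₁ s₂ φ Cr η lam v vq yq) (hs1 : 0 ≤ s₁)
    (hs12 : s₁ + 20 * φ ≤ s₂) (hη : Cr * φ ≤ η) (hs2 : s₂ + 10 * (Cr * φ) + 2 * η ≤ Λ * u)
    (hr : be / al * s₁ + (Cr + 10) * φ + 2 * η ≤ be / al * s₂) (hw : w ≤ w₁) (hwv : w₁ ≤ v)
    {π₀ ε : ℝ} (hπ : 0 < π₀) (hε : 0 < ε) : ∃ e₀ : ℝ, 0 < e₀ ∧ ∀ K : ℕ,
    Bas S (fun J F A => ∀ uV u₁ u₂,
      (qJets m c 0 k 0 (fun _ _ => b) (fun l _ => sn l b - φ)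
        (fun l _ => nVx sn w s₂ Cr φ l)).P K e₀ J F A uV →
      (qTg m c k (1 + 1) w (prx k sn w φ) (P1x k sn w (be / al) s₁ Cr φ)).P K e₀ J F A u₁ →
      (qTg m c k (1 + 1) w (prx k sn w φ) (P2x k sn w s₂ lam yq)).P K e₀ J F A u₂ →
      ∀ B : F.Ω → Prop, Sub B A → π₀ * Pe F.p A ≤ Pe F.p B →
      CH (Pool.Agent.H49.Ent.cond F.p B True) (fun ω => u₂ ω 0)
          (fun ω => (u₂ ω 1, ((u₁ ω 0, u₁ ω 1), (uV ω, (cR F A w₁ ω, F.W ω))))) ≤
        (((1 - h) * (lam yq - (sn (k + 1) w + be / al * s₁ - (Cr + 4) * φ)) + (s₂ - s₁)) *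
          Real.log 2 + φ + 16 * Cr * φ + ε) * J -
          CH (Pool.Agent.H49.Ent.cond F.p B True) (fun ω => u₂ ω 1)
            (fun ω => ((fun l : Fin k => F.X J ω (c l)), (cR F B v ω, F.W ω)))) := by
  have hu := X.u0
  have hb1 := X.be1
  have hba := X.bal
  have hφ0 := X.lad.φ0
  have hal : 0 < al := by linarith
  have hr1 : be / al ≤ 1 := (div_le_one hal).2 hba
  have hr0 : 0 ≤ be / al := by positivity
  have hbw := X.bw
  have hwo := X.wo
  have ho1 := X.o1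
  have hk0 : (0 : ℝ) ≤ k := Nat.cast_nonneg k
  have hΛu : u ≤ Λ * u := le_mul_of_one_le_left hu.le hΛ
  have hlev := X.lev hΛ hφ
  have Lb := X.lad.toLadR.lad
  obtain ⟨r, hr'⟩ : ∃ r, r = be / al := ⟨_, rfl⟩
  rw [← hr'] at hr1 hr0 hr W ⊢
  have hCk : 100 * (k * φ) + 900 * φ ≤ Cr * φ := by
    have : 100 * (k * φ) + 900 * φ = (100 * (k : ℝ) + 900) * φ := by ring
    rw [this]
    refine mul_le_mul_of_nonneg_right (le_trans ?_ hCr) hφ0.le
    nlinarith
  have hkφ : 0 ≤ (k : ℝ) * φ := by positivity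
  have e1 : (Cr + 10) * φ = Cr * φ + 10 * φ := by ring
  have e2 : (Cr + 4) * φ = Cr * φ + 4 * φ := by ring
  have e3 : (3 * Cr + 10) * φ = 3 * (Cr * φ) + 10 * φ := by ring
  have e5 : (Cr + 8) * φ = Cr * φ + 8 * φ := by ring
  have e6 : (Cr + 5) * φ = Cr * φ + 5 * φ := by ring
  have hrs : r * s₂ ≤ s₂ := by
    have : r * s₂ ≤ 1 * s₂ := mul_le_mul_of_nonneg_right hr1 (by linarith)
    linarith
  have hrs1 : 0 ≤ r * s₁ := mul_nonneg hr0 hs1
  have hbw' : b ≤ w := by linarith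
  have hwo' : w ≤ o := by linarith
  obtain ⟨w1, w2, w3, w4, w5, w6, w7, w8, w9, w10, w11, w12, w13, w14, w15⟩ := W
  rw [e5] at w6 w9
  rw [e6] at w4
  have w15' := abs_le.1 w15
  rw [e1] at hr
  -- the windows of the row
  obtain ⟨x, hx, x1, x2, x3, x3', x4, x5, x6⟩ := X.win hΛ hφ (s := s₂ + Cr * φ + 4 * φ)
    (by linarith) (by linarith)
  rw [← hr'] at x5 x6
  have x4' := abs_le.1 x4
  have x5' := abs_le.1 x5
  have x7 : r * s₂ ≤ r * (s₂ + Cr * φ + 4 * φ) := mul_le_mul_of_nonneg_left (by linarith) hr0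
  obtain ⟨x', hx', x8⟩ := X.lad.toLadR.gap (w + (s₂ + 3 * (Cr * φ))) (by linarith) (by linarith)
  have x8' := abs_le.1 x8
  have hvx : v ≤ x := by
    have l0 := abs_le.1 (X.lin0 v w1 (by linarith) w3)
    have : al * (v - w) ≤ al * (x - w) := by linarith
    have := le_of_mul_le_mul_left this hal
    linarith
  have hxo : x' ≤ o := by linarith
  have hbx' : b ≤ x' := by linarith
  obtain ⟨rk, E₁, hrk, hE₁, hatt, hE2⟩ := X.att
  obtain ⟨η', hη'⟩ := X.rn w₁
  have p10 : P1x k sn w r s₁ Cr φ 0 = sn k w + s₁ := if_pos rfl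
  have p11 : P1x k sn w r s₁ Cr φ 1 = sn (k + 1) w + r * s₁ - (Cr + 4) * φ := if_neg one_ne_zero
  have p20 : P2x k sn w s₂ lam yq 0 = sn k w + s₂ := if_pos rfl
  have p21 : P2x k sn w s₂ lam yq 1 = lam yq := if_neg one_ne_zero
  obtain ⟨lk1, lk2, lk3⟩ := hlev k (by omega)
  obtain ⟨ln1, ln2, ln3⟩ := hlev (k + 1) le_rfl
  have hfx : ∀ i < k, sn i x' ≤ sn i w + (x' - w) + 2 * φ := fun i hi => by
    have := (abs_le.1 (Lb.flat hi hx' X.wG hbx' hxo hbw' hwo')).2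
    linarith
  have hfb : ∀ i < k, sn i w + b ≤ sn i b + w + 2 * φ ∧ sn i b + w ≤ sn i w + b + 2 * φ :=
    fun i hi => by
    have := abs_le.1 (Lb.flat hi X.wG Lb.bG hbw' hwo' le_rfl Lb.bo)
    constructor <;> linarith
  obtain ⟨e₀, he₀, H⟩ := ex_row X.lad X.img (w := w) (w₁ := w₁) (v := v) (x := x) (x' := x')
    (p := fun l => sn l b - φ) (n := nVx sn w s₂ Cr φ) (pr := prx k sn w φ)
    (P₁ := P1x k sn w r s₁ Cr φ) (P₂ := P2x k sn w s₂ lam yq) (E₁ := E₁) (h := h) (δ := φ) hCr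
    X.wG w1 hx hx' hbw' hw hwv hvx (by linarith) hxo (by linarith) (fun i _ => le_rfl)
    (fun t _ => le_rfl)
    (fun i hi => by
      have := hfx i hi
      have := hlev i (by omega)
      unfold nVx
      rw [e3]
      constructor <;> linarith)
    ⟨fun i hi => by
      have := hfb i hi
      unfold nVx
      rw [e3]
      have : 20 * ((k : ℝ) + 1) * φ = 20 * (k * φ) + 20 * φ := by ring
      rw [this]
      linarith, fun i hi l hl => by
      have a1 := hfb i hi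
      have a2 := hfb l (hl.trans hi)
      have a3 := hlev l (by omega)
      unfold nVx
      rw [e3]
      have : 20 * ((k : ℝ) + 1) * φ = 20 * (k * φ) + 20 * φ := by ring
      rw [this]
      linarith⟩
    (fun t ht => by
      rcases Nat.lt_or_ge t 1 with h1 | h1
      · obtain rfl : t = 0 := by omega
        rw [p10, p20]
        show 0 ≤ sn k w + s₁ ∧ sn k w + s₁ ≤ sn k w + s₂ ∧ sn k w + s₂ ≤ 1 ∧
          sn k w + s₁ + Cr * φ ≤ sn k v ∧ sn k w + s₂ + Cr * φ ≤ sn k x ∧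
          sn k w + s₂ + Cr * φ ≤ sn k w + (x' - w)
        refine ⟨by linarith, by linarith, by linarith, by linarith, by linarith, by linarith⟩
      · obtain rfl : t = 1 := by omega
        rw [p11, p21, e2]
        refine ⟨by linarith, by linarith, by linarith, by linarith, by linarith, by linarith⟩)
    (by
      rw [p20]
      have : 2 * Cr * φ = 2 * (Cr * φ) := by ring
      rw [this]
      linarith)
    (fun t ht l hl => by
      rcases Nat.lt_or_ge t 1 with h1 | h1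
      · obtain rfl : t = 0 := by omega
        rw [p20]
        show sn k w + s₂ + Cr * φ ≤ sn k w + (1 - sn l w)
        have := hlev l (by omega)
        linarith
      · obtain rfl : t = 1 := by omega
        rw [p21]
        have := hlev l (by omega)
        linarith)
    ⟨rk, hrk, hE₁, hatt, by
      rw [p21]
      linarith⟩
    (by
      rw [p11, p21]
      refine X.row _ _ ?_ ?_ ?_
      · rw [abs_le, e2]
        constructor <;> linarith
      · rw [abs_le]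
        constructor <;> linarith
      · rw [e2]
        linarith)
    hη' hπ hε
  refine ⟨e₀, he₀, fun K => ?_⟩
  refine Bas.mono 0 (H K) ?_
  rintro J - F A H uV u₁ u₂ hV h1 h2 B hB hm
  have key := H uV u₁ u₂ hV h1 h2 B hB hm
  rw [p10, p11, p20, p21] at key
  refine key.trans (le_of_eq ?_)
  ring

end Pool.XR71
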