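import Pool.Agent.H71.XR.Xe

/-!
# The row over the side path

`xrow : XrowStmt`.
-/

set_option autoImplicit false

namespace Pool.XR71

open Finset Real MvPolynomial
open Pool.Agent.H49.Ent Pool.Agent.H32.Dense
open Pool.STK hiding pr2
open Pool.KA Pool.KSAT Pool.K2S Pool.PB Pool.S6C
open Pool.GEN Pool.CHT Pool.CHX Pool.ISO Pool.LA91 Pool.AVG71 Pool.AVG5 Pool.D2F2 Pool.AVG57
open Pool.RCD Pool.AVG96 Pool.OWN68 Pool.V0F Pool.VA83 Pool.V0S Pool.ALT Pool.V0T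
open Pool.AJW (CfB)
open Pool.UNJ (ceI)
open Pool.KVA (MI)
open Pool.GRD (LbP)
open Pool.VG83 (Hif ld_if jh_if vv_if jv_if cl_cR)

/-- Small numbers. -/
theorem small5 {a b c d f : ℝ} (ha : 0 < a) (hb : 0 < b) (hc : 0 < c) (hd : 0 < d) (hf : 0 < f)
    {A B : ℝ} (hA : 0 < A) (hB : 0 < B) : ∃ x : ℝ, 0 < x ∧ x * a ≤ 1 ∧ x * b ≤ A ∧ x * c ≤ 1 ∧
      x * d ≤ B ∧ x * f ≤ 1 := by
  refine ⟨min (1 / a) (min (A / b) (min (1 / c) (min (B / d) (1 / f)))), by positivity, ?_, ?_, ?_,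
    ?_, ?_⟩
  · rw [← le_div_iff₀ ha]
    exact min_le_left _ _
  · rw [← le_div_iff₀ hb]
    exact (min_le_right _ _).trans (min_le_left _ _)
  · rw [← le_div_iff₀ hc]
    exact (min_le_right _ _).trans ((min_le_right _ _).trans (min_le_left _ _))
  · rw [← le_div_iff₀ hd]
    exact (min_le_right _ _).trans ((min_le_right _ _).trans ((min_le_right _ _).trans
      (min_le_left _ _)))
  · rw [← le_div_iff₀ hf]
    exact (min_le_right _ _).trans ((min_le_right _ _).trans ((min_le_right _ _).trans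
      (min_le_right _ _)))

/-- **The row over the side path.** -/
theorem xrow : XrowStmt := by
  intro k al be h ξ δ π₀ hh hh1 hξ hξ1 hδ hπ hal
  by_cases hbe : 1 ≤ be ∧ be ≤ al
  swap
  · refine ⟨1, one_pos, ?_⟩
    intro m S c sn sp G b o w u Λ φ e lam X
    exact absurd ⟨X.be1, X.bal⟩ hbe
  obtain ⟨hb1, hba⟩ := hbe
  have hk0 : (0 : ℝ) ≤ k := Nat.cast_nonneg k
  obtain ⟨r, hr⟩ : ∃ r, r = be / al := ⟨_, rfl⟩
  have hr0 : 0 < r := by rw [hr]; positivity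
  have hr1 : r ≤ 1 := by rw [hr]; exact (div_le_one hal).2 hba
  obtain ⟨Cr, hCr⟩ : ∃ Cr : ℝ, Cr = 100 * ((k : ℝ) + 3) ^ 2 := ⟨_, rfl⟩
  have hCr0 : 900 ≤ Cr := by rw [hCr]; nlinarith
  obtain ⟨M₀, hM₀⟩ : ∃ M₀ : ℝ, M₀ = 19 * Cr + 15 + 4 * (((k : ℝ) + 1) * (3 * Cr + 11)) :=
    ⟨_, rfl⟩
  have hM0 : 0 < M₀ := by rw [hM₀]; positivity
  obtain ⟨φ₁, hφ₁, f1, f2, f3, f4, -⟩ := small5 (a := al) (b := 3 * Cr + 10) (c := 100 * Cr)
    (d := M₀) (f := 1) (A := r * ξ) (B := δ / 2) hal (by positivity) (by positivity) hM0 one_pos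
    (by positivity) (by positivity)
  refine ⟨φ₁, hφ₁, ?_⟩
  intro m S c sn sp G b o w u Λ φ e lam X hΛ y w₁ K₀ e₀ ρ₀ π₁ hy0 hy hφ he0 he hw hwφ hful hπ₁ D E
  have hu := X.u0
  have hφ0 := X.lad.φ0
  have hbw := X.bw
  have hwo := X.wo
  have ho1 := X.o1
  have hl2 : 0 < Real.log 2 := Real.log_pos one_lt_two
  have hl2' : Real.log 2 ≤ 1 := by
    have := Real.log_two_lt_d9
    linarith
  have hl5 : 0 < Real.log 5 := Real.log_pos (by norm_num)
  have hΛu : 10 * u ≤ Λ * u := mul_le_mul_of_nonneg_right hΛ hu.le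
  -- small numbers
  have g1 : φ₁ * u * (100 * Cr) ≤ u := by
    have := mul_le_mul_of_nonneg_right f3 hu.le
    linarith
  have g2 : 100 * (Cr * φ) ≤ u := by
    have : φ * (100 * Cr) ≤ φ₁ * u * (100 * Cr) := mul_le_mul_of_nonneg_right hφ (by positivity)
    linarith
  have g3 : 90000 * (φ₁ * u) ≤ u := by
    have : φ₁ * u * 90000 ≤ φ₁ * u * (100 * Cr) :=
      mul_le_mul_of_nonneg_left (by linarith) (by positivity)
    linarith
  have g4 : 3 * (Cr * φ) + 10 * φ ≤ r * (ξ * u) := by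
    have a1 : φ * (3 * Cr + 10) ≤ φ₁ * u * (3 * Cr + 10) :=
      mul_le_mul_of_nonneg_right hφ (by positivity)
    have a2 := mul_le_mul_of_nonneg_right f2 hu.le
    linarith
  have g5 : r * (ξ * u) ≤ ξ * u := by
    have : r * (ξ * u) ≤ 1 * (ξ * u) := mul_le_mul_of_nonneg_right hr1 (by positivity)
    linarith
  have g6 : 900 * φ ≤ Cr * φ := mul_le_mul_of_nonneg_right hCr0 hφ0.le
  have g7 : ξ * u ≤ u := by
    have : ξ * u ≤ 1 * u := mul_le_mul_of_nonneg_right hξ1 hu.le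
    linarith
  have g8 : φ * al ≤ u := by
    have a1 : φ * al ≤ φ₁ * u * al := mul_le_mul_of_nonneg_right hφ hal.le
    have a2 := mul_le_mul_of_nonneg_right f1 hu.le
    linarith
  -- the depths
  obtain ⟨s₁, hs₁⟩ : ∃ s₁ : ℝ, s₁ = u + 500 * y := ⟨_, rfl⟩
  obtain ⟨s₂, hs₂⟩ : ∃ s₂ : ℝ, s₂ = s₁ + ξ * u := ⟨_, rfl⟩
  have e1 : (2 * Cr + 10) * φ = 2 * (Cr * φ) + 10 * φ := by ring
  have e2 : (Cr + 10) * φ = Cr * φ + 10 * φ := by ring
  have e3 : r * s₂ = r * s₁ + r * (ξ * u) := by rw [hs₂]; ring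
  have h10 : 10 * φ ≤ u := by linarith
  obtain ⟨v, vq, yq, W⟩ := X.wins (by linarith) h10 (s₁ := s₁) (s₂ := s₂) (Cr := Cr)
    (η := Cr * φ) (by linarith) (by linarith) (by linarith) le_rfl (by rw [e1]; linarith)
    (by rw [← hr, e2, e3]; linarith)
  have hε : 0 < δ * u / 8 := by positivity
  have hvG := W.vG
  have hwv := W.wv
  have hvo := W.vo
  have hwv1 : (w₁ : ℝ) ≤ v := by
    have a1 := abs_le.1 (X.lin0 v hvG (by linarith) hvo)
    have a2 := W.al1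
    have a3 : φ * al ≤ (v - w) * al := by linarith
    have := le_of_mul_le_mul_right a3 hal
    linarith
  obtain ⟨e₁, he₁, H₁⟩ := X.row_cls (w₁ := w₁) (by linarith) h10 hCr.ge W (by linarith)
    (by linarith) le_rfl (by linarith) (by rw [← hr, e2, e3]; linarith) hw hwv1 hπ hε
  have hw0 : 0 ≤ w := by linarith [X.lad.b0]
  have hw1 : w ≤ 1 := by linarith
  obtain ⟨Ma, Ja, hMa⟩ := ld_jh m D k (nVx sn w s₂ Cr φ) (b := b) (E := E) X.lad.b0
    (by linarith)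
  obtain ⟨Mb, Jb, hMb⟩ := qtg_ev m D k K₀ (P1x k sn w (be / al) s₁ Cr φ) (w := w) (E := E) hw0 hw1
  obtain ⟨Mc, Jc, hMc⟩ := qtg_ev m D k K₀ (P2x k sn w s₂ lam yq) (w := w) (E := E) hw0 hw1
  obtain ⟨M, hM⟩ : ∃ M : ℕ, M = Ma + Mb + Mc := ⟨_, rfl⟩
  have hvvq := W.vvq
  have hvy := W.vy
  have hyqs := W.yqs
  have hyq1 : (yq : ℝ) ≤ w + Λ * u := by linarith
  have hvy' : (vq : ℝ) ≤ yq := by exact_mod_cast hvy
  have H₂ := hful vq yq (by linarith) (by exact_mod_cast hvy) hyq1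
  obtain ⟨Jd, hJd⟩ := exists_nat_gt (((k : ℝ) + 1) * (2 + 2 * Real.log 5) / (δ * u / 32))
  refine Bas.mono (Ja + Jb + Jc + Jd + 1) (((H₁ M).and (Pool.VG83.bas_ev H₂ hπ)).and (pos_bas X.lad.pos)) ?_
  rintro J hJ F A ⟨⟨H1, H2⟩, hA⟩ Hb Hw H₀ H Hn γ TV σ sd XE hsd B hB hm
  have hPB : 0 < Pe F.p B := lt_of_lt_of_le (mul_pos hπ hA) hm
  have hcl := isLaw_cond F.isLaw hPB
  have h0 := hcl.nonneg
  have hpB : ∀ ω, 0 < Pool.Agent.H49.Ent.cond F.p B True ω → B ω := fun ω hω => cond_pos hω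
  have hpA : ∀ ω, 0 < Pool.Agent.H49.Ent.cond F.p B True ω → A ω := fun ω hω => hB ω (hpB ω hω)
  have hJ0 : (0 : ℝ) ≤ J := Nat.cast_nonneg J
  have hJ1 : 0 < J := by omega
  have hlog : ((k : ℝ) + 1) * (2 + 2 * Real.log 5) ≤ δ * u / 32 * J := by
    have a1 : (Jd : ℝ) ≤ J := by
      have : Jd ≤ J := by omega
      exact_mod_cast this
    have a2 := hJd.le.trans a1
    rw [div_le_iff₀ (by positivity)] at a2
    linarith
  -- the class theorem
  have q0 := hMa M (by omega) J (by omega) (ld_if le_rfl XE.ld XE.hH) e₁ he₁.le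
  rw [jh_if] at q0
  have key := H1 _ _ _ q0 (hMb M (by omega) J (by omega) XE e₁ he₁.le)
    (hMc M (by omega) J (by omega) XE e₁ he₁.le) B hB hm
  have hn2 : (fun ω => uv2 F c k w (Hif k H Hw) Hn (P2x k sn w s₂ lam yq) ω 1) =
      nh F (c (k + 1)) w (lam yq) Hn := by
    funext ω
    show (if ((1 : Fin (1 + 1)) : ℕ) = 0 then _ else _) = _
    rw [if_neg (by simp)]
    show nh F (c (k + 1)) w (P2x k sn w s₂ lam yq 1) Hn ω = _
    unfold P2x
    rw [if_neg one_ne_zero]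
  have hn1 : (fun ω => uv2 F c k w (Hif k H Hw) Hn (P1x k sn w (be / al) s₁ Cr φ) ω 1) =
      nh F (c (k + 1)) w (sn (k + 1) w + be / al * s₁ - (Cr + 4) * φ) Hn := by
    funext ω
    show (if ((1 : Fin (1 + 1)) : ℕ) = 0 then _ else _) = _
    rw [if_neg (by simp)]
    show nh F (c (k + 1)) w (P1x k sn w (be / al) s₁ Cr φ 1) Hn ω = _
    unfold P1x
    rw [if_neg one_ne_zero]
  have hu2 : (fun ω => uv2 F c k w (Hif k H Hw) Hn (P2x k sn w s₂ lam yq) ω 0) =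
      th0 F c k ⌊w * J⌋₊ (Hif k H Hw) (sn k w + s₂) := by
    funext ω
    show (if ((0 : Fin (1 + 1)) : ℕ) = 0 then _ else _) = _
    rw [if_pos (by simp)]
    unfold P2x
    rw [if_pos rfl]
  have hu1 : (fun ω => uv2 F c k w (Hif k H Hw) Hn (P1x k sn w (be / al) s₁ Cr φ) ω 0) =
      th0 F c k ⌊w * J⌋₊ (Hif k H Hw) (sn k w + s₁) := by
    funext ω
    show (if ((0 : Fin (1 + 1)) : ℕ) = 0 then _ else _) = _
    rw [if_pos (by simp)]
    unfold P1x
    rw [if_pos rfl]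
  -- the number of the last place
  have hyo : (yq : ℝ) ≤ 1 := by linarith
  have F3 := ful_ev XE (v := v) (π₁ := π₁) (a := vq) (s₁ := lam vq) (s₂ := lam yq) hvvq
    (by exact_mod_cast hvy'.trans hyo) hπ₁ hB h0 hpB
    (fun V z z' g hlb C zc zc' hz => H2 B hB hm V z z' g hlb C zc zc' hz)
  rw [← hn2] at F3
  -- numbers
  obtain ⟨w1, w2, w3, w4, w5, w6, w7, w8, w9, w10, w11, w12, w13, w14, w15⟩ := W
  have w15' := abs_le.1 w15
  rw [← hr] at w7 w9 w10 w12 w13 w15'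
  have e4 : (Cr + 8) * φ = Cr * φ + 8 * φ := by ring
  have e5 : (Cr + 4) * φ = Cr * φ + 4 * φ := by ring
  rw [e4] at w9
  rw [e3] at w12 w15'
  have n1 : be * (yq - vq) = be * (yq - w) - be * (vq - w) := by ring
  have n2 : r * (ξ * u) - (3 * (Cr * φ) + 9 * φ) ≤ be * (yq - vq) := by
    rw [n1]
    linarith
  have n3 : lam yq - (sn (k + 1) w + be / al * s₁ - (Cr + 4) * φ) ≤ r * (ξ * u) := by
    rw [← hr, e5]
    linarith
  have n4 : (1 - h) * (lam yq - (sn (k + 1) w + be / al * s₁ - (Cr + 4) * φ)) ≤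
      (1 - h) * (r * (ξ * u)) := mul_le_mul_of_nonneg_left n3 (by linarith)
  have n5 : s₂ - s₁ = ξ * u := by rw [hs₂]; ring
  obtain ⟨e', he'⟩ : ∃ e' : ℝ, e' = (φ₁ * u + ((k : ℝ) + 1) * (3 * Cr + 11) * φ) * J +
    ((k : ℝ) + 1) * (2 + 2 * Real.log 5) := ⟨_, rfl⟩
  have hkl : 2 + 2 * Real.log 5 ≤ ((k : ℝ) + 1) * (2 + 2 * Real.log 5) :=
    le_mul_of_one_le_left (by positivity) (by linarith)
  have hkc : 11 * φ * J ≤ ((k : ℝ) + 1) * (3 * Cr + 11) * φ * J := by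
    refine mul_le_mul_of_nonneg_right (mul_le_mul_of_nonneg_right ?_ hφ0.le) hJ0
    have : 1 * 11 ≤ ((k : ℝ) + 1) * (3 * Cr + 11) :=
      mul_le_mul (by linarith) (by linarith) (by norm_num) (by linarith)
    linarith
  have hφuJ : 0 ≤ φ₁ * u * J := by positivity
  have he'0 : ∀ t, t ≤ φ₁ * u * J + 11 * φ * J + (2 + 2 * Real.log 5) → t ≤ e' := fun t ht => by
    rw [he']
    have : (φ₁ * u + ((k : ℝ) + 1) * (3 * Cr + 11) * φ) * J =
      φ₁ * u * J + ((k : ℝ) + 1) * (3 * Cr + 11) * φ * J := by ring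
    rw [this]
    linarith
  -- the levels in digits
  have hq1 : (⌊(u + 500 * y) * (J : ℝ)⌋₊ : ℝ) ≤ s₁ * J := by
    rw [← hs₁]
    exact Nat.floor_le (mul_nonneg (by linarith) hJ0)
  have hq2 : s₁ * J - 1 ≤ (⌊(u + 500 * y) * (J : ℝ)⌋₊ : ℝ) := by
    rw [← hs₁]
    linarith [Nat.lt_floor_add_one (s₁ * (J : ℝ))]
  have hX1 : (⌊ξ * u * (J : ℝ)⌋₊ : ℝ) ≤ ξ * u * J := Nat.floor_le (by positivity)
  have hX2 : ξ * u * J - 1 ≤ (⌊ξ * u * (J : ℝ)⌋₊ : ℝ) := by
    linarith [Nat.lt_floor_add_one (ξ * u * (J : ℝ))]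
  have fin := row_sd h0 (u₁ := fun ω => uv2 F c k w (Hif k H Hw) Hn
      (P1x k sn w (be / al) s₁ Cr φ) ω 0)
    (u₂ := fun ω => uv2 F c k w (Hif k H Hw) Hn (P2x k sn w s₂ lam yq) ω 0)
    (n₁ := fun ω => uv2 F c k w (Hif k H Hw) Hn (P1x k sn w (be / al) s₁ Cr φ) ω 1)
    (n₂ := fun ω => uv2 F c k w (Hif k H Hw) Hn (P2x k sn w s₂ lam yq) ω 1)
    (V := jh F c k ⌊w * J⌋₊ H (nVx sn w s₂ Cr φ))
    (V' := Vv F c k ⌊w * J⌋₊ H (fun l => ((γ l + ⌊(u + 500 * y) * J⌋₊ +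
          ⌊ξ * u * J⌋₊ : ℕ) : ℝ)))
    (z := cR F A w₁) (y := F.W) (U₁ := fun ω => ⌊TV ω⌋)
    (U₂ := fun ω => ⌊(2 : ℝ) ^ ⌊ξ * u * J⌋₊ * TV ω⌋) (sd := sd) (e := e') key
    (by
      have c1 : (fun ω => (uv2 F c k w (Hif k H Hw) Hn (P1x k sn w (be / al) s₁ Cr φ) ω 1,
          uv2 F c k w (Hif k H Hw) Hn (P2x k sn w s₂ lam yq) ω 1)) = fun ω =>
          (nh F (c (k + 1)) w (sn (k + 1) w + be / al * s₁ - (Cr + 4) * φ) Hn ω,
            nh F (c (k + 1)) w (lam yq) Hn ω) := by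
        funext ω
        exact Prod.ext (congrFun hn1 ω) (congrFun hn2 ω)
      rw [c1]
      have a0 := hsd B hB hm
      have a1 := CH_le_add h0 (fun ω => (nh F (c (k + 1)) w
          (sn (k + 1) w + be / al * s₁ - (Cr + 4) * φ) Hn ω, nh F (c (k + 1)) w (lam yq) Hn ω))
        (nh F (c (k + 1)) w (sn (k + 1) w + be / al * (u + 500 * y + ξ * u)) Hn)
        (fun ω => (sd ω, F.W ω))
      have a2 := CH_subadd h0 (nh F (c (k + 1)) w
          (sn (k + 1) w + be / al * s₁ - (Cr + 4) * φ) Hn) (nh F (c (k + 1)) w (lam yq) Hn)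
        (fun ω => (nh F (c (k + 1)) w (sn (k + 1) w + be / al * (u + 500 * y + ξ * u)) Hn ω,
          (sd ω, F.W ω)))
      have a3 := ch_nh (Hn := Hn) (w := w) hcl (M := sn (k + 1) w + be / al * (u + 500 * y + ξ * u))
        (M' := sn (k + 1) w + be / al * s₁ - (Cr + 4) * φ) (d := 0) (c (k + 1))
        (Z := fun ω => (nh F (c (k + 1)) w (sn (k + 1) w + be / al * (u + 500 * y + ξ * u)) Hn ω,
          (sd ω, F.W ω))) (fun ω ν _ _ e => (Prod.ext_iff.mp e).1)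
        (mul_nonpos_of_nonpos_of_nonneg (by
          rw [← hs₁, ← hs₂, ← hr, e3, e5]
          linarith) hJ0) le_rfl
      have a4 := ch_nh (Hn := Hn) (w := w) hcl (M := sn (k + 1) w + be / al * (u + 500 * y + ξ * u))
        (M' := lam yq) (d := 0) (c (k + 1))
        (Z := fun ω => (nh F (c (k + 1)) w (sn (k + 1) w + be / al * (u + 500 * y + ξ * u)) Hn ω,
          (sd ω, F.W ω))) (fun ω ν _ _ e => (Prod.ext_iff.mp e).1)
        (mul_nonpos_of_nonpos_of_nonneg (by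
          rw [← hs₁, ← hs₂, ← hr, e3]
          linarith) hJ0) le_rfl
      refine he'0 _ ?_
      have : 0 ≤ 11 * φ * J := by positivity
      linarith)
    (by
      rw [hu1]
      have a1 := XE.t1 hcl hpA (M := sn k w + s₁) (d := φ * J + 1) 0 (Z := fun ω => ⌊TV ω⌋)
        (fun ω ν _ _ e => by simpa using e) (by
          have b1 := (XE.γb k le_rfl).1
          have b2 : (sn k w - φ) * J = sn k w * J - φ * J := by ring
          have b3 : (sn k w + s₁) * J = sn k w * J + s₁ * J := by ring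
          rw [b2] at b1
          rw [b3]
          push_cast
          linarith) (by positivity)
      refine he'0 _ (a1.trans ?_)
      have b1 : (φ * J + 1) * Real.log 2 ≤ (φ * J + 1) * 1 :=
        mul_le_mul_of_nonneg_left hl2' (by positivity)
      have b2 : 0 ≤ φ * J := by positivity
      linarith)
    (by
      rw [hu2]
      have a1 := XE.t2 hcl hpA (M := sn k w + s₂) (d := 0) ⌊ξ * u * J⌋₊
        (Z := th0 F c k ⌊w * J⌋₊ (Hif k H Hw) (sn k w + s₂))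
        (fun ω ν _ _ e => e) (by
          have b1 := (XE.γb k le_rfl).2
          have b3 : (sn k w + s₂) * J = sn k w * J + s₁ * J + ξ * u * J := by rw [hs₂]; ring
          rw [b3]
          linarith) le_rfl
      refine he'0 _ (a1.trans ?_)
      have b2 : 0 ≤ 11 * φ * J := by positivity
      linarith)
    (by
      have a1 := ch_jhv (F := F) (c := c) (k := k) (w := w) (H := H) hcl hJ1
        (n := nVx sn w s₂ Cr φ) (N := fun l => γ l + ⌊(u + 500 * y) * J⌋₊ + ⌊ξ * u * J⌋₊)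
        (d := (3 * Cr + 11) * φ * J + 2) (fun l hl => by
          have b1 := (XE.γb l hl.le).1
          have b2 : (sn l w - φ) * J = sn l w * J - φ * J := by ring
          have b3 : nVx sn w s₂ Cr φ l * J = sn l w * J + s₁ * J + ξ * u * J +
              (3 * Cr + 10) * φ * J := by
            unfold nVx
            rw [hs₂]
            ring
          have b4 : (3 * Cr + 11) * φ * J = (3 * Cr + 10) * φ * J + φ * J := by ring
          rw [b2] at b1
          rw [b3, b4]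
          push_cast
          linarith) (by positivity)
      refine a1.trans ?_
      rw [he']
      have b0 : 0 ≤ (3 * Cr + 11) * φ * J := by positivity
      have b1 : ((3 * Cr + 11) * φ * J + 2) * Real.log 2 ≤ ((3 * Cr + 11) * φ * J + 2) * 1 :=
        mul_le_mul_of_nonneg_left hl2' (by positivity)
      have b2 : k * (((3 * Cr + 11) * φ * J + 2) * Real.log 2 + Real.log 5) ≤
          ((k : ℝ) + 1) * (((3 * Cr + 11) * φ * J + 2) * 1 + Real.log 5) :=
        mul_le_mul (by linarith) (by linarith) (by positivity) (by positivity)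
      have b3 : ((k : ℝ) + 1) * (((3 * Cr + 11) * φ * J + 2) * 1 + Real.log 5) =
          ((k : ℝ) + 1) * (3 * Cr + 11) * φ * J + ((k : ℝ) + 1) * (2 + 2 * Real.log 5) -
          ((k : ℝ) + 1) * Real.log 5 := by ring
      have b4 : 0 ≤ ((k : ℝ) + 1) * Real.log 5 := by positivity
      have b5 : (φ₁ * u + ((k : ℝ) + 1) * (3 * Cr + 11) * φ) * J =
        φ₁ * u * J + ((k : ℝ) + 1) * (3 * Cr + 11) * φ * J := by ring
      rw [b5]
      linarith)
  refine fin.trans ?_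
  -- the sum
  rw [n5]
  have t1 : ((1 - h) * (lam yq - (sn (k + 1) w + be / al * s₁ - (Cr + 4) * φ)) + ξ * u) *
      Real.log 2 ≤ ((1 - h) * (r * (ξ * u)) + ξ * u) * Real.log 2 :=
    mul_le_mul_of_nonneg_right (by linarith) hl2.le
  have t2 : (r * (ξ * u) - (3 * (Cr * φ) + 9 * φ)) * Real.log 2 ≤
      be * (yq - vq) * Real.log 2 := mul_le_mul_of_nonneg_right n2 hl2.le
  have t3 : (3 * (Cr * φ) + 9 * φ) * Real.log 2 ≤ (3 * (Cr * φ) + 9 * φ) * 1 :=
    mul_le_mul_of_nonneg_left hl2' (by positivity)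
  have t4 : e * u ≤ φ₁ * u := mul_le_mul_of_nonneg_right he hu.le
  have t5 : (19 * Cr + 10) * φ ≤ (19 * Cr + 10) * (φ₁ * u) :=
    mul_le_mul_of_nonneg_left hφ (by positivity)
  have t6 : ((k : ℝ) + 1) * (3 * Cr + 11) * φ ≤ ((k : ℝ) + 1) * (3 * Cr + 11) * (φ₁ * u) :=
    mul_le_mul_of_nonneg_left hφ (by positivity)
  have t7 : φ₁ * u * M₀ ≤ δ / 2 * u := by
    have := mul_le_mul_of_nonneg_right f4 hu.le
    linarith
  have t8 : (((1 - h) * (lam yq - (sn (k + 1) w + be / al * s₁ - (Cr + 4) * φ)) + ξ * u) *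
      Real.log 2 + φ + 16 * Cr * φ + δ * u / 8 - (be * (yq - vq) * Real.log 2 - e * u) +
      4 * (φ₁ * u + ((k : ℝ) + 1) * (3 * Cr + 11) * φ)) + 4 * (δ * u / 32) ≤
      (1 - h * (be / al)) * ξ * u * Real.log 2 + δ * u := by
    rw [hM₀] at t7
    have a1 : (1 - h * (be / al)) * ξ * u * Real.log 2 =
        ((1 - h) * (r * (ξ * u)) + ξ * u) * Real.log 2 - r * (ξ * u) * Real.log 2 := by
      rw [← hr]
      ring
    rw [a1]
    linarith
  have t9 := mul_le_mul_of_nonneg_right t8 hJ0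
  rw [he']
  linarith

end Pool.XR71
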