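import Pool.Agent.H71.XR.Xf

/-!
# No look-ahead, class level

`ladv_mono`: larger errors. `nfx`: the near digits of the slope-one places. `nearQ`, `farQ`: the near
digits of the pair given the near path and a record, the far ones given a late record.
`nl_cls`: the mutual information of the record of the window of the near digits and of the far digits
of the pair, given the near digits.
-/

set_option autoImplicit false

namespace Pool.XR71

open Finset Real MvPolynomial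
open Pool.Agent.H49.Ent Pool.Agent.H32.Dense
open Pool.STK hiding pr2
open Pool.KA Pool.KSAT Pool.K2S Pool.PB Pool.S6C
open Pool.GEN Pool.CHT Pool.CHX Pool.ISO Pool.LA91 Pool.AVG71 Pool.AVG5 Pool.D2F2 Pool.AVG57
open Pool.RCD Pool.AVG96 Pool.OWN68 Pool.V0F Pool.VA83 Pool.V0S Pool.ALT Pool.V0T
open Pool.AJW (CfB)
open Pool.UNJ (ceI)
open Pool.KVA (MI)
open Pool.GRD (LbP)
open Pool.VG83 (Hif ld_if jh_if vv_if jv_if cl_cR)
open Pool.VT83 (NlqI VB vlaw_gen)
open Pool.V0R (t_nu0r t_nupr)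

variable {m : ℕ}

/-- **Larger errors.** -/
theorem ladv_mono {S : PCl m} {c : ℕ → Fin m} {k f : ℕ} {sn : ℕ → ℝ → ℝ} {G : Set ℝ} {b o φ : ℝ}
    (L : LadV S c k f sn G b o φ) {φ₁ : ℝ} (h : φ ≤ φ₁) : LadV S c k f sn G b o φ₁ where
  tm := L.tm
  pos := L.pos
  inj := L.inj
  ch := L.ch
  att := L.att
  bG := L.bG
  oG := L.oG
  b0 := L.b0
  bo := L.bo
  o1 := L.o1
  φ0 := L.φ0.trans_le h
  fm := by
    obtain ⟨φ', h1, h2, h3, h4⟩ := L.fm
    exact ⟨φ', h1, h2.trans h, h3, fun l a b v hv v' hv' h5 h6 h7 h8 =>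
      (h4 l a b v hv v' hv' h5 h6 h7 h8).trans (by linarith)⟩
  fl := fun i hi v hv h3 h4 => (L.fl i hi v hv h3 h4).trans h
  st := fun l a b v hv v' hv' h3 h4 h5 => (L.st l a b v hv v' hv' h3 h4 h5).trans (by linarith)
  eq := fun l a b v hv v' hv' h3 h4 h5 => (L.eq l a b v hv v' hv' h3 h4 h5).trans h
  le := fun l a b v hv v' hv' h3 h4 h5 => (L.le l a b v hv v' hv' h3 h4 h5).trans h

/-- The near digits of the slope-one places. -/
noncomputable def nfx (k : ℕ) (sn : ℕ → ℝ → ℝ) (w d φ : ℝ) (l : ℕ) : ℝ :=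
  sn l w + d + (20 * ((k : ℝ) - l) + 24) * φ

variable {S : PCl m} {c : ℕ → Fin m} {k : ℕ} {sn sp : ℕ → ℝ → ℝ} {G : Set ℝ}
  {al be h b o w u Λ φ e : ℝ} {lam : ℝ → ℝ}

/-- **The near digits** of the pair, given the near path and the record of their window. -/
theorem XBox.nearQ (X : XBox S c k sn sp G al be h b o w u Λ φ e lam) (hΛ : 1 ≤ Λ)
    (hφ : 10 * φ ≤ u) {s₁ s₂ Cr η d v : ℝ} {vq yq : ℚ} (hCr : 100 * ((k : ℝ) + 3) ^ 2 ≤ Cr)
    (W : XWn k sn G (be / al) be w o s₁ s₂ φ Cr η lam v vq yq) (hs1 : 0 ≤ s₁)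
    (hsd : s₁ + 2 * (Cr * φ) ≤ d) (hd : d + Cr * φ ≤ Λ * u) :
    Few S (fun J F => ptr F J) (vg v) (fun _ F => F.W)
      (qJets m c 0 k 0 (fun _ _ => b) (fun l _ => sn l b - φ) (fun l _ => nfx k sn w d φ l))
      (qTg m c k (1 + 1) w (prx k sn w φ) (P1x k sn w (be / al) s₁ Cr φ)) := by
  have hu := X.u0
  have hb1 := X.be1
  have hba := X.bal
  have hφ0 := X.lad.φ0
  have hal : 0 < al := by linarith
  have hr1 : be / al ≤ 1 := (div_le_one hal).2 hba
  have hr0 : 0 ≤ be / al := by positivity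
  have hbw := X.bw
  have hwo := X.wo
  have ho1 := X.o1
  have hk0 : (0 : ℝ) ≤ k := Nat.cast_nonneg k
  have hΛu : u ≤ Λ * u := le_mul_of_one_le_left hu.le hΛ
  have hlev := X.lev hΛ hφ
  have Lb := X.lad.toLadR.lad
  obtain ⟨r, hr'⟩ : ∃ r, r = be / al := ⟨_, rfl⟩
  rw [← hr'] at hr1 hr0 W ⊢
  have hCk : 100 * (k * φ) + 900 * φ ≤ Cr * φ := by
    have : 100 * (k * φ) + 900 * φ = (100 * (k : ℝ) + 900) * φ := by ring
    rw [this]
    refine mul_le_mul_of_nonneg_right (le_trans ?_ hCr) hφ0.le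
    nlinarith
  have hkφ : 0 ≤ (k : ℝ) * φ := by positivity
  have e2 : (Cr + 4) * φ = Cr * φ + 4 * φ := by ring
  have e6 : (Cr + 5) * φ = Cr * φ + 5 * φ := by ring
  have hrs1 : 0 ≤ r * s₁ := mul_nonneg hr0 hs1
  have hrs2 : r * s₁ ≤ s₁ := by
    have : r * s₁ ≤ 1 * s₁ := mul_le_mul_of_nonneg_right hr1 hs1
    linarith
  have hbw' : b ≤ w := by linarith
  obtain ⟨w1, w2, w3, w4, w5, w6, w7, w8, w9, w10, w11, w12, w13, w14, w15⟩ := W
  rw [e6] at w4
  have hv1 : v ≤ 1 := by linarith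
  have hid : ∀ (J : ℕ) (F : Fam m J), ∃ χ : PtT F → PtT F, ∀ ω, ptr F J ω = χ (ptr F J ω) :=
    fun J F => ⟨fun x => x, fun _ => rfl⟩
  have hnf : ∀ l < k, sn l w + d + 44 * φ ≤ nfx k sn w d φ l ∧
      nfx k sn w d φ l ≤ sn l w + d + (20 * (k * φ) + 24 * φ) := fun l hl => by
    have h1 : (l : ℝ) + 1 ≤ k := by exact_mod_cast hl
    have h2 := mul_le_mul_of_nonneg_right h1 hφ0.le
    have h3 : 0 ≤ (l : ℝ) * φ := by positivity
    unfold nfx
    constructor <;> linarith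
  have hst : Nst k sn w φ (nfx k sn w d φ) := by
    refine ⟨fun i hi => ?_, fun i hi => ?_, fun i hi l hl => ?_⟩
    · have := (hnf i hi).1
      linarith
    · have := (hnf i hi).2
      linarith
    · have h1 : (l : ℝ) + 1 ≤ i := by exact_mod_cast hl
      have h2 := mul_le_mul_of_nonneg_right h1 hφ0.le
      unfold nfx
      linarith
  have hlo : ∀ i < k, sn i v + 20 * φ ≤ nfx k sn w d φ i := fun i hi => by
    have h1 := (abs_le.1 (Lb.flat hi w1 X.wG (hbw'.trans w2) w3 hbw' (w2.trans w3))).2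
    have := (hnf i hi).1
    linarith
  have hP : ∀ t ≤ 1, P1x k sn w r s₁ Cr φ t + 60 * φ ≤ sn (k + t) v ∧
      P1x k sn w r s₁ Cr φ t ≤ sn (k + t) w + s₁ := fun t ht => by
    rcases Nat.lt_or_ge t 1 with h1 | h1
    · obtain rfl : t = 0 := by omega
      show (if 0 = 0 then sn k w + s₁ else _) + 60 * φ ≤ sn k v ∧
        (if 0 = 0 then sn k w + s₁ else _) ≤ sn k w + s₁
      rw [if_pos rfl]
      constructor <;> linarith
    · obtain rfl : t = 1 := by omega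
      unfold P1x
      rw [if_neg one_ne_zero, e2]
      constructor <;> linarith
  refine few_pi X.lad.pos fun t => ?_
  have ht : (t : ℕ) ≤ 1 := by omega
  obtain ⟨p1, p2⟩ := hP t ht
  have ht1 : ((t : ℕ) : ℝ) ≤ 1 := by exact_mod_cast ht
  have ht2 : 20 * (((t : ℕ) : ℝ) + 1) * φ ≤ 40 * φ := by
    have := mul_le_mul_of_nonneg_right ht1 hφ0.le
    linarith
  exact t_nupr (X.lad.tk ht).toLadR hid kn_W X.wG w1 hbw' w2 w3 le_rfl hv1 (fun i _ => le_rfl)
    (le_refl (prx k sn w φ t)) hst hlo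
    (fun v' hv' h3 h4 => by
      have h5 := X.lad.le (k + t) (Nat.le_add_right k t) (by omega) v' hv' v w1 (hbw'.trans h3) h4
        w3
      linarith) (by linarith) (fun i hi => by linarith [(hnf i hi).1])

/-- **The far digits** of the pair, given the record of a late window. -/
theorem XBox.farQ (X : XBox S c k sn sp G al be h b o w u Λ φ e lam) (hΛ : 1 ≤ Λ)
    (hφ : 10 * φ ≤ u) {s₁ s₂ Cr η v x x' : ℝ} {vq yq : ℚ} (hCr : 100 * ((k : ℝ) + 3) ^ 2 ≤ Cr)
    (W : XWn k sn G (be / al) be w o s₁ s₂ φ Cr η lam v vq yq) (hs1 : 0 ≤ s₂) (hx : x ∈ G)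
    (hwx : w ≤ x) (hx' : x' ∈ G) (hxx : x + Cr * φ ≤ x') (hxo : x' ≤ o)
    (h0 : ∀ t ≤ 1, P2x k sn w s₂ lam yq t + Cr * φ ≤ sn (k + t) x)
    (hsx : s₂ + Cr * φ ≤ x' - w) (hη : 0 ≤ η) (hC : Cr * φ ≤ Λ * u) :
    Few0 S (fun J F => ptr F J) (vg x') (fun _ F => F.W)
      (qTg m c k (1 + 1) w (prx k sn w φ) (P2x k sn w s₂ lam yq)) := by
  have hu := X.u0
  have hb1 := X.be1
  have hba := X.bal
  have hφ0 := X.lad.φ0
  have hal : 0 < al := by linarith
  have hr1 : be / al ≤ 1 := (div_le_one hal).2 hba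
  have hr0 : 0 ≤ be / al := by positivity
  have hbw := X.bw
  have hwo := X.wo
  have ho1 := X.o1
  have hk0 : (0 : ℝ) ≤ k := Nat.cast_nonneg k
  have hΛu : u ≤ Λ * u := le_mul_of_one_le_left hu.le hΛ
  have hC' : 60 * (k * φ) + 140 * φ ≤ Cr * φ := by
    have : 60 * (k * φ) + 140 * φ = (60 * (k : ℝ) + 140) * φ := by ring
    rw [this]
    refine mul_le_mul_of_nonneg_right (le_trans ?_ hCr) hφ0.le
    nlinarith
  have hkφ : 0 ≤ (k : ℝ) * φ := by positivity
  have hbw' : b ≤ w := by linarith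
  have w15' := abs_le.1 W.lyq
  have hrs : be / al * s₂ ≤ s₂ := by
    have : be / al * s₂ ≤ 1 * s₂ := mul_le_mul_of_nonneg_right hr1 hs1
    linarith
  have hx1 : x' ≤ 1 := by linarith
  have hid : ∀ (J : ℕ) (F : Fam m J), ∃ χ : PtT F → PtT F, ∀ ω, ptr F J ω = χ (ptr F J ω) :=
    fun J F => ⟨fun x => x, fun _ => rfl⟩
  refine few_tQt X.lad.pos (few_pi X.lad.pos fun t => Few0.few X.lad.pos ?_)
  have ht : (t : ℕ) ≤ 1 := by omega
  have ht1 : ((t : ℕ) : ℝ) ≤ 1 := by exact_mod_cast ht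
  have ht2 : 60 * ((k : ℝ) + (t : ℕ) + 1) * φ ≤ 60 * (k * φ) + 120 * φ := by
    have := mul_le_mul_of_nonneg_right ht1 hφ0.le
    linarith
  have p1 := h0 t ht
  have p2 : P2x k sn w s₂ lam yq t ≤ sn (k + t) w + s₂ + 2 * φ := by
    rcases Nat.lt_or_ge (t : ℕ) 1 with h1 | h1
    · have h2 : (t : ℕ) = 0 := by omega
      rw [h2]
      show (if 0 = 0 then sn k w + s₂ else _) ≤ sn k w + s₂ + 2 * φ
      rw [if_pos rfl]
      linarith
    · have h2 : (t : ℕ) = 1 := by omega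
      rw [h2]
      unfold P2x
      rw [if_neg one_ne_zero]
      linarith
  exact t_nu0r (X.lad.tk ht).toLadR hid kn_W X.wG hx hx' hbw' hwx (by linarith) hxo le_rfl hx1
    (by linarith) (le_refl (prx k sn w φ t))
    (fun v' hv' h3 h4 => by
      have h5 := X.lad.le (k + t) (Nat.le_add_right k t) (by omega) v' hv' x hx (hbw'.trans h3) h4
        (by linarith)
      linarith) (by linarith)

end Pool.XR71
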