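import Pool.Agent.H71.XR.Xg

/-!
# No look-ahead, the mutual information

`nl_cls`: the mutual information of the record of the window of the near digits and of the far digits
of the pair, given the near digits and the far path, on one event.
-/

set_option autoImplicit false

namespace Pool.XR71

open Finset Real MvPolynomial
open Pool.Agent.H49.Ent Pool.Agent.H32.Dense
open Pool.STK hiding pr2
open Pool.KA Pool.KSAT Pool.K2S Pool.PB Pool.S6C
open Pool.GEN Pool.CHT Pool.CHX Pool.ISO Pool.LA91 Pool.AVG71 Pool.AVG5 Pool.D2F2 Pool.AVG57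
open Pool.RCD Pool.AVG96 Pool.OWN68 Pool.V0F Pool.VA83 Pool.V0S Pool.ALT Pool.V0T
open Pool.AJW (CfB)
open Pool.UNJ (ceI)
open Pool.KVA (MI)
open Pool.GRD (LbP)
open Pool.VG83 (Hif ld_if jh_if vv_if jv_if cl_cR)
open Pool.VT83 (NlqI VB vlaw_gen)
open Pool.V0R (t_nu0r t_nupr)

/-- **No look-ahead, on one event.** `Q`: the constant of the errors. -/
theorem nl_cls (k : ℕ) : ∃ Q : ℝ, 400 * ((k : ℝ) + 3) ^ 2 ≤ Q ∧
    ∀ {m : ℕ} {S : PCl m} {c : ℕ → Fin m} {sn sp : ℕ → ℝ → ℝ} {G : Set ℝ}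
      {al be h b o w u Λ φ e : ℝ} {lam : ℝ → ℝ}, XBox S c k sn sp G al be h b o w u Λ φ e lam →
    1 ≤ Λ → 0 ≤ e → 100 * (Q * φ) ≤ u → Q * φ * al ≤ u → ∀ {s₁ s₂ d v : ℝ} {vq yq w₁ : ℚ},
    XWn k sn G (be / al) be w o s₁ s₂ φ (100 * ((k : ℝ) + 3) ^ 2) (Q * φ) lam v vq yq →
    0 ≤ s₁ → u ≤ s₂ → s₁ ≤ s₂ → s₂ + u / 2 ≤ d → d + u ≤ Λ * u →
    be / al * s₁ + 2 * (Q * φ) ≤ be / al * s₂ → w ≤ w₁ → (w₁ : ℝ) ≤ v →
    ∀ {P : ℕ → ℚ}, (∀ i < k, sn i w - w + u ≤ P i ∧ (P i : ℝ) ≤ sn i w - w + Λ * u) →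
    (∀ l i, l < i → i < k → (P i : ℝ) - (sn i w - w) + u / 2 ≤ P l - (sn l w - w)) →
    ∀ {ε : ℝ}, 0 < ε → ∀ (D K₀ : ℕ) (E : ℝ), Bas S (fun J F A =>
      ∀ {q : ℕ} {e₀ ρ₀ : ℝ} {Hb Hw H₀ H : LnT F → ℕ → MvPolynomial (Option (Fin m)) ℝ}
        {Hn : LnT F → MvPolynomial (Option (Fin m)) ℝ} {γ : ℕ → ℕ} {TV : F.Ω → ℝ},
      XEv F c k D q sn b w φ E K₀ e₀ ρ₀ A Hb Hw H₀ H Hn γ TV →
      ∀ Pe' : ℕ → ℝ, (∀ l < k, Pe' l ≤ P l) →
      MI (Pool.Agent.H49.Ent.cond F.p A True) (cR F A v)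
        (fun ω => ((jh F c k ⌊w * J⌋₊ H (nfx k sn w d φ) ω,
          jv F c k ⌊w * J⌋₊ H (fun l => (P l : ℝ)) ω),
          uv2 F c k w (Hif k H Hw) Hn (P2x k sn w s₂ lam yq) ω))
        (fun ω => (((jh F c k ⌊w * J⌋₊ H (nfx k sn w d φ) ω, jv F c k ⌊w * J⌋₊ H Pe' ω),
          uv2 F c k w (Hif k H Hw) Hn
            (P1x k sn w (be / al) s₁ (100 * ((k : ℝ) + 3) ^ 2) φ) ω),
          (cR F A w₁ ω, F.W ω))) ≤ 65 * ((18 * (Q * φ) + 2 * (e * u) + ε) * J)) := by
  obtain ⟨Cn, hCn, HN⟩ := nlqv k 1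
  have hk0 : (0 : ℝ) ≤ k := Nat.cast_nonneg k
  obtain ⟨Cr, hCr⟩ : ∃ Cr : ℝ, Cr = 100 * ((k : ℝ) + 3) ^ 2 := ⟨_, rfl⟩
  have hCr0 : 900 ≤ Cr := by rw [hCr]; nlinarith
  have hQC : 4 * Cr ≤ 4 * Cr * Cn := le_mul_of_one_le_right (by positivity) hCn
  refine ⟨4 * Cr * Cn, by rw [hCr] at hQC ⊢; linarith, ?_⟩
  rw [← hCr]
  intro m S c sn sp G al be h b o w u Λ φ e lam X hΛ he0 hQ1 hQal s₁ s₂ d v vq yq w₁ W hs10 hs2 hs12
    hsd hdΛ hr hw hwv P hP hPn ε hε D K₀ E
  obtain ⟨Q, hQ⟩ : ∃ Q : ℝ, Q = 4 * Cr * Cn := ⟨_, rfl⟩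
  rw [← hQ] at hQ1 hQal W hr ⊢
  rw [← hQ] at hQC
  have hQ0 : 0 < Q := by linarith
  have hu := X.u0
  have hb1 := X.be1
  have hba := X.bal
  have hφ0 := X.lad.φ0
  have hal : 0 < al := by linarith
  have hr1 : be / al ≤ 1 := (div_le_one hal).2 hba
  have hr0 : 0 ≤ be / al := by positivity
  have hbw := X.bw
  have hwo := X.wo
  have ho1 := X.o1
  have hΛu : u ≤ Λ * u := le_mul_of_one_le_left hu.le hΛ
  have hkφ : 0 ≤ (k : ℝ) * φ := by positivity
  have hQφ : 4 * (Cr * φ) ≤ Q * φ := by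
    have := mul_le_mul_of_nonneg_right hQC hφ0.le
    linarith
  have hCk : 100 * (k * φ) + 900 * φ ≤ Cr * φ := by
    have : 100 * (k * φ) + 900 * φ = (100 * (k : ℝ) + 900) * φ := by ring
    rw [this, hCr]
    refine mul_le_mul_of_nonneg_right ?_ hφ0.le
    nlinarith
  have hφ : 10 * φ ≤ u := by linarith
  have hlev := X.lev hΛ hφ
  have Lb := X.lad.toLadR.lad
  have hbw' : b ≤ w := by linarith
  have hwo' : w ≤ o := by linarith
  have hs20 : 0 ≤ s₂ := by linarith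
  have hrs1 : 0 ≤ be / al * s₁ := mul_nonneg hr0 hs10
  have hrs2 : be / al * s₂ ≤ s₂ := by
    have : be / al * s₂ ≤ 1 * s₂ := mul_le_mul_of_nonneg_right hr1 hs20
    linarith
  have Wc := W
  obtain ⟨w1, w2, w3, w4, w5, w6, w7, w8, w9, w10, w11, w12, w13, w14, w15⟩ := W
  have w15' := abs_le.1 w15
  have e2 : (Cr + 4) * φ = Cr * φ + 4 * φ := by ring
  have e6 : (Cr + 5) * φ = Cr * φ + 5 * φ := by ring
  have e8 : (Cr + 8) * φ = Cr * φ + 8 * φ := by ring
  have e9 : (Cr + 9) * φ = Cr * φ + 9 * φ := by ring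
  rw [e6] at w4
  rw [e8] at w6
  rw [e9] at w10
  -- the window of the far digits
  obtain ⟨x, hx, x1, x2, x3, x3', x4, x5, x6⟩ := X.win hΛ hφ (s := s₂ + Q * φ + 5 * φ)
    (by linarith) (by linarith)
  have x4' := abs_le.1 x4
  have x5' := abs_le.1 x5
  have x7 : be / al * s₂ ≤ be / al * (s₂ + Q * φ + 5 * φ) :=
    mul_le_mul_of_nonneg_left (by linarith) hr0
  have hvx : v ≤ x := by
    have l0 := abs_le.1 (X.lin0 v w1 (by linarith) w3)
    have : al * (v - w) ≤ al * (x - w) := by linarith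
    have := le_of_mul_le_mul_left this hal
    linarith
  have hwx : w + Q * φ ≤ x := by
    have : Q * φ * al ≤ (x - w) * al := by linarith
    have := le_of_mul_le_mul_right this hal
    linarith
  -- the late window
  obtain ⟨x', hx', x8⟩ := X.lad.toLadR.gap (w + d) (by linarith) (by linarith)
  have x8' := abs_le.1 x8
  have hvxo : v ≤ x' := by linarith
  have hxo : x' ≤ o := by linarith
  have hbx' : b ≤ x' := by linarith
  have hxx' : x + Cr * φ ≤ x' := by linarith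
  obtain ⟨lk1, lk2, lk3⟩ := hlev k (by omega)
  obtain ⟨ln1, ln2, ln3⟩ := hlev (k + 1) le_rfl
  -- the digits
  have p10 : P1x k sn w (be / al) s₁ Cr φ 0 = sn k w + s₁ := if_pos rfl
  have p11 : P1x k sn w (be / al) s₁ Cr φ 1 = sn (k + 1) w + be / al * s₁ - (Cr + 4) * φ :=
    if_neg one_ne_zero
  have p20 : P2x k sn w s₂ lam yq 0 = sn k w + s₂ := if_pos rfl
  have p21 : P2x k sn w s₂ lam yq 1 = lam yq := if_neg one_ne_zero
  have c1 := X.nearQ hΛ hφ (hCr.ge) Wc hs10 (d := d) (by linarith) (by linarith)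
  have hM2x : ∀ t ≤ 1, P2x k sn w s₂ lam yq t + Q * φ ≤ sn (k + t) x := fun t ht => by
    rcases Nat.lt_or_ge t 1 with h1 | h1
    · obtain rfl : t = 0 := by omega
      rw [p20]
      show sn k w + s₂ + Q * φ ≤ sn k x
      linarith
    · obtain rfl : t = 1 := by omega
      rw [p21]
      linarith
  have c2 := X.farQ hΛ hφ (hCr.ge) Wc hs20 hx x1 hx' hxx' hxo (fun t ht => by
      have := hM2x t ht
      linarith) (by linarith) (by positivity) (by linarith)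
  -- no look-ahead
  have hC4 : Cn * (4 * Cr * φ) = Q * φ := by rw [hQ]; ring
  have hC8 : 2 * Cn * (4 * Cr * φ) = 2 * (Q * φ) := by rw [← hC4]; ring
  have hφ4 : φ ≤ 4 * Cr * φ := by
    have : 1 * φ ≤ 4 * Cr * φ := mul_le_mul_of_nonneg_right (by linarith) hφ0.le
    linarith
  obtain ⟨rk, E₁, hrk, hE₁, hatt, hE2⟩ := X.att
  have hfx : ∀ l < k, |(sn l x - x) - (sn l w - w)| ≤ 2 * φ := fun l hl =>
    Lb.flat hl hx X.wG (by linarith) (by linarith) hbw' hwo'
  have hfv : ∀ l < k, |(sn l v - v) - (sn l w - w)| ≤ 2 * φ := fun l hl =>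
    Lb.flat hl w1 X.wG (by linarith) (by linarith) hbw' hwo'
  have hfx' : ∀ l < k, |(sn l x' - x') - (sn l w - w)| ≤ 2 * φ := fun l hl =>
    Lb.flat hl hx' X.wG hbx' hxo hbw' hwo'
  have hfb : ∀ l < k, |(sn l b - b) - (sn l w - w)| ≤ 2 * φ := fun l hl =>
    Lb.flat hl Lb.bG X.wG le_rfl Lb.bo hbw' hwo'
  have hnlq := HN (ladv_mono X.lad hφ4) X.img (w := w) (w₁ := w₁) (vq := vq) (j := v) (x₄ := x)
    (pr := prx k sn w φ) (M₁ := P1x k sn w (be / al) s₁ Cr φ) (M₂ := P2x k sn w s₂ lam yq)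
    (Λ₁ := lam vq) (E₁ := E₁) (κn := e * u) X.wG w1 hx hbw' hw hwv w8
    (by
      have : (vq : ℝ) ≤ yq := by exact_mod_cast w11
      linarith) hvx (by linarith) (by rw [hC4]; linarith) (by rw [hC4]; exact hwx)
    (fun t _ => by
      show sn (k + t) w - 4 * Cr * φ ≤ sn (k + t) w - φ
      linarith)
    (fun t ht => by
      rw [hC4]
      refine ⟨?_, ?_, hM2x t ht, ?_⟩ <;> rcases Nat.lt_or_ge t 1 with h1 | h1
      · obtain rfl : t = 0 := by omega
        rw [p10]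
        linarith
      · obtain rfl : t = 1 := by omega
        rw [p11, e2]
        linarith
      · obtain rfl : t = 0 := by omega
        rw [p10, p20]
        linarith
      · obtain rfl : t = 1 := by omega
        rw [p11, p21, e2]
        linarith
      · obtain rfl : t = 0 := by omega
        rw [p20]
        show sn k w + s₂ + Q * φ ≤ sn k w + (1 - w)
        linarith
      · obtain rfl : t = 1 := by omega
        rw [p21]
        linarith)
    (by
      rw [hC4, p11, e2]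
      linarith)
    (fun t ht => by
      obtain rfl : t = 0 := by omega
      rw [hC4, hC8, p10, p20]
      show sn k v ≤ sn k w + s₁ + Q * φ ∧ sn k x ≤ sn k w + s₂ + 2 * (Q * φ) ∧
        sn k w + s₂ + Q * φ ≤ 1
      exact ⟨by linarith, by linarith, by linarith⟩)
    (fun t ht l hl => by
      rw [hC4]
      have a1 := hlev l (by omega)
      rcases Nat.lt_or_ge t 1 with h1 | h1
      · obtain rfl : t = 0 := by omega
        rw [p20]
        show sn k w + s₂ + Q * φ ≤ sn k w + (1 - sn l w)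
        linarith
      · obtain rfl : t = 1 := by omega
        rw [p21]
        linarith)
    (fun l hl => by
      rw [hC4]
      have a1 := hlev l (by omega)
      have a2 := abs_le.1 (hfx l hl)
      linarith)
    (fun l hl l' hl' => by
      rw [hC4]
      have a1 := hlev l' (by omega)
      have a2 := abs_le.1 (hfx l hl)
      have a3 := abs_le.1 (hfb l hl)
      have a4 := abs_le.1 (hfb l' (by omega))
      linarith)
    ⟨rk, hrk, hE₁, hatt, by
      rw [p21]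
      linarith⟩
    (by
      rw [p21]
      exact X.nla w₁ vq yq hw (by
        have : (w₁ : ℝ) ≤ vq := hwv.trans w8
        exact_mod_cast this) w11 (by linarith))
    (by positivity) (e * u + 16 * (Q * φ)) (by
      have : 8 * (((1 : ℕ) : ℝ) + 1) * Cn * (4 * Cr * φ) = 16 * (Q * φ) := by
        rw [← hC4]
        push_cast
        ring
      rw [this])
  -- the free velocities
  have hfr := X.free (fun i : Fin k => P i) w₁ x' hw hx' (by linarith) (by linarith)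
    (fun i => hP i i.2) (fun l i hl => hPn l i hl i.2)
  -- the numbers of the base
  have hnf : ∀ l < k, sn l w + d + 44 * φ ≤ nfx k sn w d φ l ∧
      nfx k sn w d φ l ≤ sn l w + d + (20 * (k * φ) + 24 * φ) := fun l hl => by
    have h1 : (l : ℝ) + 1 ≤ k := by exact_mod_cast hl
    have h2 := mul_le_mul_of_nonneg_right h1 hφ0.le
    have h3 : 0 ≤ (l : ℝ) * φ := by positivity
    unfold nfx
    constructor <;> linarith
  have hΔ : (k : ℝ) * ((20 * (k : ℝ) + 30) * φ) + 20 * (k : ℝ) ^ 2 * φ ≤ Q * φ := by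
    have e1 : (k : ℝ) * ((20 * (k : ℝ) + 30) * φ) + 20 * (k : ℝ) ^ 2 * φ =
        (40 * (k : ℝ) ^ 2 + 30 * k) * φ := by ring
    rw [e1]
    have e3 : (40 * (k : ℝ) ^ 2 + 30 * k) * φ ≤ 4 * Cr * φ :=
      mul_le_mul_of_nonneg_right (by rw [hCr]; nlinarith) hφ0.le
    linarith
  have V : VB k sn G b o φ (fun l => sn l b - φ) (nfx k sn w d φ) (nfx k sn w d φ) w₁ v v x'
      ((20 * (k : ℝ) + 30) * φ) := {
    jG := w1
    xG := w1
    xG' := hx'
    bw := by linarith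
    wj := hwv
    wx := hwv
    jx := hvxo
    xx := hvxo
    xo := hxo
    x1 := by
      have : 60 * ((k : ℝ) + 1) * φ = 60 * (k * φ) + 60 * φ := by ring
      rw [this]
      linarith
    bx := by linarith
    hp := fun i _ => le_rfl
    nj := fun i hi => by
      have a2 := abs_le.1 (hfv i hi)
      linarith [(hnf i hi).1]
    nx := fun i hi => by
      have a2 := abs_le.1 (hfv i hi)
      linarith [(hnf i hi).1]
    nnf := fun i _ => le_rfl
    nf0 := fun i hi => by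
      have a2 := abs_le.1 (hfx' i hi)
      linarith [(hnf i hi).1]
    nfΔ := fun i hi => by
      have a2 := abs_le.1 (hfx' i hi)
      have : (20 * (k : ℝ) + 30) * φ = 20 * (k * φ) + 30 * φ := by ring
      rw [this]
      linarith [(hnf i hi).2]
    nf1 := fun i hi => by
      have a1 := hlev i (by omega)
      linarith [(hnf i hi).2]
    tp := ⟨fun i hi => by
      have a2 := abs_le.1 (hfb i hi)
      have a3 := (hnf i hi).2
      have : 20 * ((k : ℝ) + 1) * φ = 20 * (k * φ) + 20 * φ := by ring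
      rw [this]
      linarith, fun i hi l hl => by
      have a1 := hlev l (by omega)
      have a2 := abs_le.1 (hfb i hi)
      have a2' := abs_le.1 (hfb l (hl.trans hi))
      have a3 := (hnf i hi).2
      have : 20 * ((k : ℝ) + 1) * φ = 20 * (k * φ) + 20 * φ := by ring
      rw [this]
      linarith⟩ }
  obtain ⟨ka, hka, ea, hea, Ha⟩ := vlaw_gen Lb V c1 c2 hfr hnlq (by positivity) (by positivity)
    (ε / 2) (by positivity)
  have hw0 : 0 ≤ w := by linarith [X.lad.b0]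
  have hw1 : w ≤ 1 := by linarith
  obtain ⟨Ma, Ja, hMa⟩ := ld_jh m D k (nfx k sn w d φ) (b := b) (E := E) X.lad.b0 (by linarith)
  obtain ⟨Md, Jd, hMd⟩ := ld_jv m D k (fun l => (P l : ℝ)) (b := b) (E := E) X.lad.b0
    (by linarith)
  obtain ⟨Mb, Jb, hMb⟩ := qtg_ev m D k K₀ (P1x k sn w (be / al) s₁ Cr φ) (w := w) (E := E) hw0 hw1
  obtain ⟨Mc, Jc, hMc⟩ := qtg_ev m D k K₀ (P2x k sn w s₂ lam yq) (w := w) (E := E) hw0 hw1
  obtain ⟨M, hM⟩ : ∃ M : ℕ, M = Ma + Mb + Mc + Md := ⟨_, rfl⟩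
  obtain ⟨J₁, hJ₁⟩ := exists_nat_gt (k * Real.log 5 / (ε / 2))
  refine Bas.mono (Ja + Jb + Jc + Jd + J₁) ((Ha M).and (pos_bas X.lad.pos)) ?_
  rintro J hJ F A ⟨H1, hA⟩ q e₀ ρ₀ Hb Hw H₀ H Hn γ TV XE Pe' hPe
  have hcl := isLaw_cond F.isLaw hA
  have h0 := hcl.nonneg
  have hJ0 : (0 : ℝ) ≤ J := Nat.cast_nonneg J
  have hl5 : 0 < Real.log 5 := Real.log_pos (by norm_num)
  have hlog : k * Real.log 5 ≤ ε / 2 * J := by
    have e1 : (J₁ : ℝ) ≤ J := by
      have : J₁ ≤ J := by omega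
      exact_mod_cast this
    have e2 := hJ₁.le.trans e1
    rw [div_le_iff₀ (by positivity)] at e2
    linarith
  have LD' := ld_if le_rfl XE.ld XE.hH
  have q1 := hMa M (by omega) J (by omega) LD' ea hea.le
  have q2 := hMd M (by omega) J (by omega) LD' X.spb ea hea.le
  rw [jh_if] at q1
  rw [jv_if] at q2
  have q3 := hMb M (by omega) J (by omega) XE ea hea.le
  have q4 := hMc M (by omega) J (by omega) XE ea hea.le
  obtain ⟨κ, hκ⟩ : ∃ κ : ℝ, κ = (18 * (Q * φ) + 2 * (e * u) + ε) * J := ⟨_, rfl⟩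
  have hκ1 : (k * ((20 * (k : ℝ) + 30) * φ) + 20 * (k : ℝ) ^ 2 * φ + e * u +
      (e * u + 16 * (Q * φ)) + ε / 2) * J + k * Real.log 5 ≤ κ := by
    have a1 : (k * ((20 * (k : ℝ) + 30) * φ) + 20 * (k : ℝ) ^ 2 * φ + e * u +
      (e * u + 16 * (Q * φ)) + ε / 2) * J ≤ (17 * (Q * φ) + 2 * (e * u) + ε / 2) * J :=
      mul_le_mul_of_nonneg_right (by linarith) hJ0
    have a2 : (17 * (Q * φ) + 2 * (e * u) + ε / 2) * J + ε / 2 * J ≤
        (18 * (Q * φ) + 2 * (e * u) + ε) * J := by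
      have a3 : (17 * (Q * φ) + 2 * (e * u) + ε / 2) * J + ε / 2 * J =
        (17 * (Q * φ) + 2 * (e * u) + ε) * J := by ring
      rw [a3]
      exact mul_le_mul_of_nonneg_right (by
        have : 0 ≤ Q * φ := by positivity
        linarith) hJ0
    rw [hκ]
    linarith
  have hκ2 : k * Real.log 5 ≤ κ := by
    refine le_trans ?_ hκ1
    have : 0 ≤ (k * ((20 * (k : ℝ) + 30) * φ) + 20 * (k : ℝ) ^ 2 * φ + e * u +
      (e * u + 16 * (Q * φ)) + ε / 2) * J := by positivity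
    linarith
  have hκ0 : 0 ≤ κ := le_trans (by positivity) hκ2
  have hZ1 : CH (Pool.Agent.H49.Ent.cond F.p A True) (jv F c k ⌊w * J⌋₊ H Pe')
      (jv F c k ⌊w * J⌋₊ H (fun l => (P l : ℝ))) ≤ k * Real.log 5 := by
    have := CH_jv hcl (F := F) (c := c) (r := k) (w := ⌊w * J⌋₊) (H := H)
      (n := fun l => (P l : ℝ)) (n' := Pe') (d := 0) (fun l hl => by
        have := hPe l hl
        exact mul_nonpos_of_nonpos_of_nonneg (by linarith) hJ0) le_rfl
      (jv F c k ⌊w * J⌋₊ H (fun l => (P l : ℝ))) (fun _ _ _ _ e => e)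
    rw [zero_mul, zero_add] at this
    exact this
  have hZ2 : CH (Pool.Agent.H49.Ent.cond F.p A True) (jh F c k ⌊w * J⌋₊ H (nfx k sn w d φ))
      (fun ω => (jh F c k ⌊w * J⌋₊ H (nfx k sn w d φ) ω, (cR F A w₁ ω, F.W ω))) = 0 :=
    CH_eq_zero h0 fun ω ν _ _ e => (Prod.ext_iff.mp e).1
  have hV := H1 _ (cR F A w₁) _ (cR F A v) _ (cR F A v) _ (cR F A x') (mx_cR hA w₁ hka.le)
    (mx_cR hA v hka.le) (mx_cR hA v hka.le) (mx_cR hA x' hka.le)
    (jh F c k ⌊w * J⌋₊ H (nfx k sn w d φ)) (jh F c k ⌊w * J⌋₊ H (nfx k sn w d φ))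
    (jv F c k ⌊w * J⌋₊ H (fun l => (P l : ℝ)))
    (uv2 F c k w (Hif k H Hw) Hn (P1x k sn w (be / al) s₁ Cr φ))
    (uv2 F c k w (Hif k H Hw) Hn (P2x k sn w s₂ lam yq)) q1 q1 q2 q3 q4 _
    (jv F c k ⌊w * J⌋₊ H Pe') κ (by
      have : 0 ≤ k * Real.log 5 := by positivity
      linarith) (hZ1.trans hκ2)
    (by
      rw [hZ2]
      simp only [sub_self, Finset.sum_const_zero, zero_mul, zero_add]
      exact hκ0) (by rw [hZ2]; exact hκ0)
  rw [← hκ]
  exact hV.mj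

end Pool.XR71
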