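import Pool.Agent.H71.XR.Xh

/-!
# No look-ahead over the side path

`xnl : XnlStmt`.
-/

set_option autoImplicit false

namespace Pool.XR71

open Finset Real MvPolynomial
open Pool.Agent.H49.Ent Pool.Agent.H32.Dense
open Pool.STK hiding pr2
open Pool.KA Pool.KSAT Pool.K2S Pool.PB Pool.S6C
open Pool.GEN Pool.CHT Pool.CHX Pool.ISO Pool.LA91 Pool.AVG71 Pool.AVG5 Pool.D2F2 Pool.AVG57
open Pool.RCD Pool.AVG96 Pool.OWN68 Pool.V0F Pool.VA83 Pool.V0S Pool.ALT Pool.V0T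
open Pool.AJW (CfB)
open Pool.UNJ (ceI)
open Pool.KVA (MI)
open Pool.GRD (LbP)
open Pool.VG83 (Hif ld_if jh_if vv_if jv_if cl_cR det_cR2)

/-- **Other conditions.** -/
theorem mi_cd {Ω : Type} [Fintype Ω] {p : Ω → ℝ} (h0 : ∀ ω, 0 ≤ p ω) {α β γ δ : Type} {R : Ω → α}
    {U : Ω → β} {W : Ω → γ} {W' : Ω → δ} {e₁ e₂ : ℝ} (h1 : CH p W W' ≤ e₁) (h2 : CH p W' W ≤ e₂) :
    MI p R U W' ≤ MI p R U W + (e₁ + e₂) := by
  rw [Pool.AVG71.MI_eq' h0, Pool.AVG71.MI_eq' h0]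
  have a1 := CH_le_add h0 U W W'
  have a2 : CH p U (fun ω => (W ω, W' ω)) ≤ CH p U W := CH_mono_cond h0 fun ω ω' _ _ e =>
    (Prod.ext_iff.mp e).1
  have a3 := CH_le_add h0 U W' (fun ω => (R ω, W ω))
  have a4 : CH p W' (fun ω => (R ω, W ω)) ≤ CH p W' W := CH_mono_cond h0 fun ω ω' _ _ e =>
    (Prod.ext_iff.mp e).2
  have a5 : CH p U (fun ω => (W' ω, (R ω, W ω))) ≤ CH p U (fun ω => (R ω, W' ω)) :=
    CH_mono_cond h0 fun ω ω' _ _ e => by
      simp only [Prod.mk.injEq] at e ⊢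
      tauto
  linarith

/-- The pair of the digits as a function. -/
theorem mi_fn {Ω : Type} [Fintype Ω] {p : Ω → ℝ} (h0 : ∀ ω, 0 ≤ p ω) {α β γ δ : Type} {R : Ω → α}
    {P' : Ω → β} {Pt : Ω → γ} {Z : Ω → δ} {N₁ N₂ : Ω → Fin (1 + 1) → ℤ} :
    MI p R (fun ω => (P' ω, (N₂ ω 0, N₂ ω 1))) (fun ω => ((Pt ω, (N₁ ω 0, N₁ ω 1)), Z ω)) ≤
      MI p R (fun ω => (P' ω, N₂ ω)) (fun ω => ((Pt ω, N₁ ω), Z ω)) := by
  rw [Pool.AVG71.MI_eq' h0, Pool.AVG71.MI_eq' h0]
  have hf : ∀ N N' : Fin (1 + 1) → ℤ, (N 0, N 1) = (N' 0, N' 1) → N = N' := fun N N' e => by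
    have e1 := Prod.ext_iff.mp e
    funext i
    fin_cases i
    · exact e1.1
    · exact e1.2
  have a1 : CH p (fun ω => (P' ω, (N₂ ω 0, N₂ ω 1)))
      (fun ω => ((Pt ω, (N₁ ω 0, N₁ ω 1)), Z ω)) =
      CH p (fun ω => (P' ω, N₂ ω)) (fun ω => ((Pt ω, N₁ ω), Z ω)) :=
    CH_congr h0 (fun ω ω' _ _ e => by
      have e1 := Prod.ext_iff.mp (Prod.ext_iff.mp e).1
      exact Prod.ext e1.1 (hf _ _ e1.2)) (fun ω ω' _ _ e => by
      have e1 := Prod.ext_iff.mp (Prod.ext_iff.mp e).1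
      exact Prod.ext e1.1 (Prod.ext (congrFun e1.2 0) (congrFun e1.2 1))) (fun ω ω' _ _ e => by
      have e1 := Prod.ext_iff.mp e
      have e2 := Prod.ext_iff.mp e1.1
      exact Prod.ext (Prod.ext e2.1 (hf _ _ e2.2)) e1.2) (fun ω ω' _ _ e => by
      have e1 := Prod.ext_iff.mp e
      have e2 := Prod.ext_iff.mp e1.1
      exact Prod.ext (Prod.ext e2.1 (Prod.ext (congrFun e2.2 0) (congrFun e2.2 1))) e1.2)
  have a2 : CH p (fun ω => (P' ω, (N₂ ω 0, N₂ ω 1)))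
      (fun ω => (R ω, ((Pt ω, (N₁ ω 0, N₁ ω 1)), Z ω))) =
      CH p (fun ω => (P' ω, N₂ ω)) (fun ω => (R ω, ((Pt ω, N₁ ω), Z ω))) :=
    CH_congr h0 (fun ω ω' _ _ e => by
      have e1 := Prod.ext_iff.mp (Prod.ext_iff.mp e).1
      exact Prod.ext e1.1 (hf _ _ e1.2)) (fun ω ω' _ _ e => by
      have e1 := Prod.ext_iff.mp (Prod.ext_iff.mp e).1
      exact Prod.ext e1.1 (Prod.ext (congrFun e1.2 0) (congrFun e1.2 1))) (fun ω ω' _ _ e => by
      have e0 := Prod.ext_iff.mp e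
      have e1 := Prod.ext_iff.mp e0.2
      have e2 := Prod.ext_iff.mp e1.1
      exact Prod.ext e0.1 (Prod.ext (Prod.ext e2.1 (hf _ _ e2.2)) e1.2)) (fun ω ω' _ _ e => by
      have e0 := Prod.ext_iff.mp e
      have e1 := Prod.ext_iff.mp e0.2
      have e2 := Prod.ext_iff.mp e1.1
      exact Prod.ext e0.1 (Prod.ext (Prod.ext e2.1 (Prod.ext (congrFun e2.2 0)
        (congrFun e2.2 1))) e1.2))
  rw [a1, a2]

/-- **No look-ahead over the side path.** -/
theorem xnl : XnlStmt := by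
  intro k al be h ξ T δ hξ hξ1 hT hδ hal
  by_cases hbe : 1 ≤ be ∧ be ≤ al
  swap
  · refine ⟨1, one_pos, ?_⟩
    intro m S c sn sp G b o w u Λ φ e lam X
    exact absurd ⟨X.be1, X.bal⟩ hbe
  obtain ⟨hb1, hba⟩ := hbe
  have hk0 : (0 : ℝ) ≤ k := Nat.cast_nonneg k
  obtain ⟨Q, hQ, HC⟩ := nl_cls k
  obtain ⟨r, hr⟩ : ∃ r, r = be / al := ⟨_, rfl⟩
  have hr0 : 0 < r := by rw [hr]; positivity
  have hr1 : r ≤ 1 := by rw [hr]; exact (div_le_one hal).2 hba
  obtain ⟨Cr, hCr⟩ : ∃ Cr : ℝ, Cr = 100 * ((k : ℝ) + 3) ^ 2 := ⟨_, rfl⟩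
  have hCr0 : 900 ≤ Cr := by rw [hCr]; nlinarith
  have hQC : 4 * Cr ≤ Q := by rw [hCr]; linarith
  rw [← hCr] at HC
  obtain ⟨M₀, hM₀⟩ : ∃ M₀ : ℝ, M₀ = 1187 * Q + 170 + 100 * (k : ℝ) := ⟨_, rfl⟩
  have hQ0 : 0 < Q := by linarith
  have hM0 : 0 < M₀ := by rw [hM₀]; positivity
  obtain ⟨φ₁, hφ₁, f1, f2, f3, f4, f5⟩ := small5 (a := Q * al) (b := 4 * Q + 10) (c := 1000 * Q)
    (d := M₀) (f := al) (A := r * ξ) (B := δ / 2) (by positivity) (by positivity) (by positivity)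
    hM0 hal (by positivity) (by positivity)
  refine ⟨φ₁, hφ₁, ?_⟩
  intro m S c sn sp G b o w u Λ φ e lam X hΛ y j w₁ K₀ e₀ ρ₀ hy0 hy hφ he0 he hw hwφ hwj hju D E
  have hu := X.u0
  have hφ0 := X.lad.φ0
  have hbw := X.bw
  have hwo := X.wo
  have ho1 := X.o1
  have hl2 : 0 < Real.log 2 := Real.log_pos one_lt_two
  have hl2' : Real.log 2 ≤ 1 := by
    have := Real.log_two_lt_d9
    linarith
  have hl5 : 0 < Real.log 5 := Real.log_pos (by norm_num)
  have hTu : u ≤ T * u := le_mul_of_one_le_left hu.le hT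
  have hku : 0 ≤ (k : ℝ) * u := by positivity
  have hΛu : 4 * (T * u) + 2 * (k * u) + 10 * u ≤ Λ * u := by
    have := mul_le_mul_of_nonneg_right hΛ hu.le
    linarith
  have hΛ1 : 1 ≤ Λ := by linarith
  -- small numbers
  have g1 : 1000 * (Q * (φ₁ * u)) ≤ u := by
    have := mul_le_mul_of_nonneg_right f3 hu.le
    linarith
  have g1' : 3600 * (φ₁ * u) ≤ Q * (φ₁ * u) := mul_le_mul_of_nonneg_right (by linarith)
    (by positivity)
  have g2' : Q * φ ≤ Q * (φ₁ * u) := mul_le_mul_of_nonneg_left hφ hQ0.le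
  have g2 : 1000 * (Q * φ) ≤ u := by linarith
  have g4 : 4 * (Q * φ) + 10 * φ ≤ r * (ξ * u) := by
    have a1 : φ * (4 * Q + 10) ≤ φ₁ * u * (4 * Q + 10) :=
      mul_le_mul_of_nonneg_right hφ (by positivity)
    have a2 := mul_le_mul_of_nonneg_right f2 hu.le
    linarith
  have g6 : 4 * (Cr * φ) ≤ Q * φ := by
    have := mul_le_mul_of_nonneg_right hQC hφ0.le
    linarith
  have g6' : 900 * φ ≤ Cr * φ := mul_le_mul_of_nonneg_right hCr0 hφ0.le
  have g7 : ξ * u ≤ u := by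
    have : ξ * u ≤ 1 * u := mul_le_mul_of_nonneg_right hξ1 hu.le
    linarith
  have g8 : Q * φ * al ≤ u := by
    have a1 : φ * (Q * al) ≤ φ₁ * u * (Q * al) := mul_le_mul_of_nonneg_right hφ (by positivity)
    have a2 := mul_le_mul_of_nonneg_right f1 hu.le
    linarith
  have g9 : φ * al ≤ u := by
    have a1 : φ * al ≤ φ₁ * u * al := mul_le_mul_of_nonneg_right hφ hal.le
    have a2 := mul_le_mul_of_nonneg_right f5 hu.le
    linarith
  have hξu : 0 < ξ * u := by positivity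
  -- the depths
  obtain ⟨s₁, hs₁⟩ : ∃ s₁ : ℝ, s₁ = u + 500 * y := ⟨_, rfl⟩
  obtain ⟨s₂, hs₂⟩ : ∃ s₂ : ℝ, s₂ = s₁ + ξ * u := ⟨_, rfl⟩
  have e1 : (2 * Cr + 10) * φ = 2 * (Cr * φ) + 10 * φ := by ring
  have e2 : (Cr + 10) * φ = Cr * φ + 10 * φ := by ring
  have e3 : r * s₂ = r * s₁ + r * (ξ * u) := by rw [hs₂]; ring
  have h10 : 10 * φ ≤ u := by linarith
  obtain ⟨v, vq, yq, W⟩ := X.wins hΛ1 h10 (s₁ := s₁) (s₂ := s₂) (Cr := Cr)
    (η := Q * φ) (by linarith) (by linarith) (by linarith) (by linarith) (by rw [e1]; linarith)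
    (by rw [← hr, e2, e3]; linarith)
  have hvG := W.vG
  have hwv := W.wv
  have hvo := W.vo
  have hv1 : v ≤ 1 := by linarith
  have hvs : u / al + w ≤ v ∧ (w₁ : ℝ) ≤ v := by
    have a1 := abs_le.1 (X.lin0 v hvG (by linarith) hvo)
    have a2 := W.al1
    have a3 : φ * al ≤ (v - w) * al := by linarith
    have a4 := le_of_mul_le_mul_right a3 hal
    have a5 : u ≤ (v - w) * al := by linarith
    have a6 := (div_le_iff₀ hal).2 a5
    exact ⟨by linarith, by linarith⟩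
  have hjv : j ≤ v := by linarith [hvs.1]
  have hwv1 := hvs.2
  -- the digits of the velocities
  have hPex : ∀ i : ℕ, ∃ P : ℚ, sn i w - w + (3 * T + k + 3 + (k - i)) * u < P ∧
      (P : ℝ) < sn i w - w + (3 * T + k + 3 + (k - i)) * u + u / 4 := fun i =>
    exists_rat_btwn (by linarith)
  choose P hPa hPb using hPex
  have hε : 0 < δ * u / 400 := by positivity
  have hTu3 : (3 * T * u : ℝ) = 3 * (T * u) := by ring
  have H₁ := HC X hΛ1 he0 (by linarith) g8 (d := 3 * T * u) W (by linarith) (by linarith) (by linarith)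
    (by rw [hTu3]; linarith) (by rw [hTu3]; linarith) (by rw [← hr, e3]; linarith) hw hwv1
    (P := P) (fun i hi => by
      have a1 := hPa i
      have a2 := hPb i
      have a3 : (i : ℝ) + 1 ≤ k := by exact_mod_cast hi
      have a4 := mul_le_mul_of_nonneg_right a3 hu.le
      have a5 : 0 ≤ (i : ℝ) * u := by positivity
      have a6 : (3 * T + k + 3 + (k - i)) * u = 3 * (T * u) + k * u + 3 * u + k * u - i * u := by
        ring
      rw [a6] at a1 a2
      constructor <;> linarith)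
    (fun l i hl hi => by
      have a1 := hPb i
      have a2 := hPa l
      have a3 : (l : ℝ) + 1 ≤ i := by exact_mod_cast hl
      have a4 := mul_le_mul_of_nonneg_right a3 hu.le
      have a6 : (3 * T + k + 3 + (k - i)) * u = 3 * (T * u) + k * u + 3 * u + k * u - i * u := by
        ring
      have a7 : (3 * T + k + 3 + (k - l)) * u = 3 * (T * u) + k * u + 3 * u + k * u - l * u := by
        ring
      rw [a6] at a1
      rw [a7] at a2
      linarith) hε D K₀ E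
  obtain ⟨Lg, hLg⟩ : ∃ Lg : ℝ, Lg = (2 * (k : ℝ) + 3) * (2 + 2 * Real.log 5) := ⟨_, rfl⟩
  obtain ⟨Jd, hJd⟩ := exists_nat_gt (10 * Lg / (δ * u / 6))
  refine Bas.mono Jd (H₁.and (pos_bas X.lad.pos)) ?_
  rintro J hJ F A ⟨H1, hA⟩ Hb Hw H₀ H Hn γ TV σ sd XE hsd1 hsd2 ne Pe' hnP
  have hcl := isLaw_cond F.isLaw hA
  have h0 := hcl.nonneg
  have hpA : ∀ ω, 0 < Pool.Agent.H49.Ent.cond F.p A True ω → A ω := fun ω hω => cond_pos hω
  have hJ0 : (0 : ℝ) ≤ J := Nat.cast_nonneg J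
  have hlog : 10 * Lg ≤ δ * u / 6 * J := by
    have a1 : (Jd : ℝ) ≤ J := by exact_mod_cast hJ
    have a2 := hJd.le.trans a1
    rw [div_le_iff₀ (by positivity)] at a2
    linarith
  -- the class theorem
  have key := H1 XE Pe' (fun l hl => by
    have a1 := (hnP l hl).2.2.2
    have a2 := hPa l
    have a3 : (l : ℝ) ≤ k := by exact_mod_cast hl.le
    have a4 := mul_le_mul_of_nonneg_right a3 hu.le
    have a5 : (3 * T + k + 3 + (k - l)) * u = (3 * T + k + 2) * u + u + (k * u - l * u) := by ring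
    rw [a5] at a2
    linarith)
  have key' := (mi_fn h0).trans key
  have hn2 : (fun ω => uv2 F c k w (Hif k H Hw) Hn (P2x k sn w s₂ lam yq) ω 1) =
      nh F (c (k + 1)) w (lam yq) Hn := by
    funext ω
    show (if ((1 : Fin (1 + 1)) : ℕ) = 0 then _ else _) = _
    rw [if_neg (by simp)]
    show nh F (c (k + 1)) w (P2x k sn w s₂ lam yq 1) Hn ω = _
    unfold P2x
    rw [if_neg one_ne_zero]
  have hn1 : (fun ω => uv2 F c k w (Hif k H Hw) Hn (P1x k sn w (be / al) s₁ Cr φ) ω 1) =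
      nh F (c (k + 1)) w (sn (k + 1) w + be / al * s₁ - (Cr + 4) * φ) Hn := by
    funext ω
    show (if ((1 : Fin (1 + 1)) : ℕ) = 0 then _ else _) = _
    rw [if_neg (by simp)]
    show nh F (c (k + 1)) w (P1x k sn w (be / al) s₁ Cr φ 1) Hn ω = _
    unfold P1x
    rw [if_neg one_ne_zero]
  have hu2 : (fun ω => uv2 F c k w (Hif k H Hw) Hn (P2x k sn w s₂ lam yq) ω 0) =
      th0 F c k ⌊w * J⌋₊ (Hif k H Hw) (sn k w + s₂) := by
    funext ω
    show (if ((0 : Fin (1 + 1)) : ℕ) = 0 then _ else _) = _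
    rw [if_pos (by simp)]
    unfold P2x
    rw [if_pos rfl]
  have hu1 : (fun ω => uv2 F c k w (Hif k H Hw) Hn (P1x k sn w (be / al) s₁ Cr φ) ω 0) =
      th0 F c k ⌊w * J⌋₊ (Hif k H Hw) (sn k w + s₁) := by
    funext ω
    show (if ((0 : Fin (1 + 1)) : ℕ) = 0 then _ else _) = _
    rw [if_pos (by simp)]
    unfold P1x
    rw [if_pos rfl]
  -- numbers
  have w15' := abs_le.1 W.lyq
  rw [← hr, e3] at w15'
  have e5 : (Cr + 4) * φ = Cr * φ + 4 * φ := by ring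
  have hLg1 : (2 * (k : ℝ) + 3) * (2 + 2 * Real.log 5) = 4 * k + 4 * (k * Real.log 5) + 6 +
      6 * Real.log 5 := by ring
  have hkl5 : 0 ≤ (k : ℝ) * Real.log 5 := by positivity
  obtain ⟨e', he'⟩ : ∃ e' : ℝ, e' = (φ₁ * u + (2 * Q + 4) * φ) * J + Lg := ⟨_, rfl⟩
  have he'1 : e' = φ₁ * u * J + 2 * (Q * φ * J) + 4 * (φ * J) + Lg := by rw [he']; ring
  have hφuJ : 0 ≤ φ₁ * u * J := by positivity
  have hQJ : 0 ≤ Q * φ * J := by positivity
  have hφJ : 0 ≤ φ * J := by positivity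
  have he'0 : ∀ t, t ≤ φ₁ * u * J + 2 * (Q * φ * J) + 4 * (φ * J) + (4 * k +
      4 * (k * Real.log 5) + 6 + 6 * Real.log 5) → t ≤ e' := fun t ht => by
    rw [he'1, hLg, hLg1]
    exact ht
  -- the levels in digits
  have hq1 : (⌊(u + 500 * y) * (J : ℝ)⌋₊ : ℝ) ≤ s₁ * J := by
    rw [← hs₁]
    exact Nat.floor_le (mul_nonneg (by linarith) hJ0)
  have hq2 : s₁ * J - 1 ≤ (⌊(u + 500 * y) * (J : ℝ)⌋₊ : ℝ) := by
    rw [← hs₁]
    linarith [Nat.lt_floor_add_one (s₁ * (J : ℝ))]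
  have hX1 : (⌊ξ * u * (J : ℝ)⌋₊ : ℝ) ≤ ξ * u * J := Nat.floor_le (by positivity)
  have hX2 : ξ * u * J - 1 ≤ (⌊ξ * u * (J : ℝ)⌋₊ : ℝ) := by
    linarith [Nat.lt_floor_add_one (ξ * u * (J : ℝ))]
  have hg1 := (XE.γb k le_rfl).1
  have hg2 := (XE.γb k le_rfl).2
  have hg3 : (sn k w - φ) * J = sn k w * J - φ * J := by ring
  rw [hg3] at hg1
  have hs1J : (sn k w + s₁) * J = sn k w * J + s₁ * J := by ring
  have hs2J : (sn k w + s₂) * J = sn k w * J + s₁ * J + ξ * u * J := by rw [hs₂]; ring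
  have hφl : φ * J * Real.log 2 ≤ φ * J * 1 := mul_le_mul_of_nonneg_left hl2' hφJ
  have hh1 : CH (Pool.Agent.H49.Ent.cond F.p A True)
      (fun ω => uv2 F c k w (Hif k H Hw) Hn (P1x k sn w (be / al) s₁ Cr φ) ω 0)
      (fun ω => ⌊TV ω⌋) ≤ e' := by
    rw [hu1]
    have a1 := XE.t1 hcl hpA (M := sn k w + s₁) (d := φ * J + 1) 0 (Z := fun ω => ⌊TV ω⌋)
      (fun ω ν _ _ e => by simpa using e) (by
        rw [hs1J]
        push_cast
        linarith) (by positivity)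
    refine he'0 _ (a1.trans ?_)
    have b1 : (φ * J + 1) * Real.log 2 = φ * J * Real.log 2 + Real.log 2 := by ring
    rw [b1]
    linarith only [hφl, hl2', hkl5, hl5, hk0, hφuJ, hQJ, hφJ]
  have hh1' : CH (Pool.Agent.H49.Ent.cond F.p A True) (fun ω => ⌊TV ω⌋)
      (fun ω => uv2 F c k w (Hif k H Hw) Hn (P1x k sn w (be / al) s₁ Cr φ) ω 0) ≤ e' := by
    rw [hu1]
    have a1 := XE.t2 hcl hpA (M := sn k w + s₁) (d := 0) 0
      (Z := th0 F c k ⌊w * J⌋₊ (Hif k H Hw) (sn k w + s₁))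
      (fun ω ν _ _ e => e) (by
        rw [hs1J]
        push_cast
        linarith) le_rfl
    have a2 : CH (Pool.Agent.H49.Ent.cond F.p A True) (fun ω => ⌊TV ω⌋)
        (th0 F c k ⌊w * J⌋₊ (Hif k H Hw) (sn k w + s₁)) ≤
        CH (Pool.Agent.H49.Ent.cond F.p A True) (fun ω => ⌊(2 : ℝ) ^ 0 * TV ω⌋)
        (th0 F c k ⌊w * J⌋₊ (Hif k H Hw) (sn k w + s₁)) := by simp
    refine he'0 _ (a2.trans (a1.trans ?_))
    linarith only [hkl5, hl5, hk0, hφuJ, hQJ, hφJ]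
  have hh2 : CH (Pool.Agent.H49.Ent.cond F.p A True)
      (fun ω => uv2 F c k w (Hif k H Hw) Hn (P2x k sn w s₂ lam yq) ω 0)
      (fun ω => ⌊(2 : ℝ) ^ ⌊ξ * u * J⌋₊ * TV ω⌋) ≤ e' := by
    rw [hu2]
    have a1 := XE.t1 hcl hpA (M := sn k w + s₂) (d := φ * J + 2) ⌊ξ * u * J⌋₊
      (Z := fun ω => ⌊(2 : ℝ) ^ ⌊ξ * u * J⌋₊ * TV ω⌋)
      (fun ω ν _ _ e => e) (by
        rw [hs2J]
        linarith) (by positivity)
    refine he'0 _ (a1.trans ?_)
    have b1 : (φ * J + 2) * Real.log 2 = φ * J * Real.log 2 + 2 * Real.log 2 := by ring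
    rw [b1]
    linarith only [hφl, hl2', hkl5, hl5, hk0, hφuJ, hQJ, hφJ]
  have hh2' : CH (Pool.Agent.H49.Ent.cond F.p A True)
      (fun ω => ⌊(2 : ℝ) ^ ⌊ξ * u * J⌋₊ * TV ω⌋)
      (fun ω => uv2 F c k w (Hif k H Hw) Hn (P2x k sn w s₂ lam yq) ω 0) ≤ e' := by
    rw [hu2]
    have a1 := XE.t2 hcl hpA (M := sn k w + s₂) (d := 0) ⌊ξ * u * J⌋₊
      (Z := th0 F c k ⌊w * J⌋₊ (Hif k H Hw) (sn k w + s₂))
      (fun ω ν _ _ e => e) (by
        rw [hs2J]
        linarith) le_rfl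
    refine he'0 _ (a1.trans ?_)
    linarith only [hkl5, hl5, hk0, hφuJ, hQJ, hφJ]
  -- the digits of the last place
  have hha : CH (Pool.Agent.H49.Ent.cond F.p A True)
      (fun ω => (uv2 F c k w (Hif k H Hw) Hn (P1x k sn w (be / al) s₁ Cr φ) ω 1,
        uv2 F c k w (Hif k H Hw) Hn (P2x k sn w s₂ lam yq) ω 1))
      (fun ω => (sd ω, F.W ω)) ≤ e' := by
    have c1 : (fun ω => (uv2 F c k w (Hif k H Hw) Hn (P1x k sn w (be / al) s₁ Cr φ) ω 1,
        uv2 F c k w (Hif k H Hw) Hn (P2x k sn w s₂ lam yq) ω 1)) = fun ω =>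
        (nh F (c (k + 1)) w (sn (k + 1) w + be / al * s₁ - (Cr + 4) * φ) Hn ω,
          nh F (c (k + 1)) w (lam yq) Hn ω) := by
      funext ω
      exact Prod.ext (congrFun hn1 ω) (congrFun hn2 ω)
    rw [c1]
    have a1 := CH_le_add h0 (fun ω => (nh F (c (k + 1)) w
        (sn (k + 1) w + be / al * s₁ - (Cr + 4) * φ) Hn ω, nh F (c (k + 1)) w (lam yq) Hn ω))
      (nh F (c (k + 1)) w (sn (k + 1) w + be / al * (u + 500 * y + ξ * u)) Hn)
      (fun ω => (sd ω, F.W ω))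
    have a2 := CH_subadd h0 (nh F (c (k + 1)) w
        (sn (k + 1) w + be / al * s₁ - (Cr + 4) * φ) Hn) (nh F (c (k + 1)) w (lam yq) Hn)
      (fun ω => (nh F (c (k + 1)) w (sn (k + 1) w + be / al * (u + 500 * y + ξ * u)) Hn ω,
        (sd ω, F.W ω)))
    have a3 := ch_nh (Hn := Hn) (w := w) hcl (M := sn (k + 1) w + be / al * (u + 500 * y + ξ * u))
      (M' := sn (k + 1) w + be / al * s₁ - (Cr + 4) * φ) (d := 0) (c (k + 1))
      (Z := fun ω => (nh F (c (k + 1)) w (sn (k + 1) w + be / al * (u + 500 * y + ξ * u)) Hn ω,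
        (sd ω, F.W ω))) (fun ω ν _ _ e => (Prod.ext_iff.mp e).1)
      (mul_nonpos_of_nonpos_of_nonneg (by
        rw [← hs₁, ← hs₂, ← hr, e3, e5]
        linarith) hJ0) le_rfl
    have a4 := ch_nh (Hn := Hn) (w := w) hcl (M := sn (k + 1) w + be / al * (u + 500 * y + ξ * u))
      (M' := lam yq) (d := 0) (c (k + 1))
      (Z := fun ω => (nh F (c (k + 1)) w (sn (k + 1) w + be / al * (u + 500 * y + ξ * u)) Hn ω,
        (sd ω, F.W ω))) (fun ω ν _ _ e => (Prod.ext_iff.mp e).1)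
      (mul_nonpos_of_nonpos_of_nonneg (by
        rw [← hs₁, ← hs₂, ← hr, e3]
        linarith) hJ0) le_rfl
    refine he'0 _ ?_
    linarith only [a1, a2, a3, a4, hsd1, hkl5, hl5, hk0, hφuJ, hQJ, hφJ]
  -- the side path
  have hhb : CH (Pool.Agent.H49.Ent.cond F.p A True) sd (fun ω =>
      ((uv2 F c k w (Hif k H Hw) Hn (P1x k sn w (be / al) s₁ Cr φ) ω 1,
        uv2 F c k w (Hif k H Hw) Hn (P2x k sn w s₂ lam yq) ω 1),
        ((jh F c k ⌊w * J⌋₊ H (nfx k sn w (3 * T * u) φ) ω, jv F c k ⌊w * J⌋₊ H Pe' ω),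
          (cR F A w₁ ω, F.W ω)))) ≤ e' := by
    obtain ⟨Z, hZ⟩ : ∃ Z : F.Ω → _, Z = fun ω =>
      ((uv2 F c k w (Hif k H Hw) Hn (P1x k sn w (be / al) s₁ Cr φ) ω 1,
        uv2 F c k w (Hif k H Hw) Hn (P2x k sn w s₂ lam yq) ω 1),
        ((jh F c k ⌊w * J⌋₊ H (nfx k sn w (3 * T * u) φ) ω, jv F c k ⌊w * J⌋₊ H Pe' ω),
          (cR F A w₁ ω, F.W ω))) := ⟨_, rfl⟩
    rw [← hZ]
    have a1 := CH_le_add h0 sd (fun ω => (nh F (c (k + 1)) w
      (sn (k + 1) w + be / al * (u + 500 * y + ξ * u)) Hn ω, nrP F c k sn H w (T * u) ω)) Z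
    have a2 := CH_subadd h0 (nh F (c (k + 1)) w
      (sn (k + 1) w + be / al * (u + 500 * y + ξ * u)) Hn) (nrP F c k sn H w (T * u)) Z
    have a3 := CH_subadd h0 (jh F c k ⌊w * J⌋₊ H (fun l => sn l w + T * u))
      (jv F c k ⌊w * J⌋₊ H (fun l => sn l w - w + T * u)) Z
    have a4 : CH (Pool.Agent.H49.Ent.cond F.p A True) (nrP F c k sn H w (T * u)) Z =
        CH (Pool.Agent.H49.Ent.cond F.p A True)
          (fun ω => (jh F c k ⌊w * J⌋₊ H (fun l => sn l w + T * u) ω,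
            jv F c k ⌊w * J⌋₊ H (fun l => sn l w - w + T * u) ω)) Z := rfl
    have a5 := CH_jh hcl (F := F) (c := c) (r := k) (w := ⌊w * J⌋₊) (H := H)
      (n := nfx k sn w (3 * T * u) φ) (n' := fun l => sn l w + T * u) (d := 0) (fun l hl => by
        have h1 : (l : ℝ) ≤ k := by exact_mod_cast hl.le
        have h2 := mul_le_mul_of_nonneg_right h1 hφ0.le
        have h3 : nfx k sn w (3 * T * u) φ l = sn l w + 3 * (T * u) + 20 * (k * φ) -
          20 * (l * φ) + 24 * φ := by unfold nfx; ring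
        refine mul_nonpos_of_nonpos_of_nonneg ?_ hJ0
        rw [h3]
        linarith) le_rfl Z (fun ω ν _ _ e => by
        rw [hZ] at e
        simp only [Prod.mk.injEq] at e
        exact e.2.1.1)
    have a6 := CH_jv hcl (F := F) (c := c) (r := k) (w := ⌊w * J⌋₊) (H := H)
      (n := Pe') (n' := fun l => sn l w - w + T * u) (d := 0) (fun l hl => by
        have h1 := (hnP l hl).2.2.1
        rw [hTu3] at h1
        refine mul_nonpos_of_nonpos_of_nonneg ?_ hJ0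
        show sn l w - w + T * u - Pe' l ≤ 0
        linarith) le_rfl Z (fun ω ν _ _ e => by
        rw [hZ] at e
        simp only [Prod.mk.injEq] at e
        exact e.2.1.2)
    have a7 := ch_nh (Hn := Hn) (w := w) hcl (M := lam yq)
      (M' := sn (k + 1) w + be / al * (u + 500 * y + ξ * u)) (d := 2 * (Q * φ * J) + 2 * (φ * J))
      (c (k + 1)) (Z := Z) (fun ω ν _ _ e => by
        rw [hZ] at e
        simp only [Prod.mk.injEq] at e
        have e1 := e.1.2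
        rw [← hn2]
        exact e1) (by
        have b1 : (sn (k + 1) w + be / al * (u + 500 * y + ξ * u) - lam yq) * J ≤
          (2 * (Q * φ) + 2 * φ) * J := mul_le_mul_of_nonneg_right (by
            rw [← hs₁, ← hs₂, ← hr, e3]
            linarith) hJ0
        linarith) (by positivity)
    have a8 : CH (Pool.Agent.H49.Ent.cond F.p A True) sd (fun ω => ((nh F (c (k + 1)) w
        (sn (k + 1) w + be / al * (u + 500 * y + ξ * u)) Hn ω, nrP F c k sn H w (T * u) ω),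
        Z ω)) ≤ φ₁ * u * J := by
      refine le_trans (CH_mono_cond h0 fun ω ν _ _ e => ?_) hsd2
      rw [hZ] at e
      simp only [Prod.mk.injEq] at e ⊢
      tauto
    have a9 : (2 * (Q * φ * J) + 2 * (φ * J)) * Real.log 2 ≤ (2 * (Q * φ * J) + 2 * (φ * J)) * 1 :=
      mul_le_mul_of_nonneg_left hl2' (by positivity)
    rw [zero_mul, zero_add] at a5 a6
    rw [a4] at a2
    refine he'0 _ ?_
    linarith only [a1, a2, a3, a5, a6, a7, a8, a9, hkl5, hl5, hk0, hφuJ, hQJ, hφJ]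
  have hjj : CH (Pool.Agent.H49.Ent.cond F.p A True) (cR F A j) (cR F A v) ≤ e' := by
    rw [CH_eq_zero h0 (det_cR2 (fun _ h => h) hjv hv1 hpA)]
    refine he'0 _ ?_
    linarith only [hkl5, hl5, hk0, hφuJ, hQJ, hφJ]
  have fin := nl_tr h0 (Rj := cR F A j) (U₁ := fun ω => ⌊TV ω⌋)
    (U₂ := fun ω => ⌊(2 : ℝ) ^ ⌊ξ * u * J⌋₊ * TV ω⌋) (sd := sd) (e := e') key' hjj hha hhb hh1 hh1'
    hh2 hh2'
  -- the path
  have fin2 := mi_cd h0 (R := cR F A j) (U := fun ω => ⌊(2 : ℝ) ^ ⌊ξ * u * J⌋₊ * TV ω⌋)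
    (W := fun ω => (⌊TV ω⌋, (sd ω, ((jh F c k ⌊w * J⌋₊ H (nfx k sn w (3 * T * u) φ) ω,
      jv F c k ⌊w * J⌋₊ H Pe' ω), (cR F A w₁ ω, F.W ω)))))
    (W' := fun ω => (⌊TV ω⌋, (sd ω, ((jh F c k ⌊w * J⌋₊ H ne ω,
      jv F c k ⌊w * J⌋₊ H Pe' ω), (cR F A w₁ ω, F.W ω)))))
    (e₁ := Q * φ * J + k * Real.log 5) (e₂ := 100 * (k * y) * J + k * Real.log 5)
    (by
      refine (CH_mono_left h0 (X' := jh F c k ⌊w * J⌋₊ H (nfx k sn w (3 * T * u) φ))
        fun ω ν _ _ e => ?_).trans ?_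
      · simp only [Prod.mk.injEq] at e ⊢
        tauto
      · have a1 := CH_jh hcl (F := F) (c := c) (r := k) (w := ⌊w * J⌋₊) (H := H)
          (n := ne) (n' := nfx k sn w (3 * T * u) φ) (d := (20 * (k : ℝ) + 24) * φ * J)
          (fun l hl => by
            have h1 := (hnP l hl).1
            have h2 : (0 : ℝ) ≤ (l : ℝ) * φ := by positivity
            have h3 : nfx k sn w (3 * T * u) φ l = sn l w + 3 * T * u + 20 * (k * φ) -
              20 * (l * φ) + 24 * φ := by unfold nfx; ring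
            refine mul_le_mul_of_nonneg_right ?_ hJ0
            rw [h3]
            linarith) (by positivity)
          (fun ω => (⌊TV ω⌋, (sd ω, ((jh F c k ⌊w * J⌋₊ H ne ω,
            jv F c k ⌊w * J⌋₊ H Pe' ω), (cR F A w₁ ω, F.W ω))))) (fun ω ν _ _ e => by
            simp only [Prod.mk.injEq] at e
            exact e.2.2.1.1)
        refine a1.trans ?_
        have a2 : (k : ℝ) * (20 * k + 24) ≤ Q := by
          refine le_trans ?_ hQ
          nlinarith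
        have a3 := mul_le_mul_of_nonneg_right a2 hφJ
        have a4 : (20 * (k : ℝ) + 24) * φ * J * Real.log 2 ≤ (20 * (k : ℝ) + 24) * φ * J * 1 :=
          mul_le_mul_of_nonneg_left hl2' (by positivity)
        have a5 := mul_le_mul_of_nonneg_left a4 hk0
        linarith only [a3, a5])
    (by
      refine (CH_mono_left h0 (X' := jh F c k ⌊w * J⌋₊ H ne) fun ω ν _ _ e => ?_).trans ?_
      · simp only [Prod.mk.injEq] at e ⊢
        tauto
      · have a1 := CH_jh hcl (F := F) (c := c) (r := k) (w := ⌊w * J⌋₊) (H := H)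
          (n := nfx k sn w (3 * T * u) φ) (n' := ne) (d := 100 * y * J)
          (fun l hl => by
            have h1 := (hnP l hl).2.1
            have h0' : (l : ℝ) ≤ k := by exact_mod_cast hl.le
            have h2 := mul_le_mul_of_nonneg_right h0' hφ0.le
            have h3 : nfx k sn w (3 * T * u) φ l = sn l w + 3 * T * u + 20 * (k * φ) -
              20 * (l * φ) + 24 * φ := by unfold nfx; ring
            refine mul_le_mul_of_nonneg_right ?_ hJ0
            rw [h3]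
            linarith) (by positivity)
          (fun ω => (⌊TV ω⌋, (sd ω, ((jh F c k ⌊w * J⌋₊ H (nfx k sn w (3 * T * u) φ) ω,
            jv F c k ⌊w * J⌋₊ H Pe' ω), (cR F A w₁ ω, F.W ω))))) (fun ω ν _ _ e => by
            simp only [Prod.mk.injEq] at e
            exact e.2.2.1.1)
        refine a1.trans ?_
        have a4 : 100 * y * J * Real.log 2 ≤ 100 * y * J * 1 :=
          mul_le_mul_of_nonneg_left hl2' (by positivity)
        have a5 := mul_le_mul_of_nonneg_left a4 hk0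
        linarith only [a5])
  refine fin2.trans ?_
  -- the sum
  have t4 : e * u ≤ φ₁ * u := mul_le_mul_of_nonneg_right he hu.le
  have t5 : (k : ℝ) * y ≤ k * (φ₁ * u) := mul_le_mul_of_nonneg_left hy hk0
  have t7 : φ₁ * u * M₀ ≤ δ / 2 * u := by
    have := mul_le_mul_of_nonneg_right f4 hu.le
    linarith
  have t8 : 65 * (18 * (Q * φ) + 2 * (e * u) + δ * u / 400) + 8 * (φ₁ * u + 2 * (Q * φ) + 4 * φ) +
      Q * φ + 100 * (k * y) + δ * u / 6 ≤ δ * u := by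
    rw [hM₀] at t7
    linarith
  have t9 := mul_le_mul_of_nonneg_right t8 hJ0
  have hLg2 : 2 * (k * Real.log 5) ≤ Lg := by
    rw [hLg, hLg1]
    linarith only [hkl5, hl5, hk0]
  rw [he'1] at fin
  linarith only [fin, t9, hLg2, hlog, hLg, hkl5]

end Pool.XR71
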