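import Pool.Agent.H71.XR.Xi

/-!
# Digits of both places

`mi_mid`: intermediate digits. `pair_1`, `pair_2`: the digits of the class theorems and the ones of
the targets. `mi_path`: another path of the slope-one places.
-/

set_option autoImplicit false

namespace Pool.XR71

open Finset Real MvPolynomial
open Pool.Agent.H49.Ent Pool.Agent.H32.Dense
open Pool.STK hiding pr2
open Pool.KA Pool.KSAT Pool.K2S Pool.PB Pool.S6C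
open Pool.GEN Pool.CHT Pool.CHX Pool.ISO Pool.LA91 Pool.AVG71 Pool.AVG5 Pool.D2F2 Pool.AVG57
open Pool.RCD Pool.AVG96 Pool.OWN68 Pool.V0F Pool.VA83 Pool.V0S Pool.ALT Pool.V0T
open Pool.AJW (CfB)
open Pool.UNJ (ceI)
open Pool.KVA (MI)
open Pool.GRD (LbP)
open Pool.VG83 (Hif ld_if jh_if vv_if jv_if cl_cR det_cR2)

/-- **Intermediate digits**: `N₁`, `N₂` near and far digits, `U₁` between them, `U₂` few bits given
`N₂`. -/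
theorem mi_mid {Ω : Type} [Fintype Ω] {p : Ω → ℝ} (h0 : ∀ ω, 0 ≤ p ω)
    {α β γ α₁ α₂ α₃ α₄ α₅ : Type} {R : Ω → α} {P' : Ω → β} {Pt : Ω → γ} {N₁ : Ω → α₁} {N₂ : Ω → α₂}
    {U₁ : Ω → α₃} {U₂ : Ω → α₄} {z : Ω → α₅} {K e : ℝ}
    (hM : MI p R (fun ω => (P' ω, N₂ ω)) (fun ω => ((Pt ω, N₁ ω), z ω)) ≤ K)
    (h1 : CH p N₁ U₁ ≤ e) (h1' : CH p U₁ N₂ ≤ e) (h2 : CH p U₂ N₂ ≤ e) :
    MI p R U₂ (fun ω => (U₁ ω, ((), (Pt ω, z ω)))) ≤ K + 3 * e := by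
  have m1 := mi_part h0 hM (A := N₂) (B := fun _ => ())
    (fun ω ω' _ _ e => (Prod.ext_iff.mp e).2) (fun ω ω' _ _ e => rfl)
  obtain ⟨C, hC⟩ : ∃ C : Ω → (γ × α₁) × α₅, C = fun ω => ((Pt ω, N₁ ω), z ω) := ⟨_, rfl⟩
  have m2 : CH p N₂ C ≤ CH p N₂ (fun ω => (R ω, C ω)) + K := by
    have a1 : CH p N₂ C ≤ CH p N₂ (fun ω => ((), ((Pt ω, N₁ ω), z ω))) :=
      CH_mono_cond h0 fun ω ω' _ _ e => by
        rw [hC] at e
        exact Prod.ext rfl e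
    have a2 : CH p N₂ (fun ω => ((), (R ω, ((Pt ω, N₁ ω), z ω)))) ≤
        CH p N₂ (fun ω => (R ω, C ω)) := CH_mono_cond h0 fun ω ω' _ _ e => by
      have e1 := (Prod.ext_iff.mp e).2
      rw [hC]
      exact e1
    linarith
  -- the chain rules
  have c1 := CH_chain h0 U₂ U₁ C
  have c2 := CH_chain h0 N₂ (fun ω => (U₂ ω, U₁ ω)) C
  have c3 := CH_chain h0 (fun ω => (U₂ ω, U₁ ω)) N₂ C
  have d1 := CH_chain h0 U₂ U₁ (fun ω => (R ω, C ω))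
  have d2 := CH_chain h0 N₂ (fun ω => (U₂ ω, U₁ ω)) (fun ω => (R ω, C ω))
  have sw : CH p (fun ω => ((U₂ ω, U₁ ω), N₂ ω)) C = CH p (fun ω => (N₂ ω, (U₂ ω, U₁ ω))) C :=
    CH_congr h0 (fun ω ω' _ _ e => by
      have e1 := Prod.ext_iff.mp (Prod.ext_iff.mp e).1
      exact Prod.ext e1.2 e1.1) (fun ω ω' _ _ e => by
      have e1 := Prod.ext_iff.mp (Prod.ext_iff.mp e).1
      exact Prod.ext e1.2 e1.1) (fun _ _ _ _ e => e) (fun _ _ _ _ e => e)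
  have b1 : CH p (fun ω => (U₂ ω, U₁ ω)) (fun ω => (N₂ ω, C ω)) ≤ e + e := by
    refine (CH_subadd h0 U₂ U₁ _).trans (add_le_add (le_trans (CH_mono_cond h0 ?_) h2)
      (le_trans (CH_mono_cond h0 ?_) h1'))
    · exact fun ω ω' _ _ e => (Prod.ext_iff.mp e).1
    · exact fun ω ω' _ _ e => (Prod.ext_iff.mp e).1
  have b2 : CH p N₂ (fun ω => (R ω, C ω)) ≤
      CH p (fun ω => (N₂ ω, (U₂ ω, U₁ ω))) (fun ω => (R ω, C ω)) :=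
    CH_mono_left h0 fun ω ω' _ _ e => (Prod.ext_iff.mp (Prod.ext_iff.mp e).1).1
  have b3 : CH p U₁ (fun ω => (R ω, C ω)) ≤ CH p U₁ C := CH_mono_cond h0 fun ω ω' _ _ e =>
    (Prod.ext_iff.mp e).2
  have b4 : CH p N₂ (fun ω => ((U₂ ω, U₁ ω), (R ω, C ω))) ≤
      CH p N₂ (fun ω => ((U₂ ω, U₁ ω), C ω)) := CH_mono_cond h0 fun ω ω' _ _ e =>
    Prod.ext (Prod.ext_iff.mp e).1 (Prod.ext_iff.mp (Prod.ext_iff.mp e).2).2
  -- without the near digits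
  rw [Pool.AVG71.MI_eq' h0]
  have f1 := CH_le_add h0 U₂ N₁ (fun ω => (U₁ ω, ((), (Pt ω, z ω))))
  have f2 : CH p N₁ (fun ω => (U₁ ω, ((), (Pt ω, z ω)))) ≤ CH p N₁ U₁ :=
    CH_mono_cond h0 fun ω ω' _ _ e => (Prod.ext_iff.mp e).1
  have f3 : CH p U₂ (fun ω => (N₁ ω, (U₁ ω, ((), (Pt ω, z ω))))) ≤
      CH p U₂ (fun ω => (U₁ ω, C ω)) := CH_mono_cond h0 fun ω ω' _ _ e => by
    rw [hC]
    simp only [Prod.mk.injEq] at e ⊢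
    tauto
  have f4 : CH p U₂ (fun ω => (U₁ ω, (R ω, C ω))) ≤
      CH p U₂ (fun ω => (R ω, (U₁ ω, ((), (Pt ω, z ω))))) := CH_mono_cond h0
    fun ω ω' _ _ e => by
      rw [hC] at e
      simp only [Prod.mk.injEq] at e ⊢
      tauto
  linarith

section

variable {m J : ℕ} {F : Fam m J} {w : ℝ} {Hn : LnT F → MvPolynomial (Option (Fin m)) ℝ}
  {p : F.Ω → ℝ} {A : F.Ω → Prop}

/-- The last place in powers of two. -/
theorem tn_eq {κ : Fin m} {N : ℕ} {TN : F.Ω → ℝ}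
    (hT : ∀ ω, A ω → TN ω = 2 ^ N * ojet F κ 0 (Hn (slam F ⌊w * J⌋₊ ω)) ω) (n : ℕ) {ω : F.Ω}
    (hω : A ω) : (2 : ℝ) ^ n * TN ω =
      2 ^ ((n + N : ℕ) : ℝ) * ojet F κ 0 (Hn (slam F ⌊w * J⌋₊ ω)) ω := by
  rw [hT ω hω, Real.rpow_natCast, pow_add]
  ring

/-- The digits `nh` from other digits. -/
theorem tn_1 (hp : IsLaw p) (hA : ∀ ω, 0 < p ω → A ω) {κ : Fin m} {N : ℕ} {TN : F.Ω → ℝ}
    (hT : ∀ ω, A ω → TN ω = 2 ^ N * ojet F κ 0 (Hn (slam F ⌊w * J⌋₊ ω)) ω) {M d : ℝ} (n : ℕ)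
    {β : Type} {Z : F.Ω → β} (hZ : Det p Z (fun ω => ⌊(2 : ℝ) ^ n * TN ω⌋))
    (hd : M * J - (n + N : ℕ) ≤ d) (hd0 : 0 ≤ d) :
    CH p (nh F κ w M Hn) Z ≤ d * Real.log 2 + Real.log 5 := by
  refine CH_dg hp (a := ((n + N : ℕ) : ℝ)) (b := M * J)
    (x := fun ω => ojet F κ 0 (Hn (slam F ⌊w * J⌋₊ ω)) ω) (fun ω _ => rfl)
    (fun ω ν hω hν e => ?_) hd hd0
  have e1 := hZ ω ν hω hν e
  show ⌊_⌋ = ⌊_⌋
  rw [← tn_eq hT n (hA ω hω), ← tn_eq hT n (hA ν hν)]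
  exact e1

/-- Other digits from the digits `nh`. -/
theorem tn_2 (hp : IsLaw p) (hA : ∀ ω, 0 < p ω → A ω) {κ : Fin m} {N : ℕ} {TN : F.Ω → ℝ}
    (hT : ∀ ω, A ω → TN ω = 2 ^ N * ojet F κ 0 (Hn (slam F ⌊w * J⌋₊ ω)) ω) {M d : ℝ} (n : ℕ)
    {β : Type} {Z : F.Ω → β} (hZ : Det p Z (nh F κ w M Hn))
    (hd : ((n + N : ℕ) : ℝ) - M * J ≤ d) (hd0 : 0 ≤ d) :
    CH p (fun ω => ⌊(2 : ℝ) ^ n * TN ω⌋) Z ≤ d * Real.log 2 + Real.log 5 := by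
  refine CH_dg hp (a := M * J) (b := ((n + N : ℕ) : ℝ))
    (x := fun ω => ojet F κ 0 (Hn (slam F ⌊w * J⌋₊ ω)) ω) (fun ω hω => ?_)
    (fun ω ν hω hν e => hZ ω ν hω hν e) hd hd0
  rw [tn_eq hT n (hA ω hω)]

end

/-- A pair of numbers. -/
theorem ch_two {Ω : Type} [Fintype Ω] {p : Ω → ℝ} (h0 : ∀ ω, 0 ≤ p ω) {β : Type} {Z : Ω → β}
    {f : Ω → Fin 2 → ℤ} {a b : ℝ} (ha : CH p (fun ω => f ω 0) Z ≤ a)
    (hb : CH p (fun ω => f ω 1) Z ≤ b) : CH p f Z ≤ a + b := by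
  have h1 : CH p f Z ≤ CH p (fun ω => (f ω 0, f ω 1)) Z := CH_mono_left h0 fun ω ω' _ _ e => by
    have e1 := Prod.ext_iff.mp (Prod.ext_iff.mp e).1
    funext i
    fin_cases i
    · exact e1.1
    · exact e1.2
  exact h1.trans ((CH_subadd h0 _ _ _).trans (add_le_add ha hb))

section

variable {m J : ℕ} {F : Fam m J} {c : ℕ → Fin m} {k D q : ℕ} {sn : ℕ → ℝ → ℝ} {b w φ E e₀ ρ₀ : ℝ}
  {K₀ : ℕ} {A : F.Ω → Prop} {Hb Hw H₀ H : LnT F → ℕ → MvPolynomial (Option (Fin m)) ℝ}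
  {Hn : LnT F → MvPolynomial (Option (Fin m)) ℝ} {γ : ℕ → ℕ} {TV : F.Ω → Fin 2 → ℝ}
  {p : F.Ω → ℝ}

/-- The digits of the class theorems from the ones of the targets. -/
theorem pair_1 (XE : XEv F c k D q sn b w φ E K₀ e₀ ρ₀ A Hb Hw H₀ H Hn γ (fun ω => TV ω 0))
    {N : ℕ} (hT : ∀ ω, A ω → TV ω 1 = 2 ^ N * ojet F (c (k + 1)) 0 (Hn (slam F ⌊w * J⌋₊ ω)) ω)
    (hp : IsLaw p) (hA : ∀ ω, 0 < p ω → A ω) {P : ℕ → ℝ} (Xt : Fin 2 → ℕ) {d d' : ℝ}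
    (hd : P 0 * J - (Xt 0 + γ k + q) ≤ d) (hd0 : 0 ≤ d) (hd' : P 1 * J - (Xt 1 + N : ℕ) ≤ d')
    (hd0' : 0 ≤ d') :
    CH p (uv2 F c k w (Hif k H Hw) Hn P) (fun ω => fun v : Fin 2 => ⌊(2 : ℝ) ^ Xt v * TV ω v⌋) ≤
      (d * Real.log 2 + Real.log 5) + (d' * Real.log 2 + Real.log 5) := by
  have e1 : (fun ω => uv2 F c k w (Hif k H Hw) Hn P ω 0) =
      th0 F c k ⌊w * J⌋₊ (Hif k H Hw) (P 0) := by
    funext ω
    show (if ((0 : Fin (1 + 1)) : ℕ) = 0 then _ else _) = _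
    rw [if_pos (by simp)]
  have e2 : (fun ω => uv2 F c k w (Hif k H Hw) Hn P ω 1) = nh F (c (k + 1)) w (P 1) Hn := by
    funext ω
    show (if ((1 : Fin (1 + 1)) : ℕ) = 0 then _ else _) = _
    rw [if_neg (by simp)]
  refine ch_two hp.nonneg ?_ ?_
  · have a1 := XE.t1 hp hA (M := P 0) (d := d) (Xt 0)
      (Z := fun ω => fun v : Fin 2 => ⌊(2 : ℝ) ^ Xt v * TV ω v⌋)
      (fun ω ν _ _ e => congrFun e 0) hd hd0
    rw [← e1] at a1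
    exact a1
  · have a1 := tn_1 hp hA (N := N) (TN := fun ω => TV ω 1) hT (M := P 1) (d := d') (Xt 1)
      (Z := fun ω => fun v : Fin 2 => ⌊(2 : ℝ) ^ Xt v * TV ω v⌋)
      (fun ω ν _ _ e => congrFun e 1) hd' hd0'
    rw [← e2] at a1
    exact a1

/-- The digits of the targets from the ones of the class theorems. -/
theorem pair_2 (XE : XEv F c k D q sn b w φ E K₀ e₀ ρ₀ A Hb Hw H₀ H Hn γ (fun ω => TV ω 0))
    {N : ℕ} (hT : ∀ ω, A ω → TV ω 1 = 2 ^ N * ojet F (c (k + 1)) 0 (Hn (slam F ⌊w * J⌋₊ ω)) ω)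
    (hp : IsLaw p) (hA : ∀ ω, 0 < p ω → A ω) {P : ℕ → ℝ} (Xt : Fin 2 → ℕ) {d d' : ℝ}
    (hd : (Xt 0 + γ k + q) - P 0 * J ≤ d) (hd0 : 0 ≤ d) (hd' : ((Xt 1 + N : ℕ) : ℝ) - P 1 * J ≤ d')
    (hd0' : 0 ≤ d') :
    CH p (fun ω => fun v : Fin 2 => ⌊(2 : ℝ) ^ Xt v * TV ω v⌋) (uv2 F c k w (Hif k H Hw) Hn P) ≤
      (d * Real.log 2 + Real.log 5) + (d' * Real.log 2 + Real.log 5) := by
  have e1 : (fun ω => uv2 F c k w (Hif k H Hw) Hn P ω 0) =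
      th0 F c k ⌊w * J⌋₊ (Hif k H Hw) (P 0) := by
    funext ω
    show (if ((0 : Fin (1 + 1)) : ℕ) = 0 then _ else _) = _
    rw [if_pos (by simp)]
  have e2 : (fun ω => uv2 F c k w (Hif k H Hw) Hn P ω 1) = nh F (c (k + 1)) w (P 1) Hn := by
    funext ω
    show (if ((1 : Fin (1 + 1)) : ℕ) = 0 then _ else _) = _
    rw [if_neg (by simp)]
  refine ch_two hp.nonneg ?_ ?_
  · exact XE.t2 hp hA (M := P 0) (d := d) (Xt 0) (Z := uv2 F c k w (Hif k H Hw) Hn P)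
      (fun ω ν _ _ e => by
        rw [← e1]
        exact congrFun e 0) hd hd0
  · exact tn_2 hp hA (N := N) (TN := fun ω => TV ω 1) hT (M := P 1) (d := d') (Xt 1)
      (Z := uv2 F c k w (Hif k H Hw) Hn P)
      (fun ω ν _ _ e => by
        rw [← e2]
        exact congrFun e 1) hd' hd0'

/-- Another path of the slope-one places. -/
theorem mi_path (hp : IsLaw p) {n n' Pe' : ℕ → ℝ} {d d' : ℝ} (h1 : ∀ l < k, (n l - n' l) * J ≤ d)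
    (h2 : ∀ l < k, (n' l - n l) * J ≤ d') (hd : 0 ≤ d) (hd' : 0 ≤ d') {α β γ' δ ε : Type}
    {R : F.Ω → α} {U : F.Ω → β} {U₁ : F.Ω → γ'} {s : F.Ω → δ} {z : F.Ω → ε} :
    MI p R U (fun ω => (U₁ ω, (s ω, ((jh F c k ⌊w * J⌋₊ H n' ω, jv F c k ⌊w * J⌋₊ H Pe' ω),
      z ω)))) ≤
    MI p R U (fun ω => (U₁ ω, (s ω, ((jh F c k ⌊w * J⌋₊ H n ω, jv F c k ⌊w * J⌋₊ H Pe' ω),
      z ω)))) + (k * (d * Real.log 2 + Real.log 5) + k * (d' * Real.log 2 + Real.log 5)) := by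
  have h0 := hp.nonneg
  refine mi_cd h0 ?_ ?_
  · refine (CH_mono_left h0 (X' := jh F c k ⌊w * J⌋₊ H n) fun ω ν _ _ e => ?_).trans
      (CH_jh hp (n := n') (n' := n) (d := d) h1 hd _ fun ω ν _ _ e => ?_)
    · simp only [Prod.mk.injEq] at e ⊢
      tauto
    · simp only [Prod.mk.injEq] at e
      exact e.2.2.1.1
  · refine (CH_mono_left h0 (X' := jh F c k ⌊w * J⌋₊ H n') fun ω ν _ _ e => ?_).trans
      (CH_jh hp (n := n) (n' := n') (d := d') h2 hd' _ fun ω ν _ _ e => ?_)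
    · simp only [Prod.mk.injEq] at e ⊢
      tauto
    · simp only [Prod.mk.injEq] at e
      exact e.2.2.1.1

end

end Pool.XR71
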