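import Pool.Agent.H71.XR.Xj
import Pool.Agent.H83.VA.T2

/-!
# No look-ahead for both places

`xnlD : Pool.VA83.XnlDStmt`.
-/

set_option autoImplicit false

namespace Pool.XR71

open Finset Real MvPolynomial
open Pool.Agent.H49.Ent Pool.Agent.H32.Dense
open Pool.STK hiding pr2
open Pool.KA Pool.KSAT Pool.K2S Pool.PB Pool.S6C
open Pool.GEN Pool.CHT Pool.CHX Pool.ISO Pool.LA91 Pool.AVG71 Pool.AVG5 Pool.D2F2 Pool.AVG57
open Pool.RCD Pool.AVG96 Pool.OWN68 Pool.V0F Pool.VA83 Pool.V0S Pool.ALT Pool.V0T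
open Pool.AJW (CfB)
open Pool.UNJ (ceI)
open Pool.KVA (MI)
open Pool.GRD (LbP)
open Pool.VG83 (Hif ld_if jh_if vv_if jv_if cl_cR det_cR2)

/-- **No look-ahead for both places.** -/
theorem xnlD : Pool.VA83.XnlDStmt := by
  intro k al be h ξ lam0 T δ hξ hξ1 hT hδ hb1 hbal _ hlam hlamr
  have hk0 : (0 : ℝ) ≤ k := Nat.cast_nonneg k
  have hal : 0 < al := by linarith
  have hbe : 0 < be := by linarith
  obtain ⟨Q, hQ, HC⟩ := nl_cls k
  obtain ⟨r, hr⟩ : ∃ r, r = be / al := ⟨_, rfl⟩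
  have hr0 : 0 < r := by rw [hr]; positivity
  have hr1 : r ≤ 1 := by rw [hr]; exact (div_le_one hal).2 hbal.le
  obtain ⟨Cr, hCr⟩ : ∃ Cr : ℝ, Cr = 100 * ((k : ℝ) + 3) ^ 2 := ⟨_, rfl⟩
  have hCr0 : 900 ≤ Cr := by rw [hCr]; nlinarith
  have hQC : 4 * Cr ≤ Q := by rw [hCr]; linarith
  rw [← hCr] at HC
  obtain ⟨M₀, hM₀⟩ : ∃ M₀ : ℝ, M₀ = 1177 * Q + 2000 + 100 * (k : ℝ) := ⟨_, rfl⟩
  have hQ0 : 0 < Q := by linarith
  have hM0 : 0 < M₀ := by rw [hM₀]; positivity
  obtain ⟨φ₁, hφ₁, f1, f2, f3, f4, f5⟩ := small5 (a := Q * al) (b := 4 * Q + 10) (c := 1000 * Q)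
    (d := M₀) (f := 2 * be / lam0) (A := r * ξ) (B := δ / 2) (by positivity) (by positivity)
    (by positivity) hM0 (by positivity) (by positivity) (by positivity)
  refine ⟨φ₁, hφ₁, ?_⟩
  intro m S c sn sp G b o w u Λ φ e lam X hΛ y j w₁ K₀ e₀ ρ₀ hy0 hy hφ he0 he hw hwφ _ hwj hju D E
  have hu := X.u0
  have hφ0 := X.lad.φ0
  have hbw := X.bw
  have hwo := X.wo
  have ho1 := X.o1
  have hl2 : 0 < Real.log 2 := Real.log_pos one_lt_two
  have hl2' : Real.log 2 ≤ 1 := by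
    have := Real.log_two_lt_d9
    linarith
  have hl5 : 0 < Real.log 5 := Real.log_pos (by norm_num)
  have hTu : u ≤ T * u := le_mul_of_one_le_left hu.le hT
  have hku : 0 ≤ (k : ℝ) * u := by positivity
  have hΛu : 4 * (T * u) + 2 * (k * u) + 10 * u ≤ Λ * u := by
    have := mul_le_mul_of_nonneg_right hΛ hu.le
    linarith
  have hΛ1 : 1 ≤ Λ := by linarith
  -- small numbers
  have g1 : 1000 * (Q * (φ₁ * u)) ≤ u := by
    have := mul_le_mul_of_nonneg_right f3 hu.le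
    linarith
  have g1' : 3600 * (φ₁ * u) ≤ Q * (φ₁ * u) := mul_le_mul_of_nonneg_right (by linarith)
    (by positivity)
  have g2' : Q * φ ≤ Q * (φ₁ * u) := mul_le_mul_of_nonneg_left hφ hQ0.le
  have g2 : 1000 * (Q * φ) ≤ u := by linarith
  have g4 : 4 * (Q * φ) + 10 * φ ≤ r * (ξ * u) := by
    have a1 : φ * (4 * Q + 10) ≤ φ₁ * u * (4 * Q + 10) :=
      mul_le_mul_of_nonneg_right hφ (by positivity)
    have a2 := mul_le_mul_of_nonneg_right f2 hu.le
    linarith
  have g6 : 4 * (Cr * φ) ≤ Q * φ := by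
    have := mul_le_mul_of_nonneg_right hQC hφ0.le
    linarith
  have g6' : 900 * φ ≤ Cr * φ := mul_le_mul_of_nonneg_right hCr0 hφ0.le
  have g7 : ξ * u ≤ u := by
    have : ξ * u ≤ 1 * u := mul_le_mul_of_nonneg_right hξ1 hu.le
    linarith
  have g8 : Q * φ * al ≤ u := by
    have a1 : φ * (Q * al) ≤ φ₁ * u * (Q * al) := mul_le_mul_of_nonneg_right hφ (by positivity)
    have a2 := mul_le_mul_of_nonneg_right f1 hu.le
    linarith
  have g9 : φ ≤ lam0 / (2 * be) * u := by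
    have a1 : φ₁ ≤ lam0 / (2 * be) := by
      rw [le_div_iff₀ (by positivity)]
      have : φ₁ * (2 * be / lam0) * lam0 ≤ 1 * lam0 := mul_le_mul_of_nonneg_right f5 hlam.le
      have e1 : φ₁ * (2 * be / lam0) * lam0 = φ₁ * (2 * be) := by field_simp
      rw [e1] at this
      linarith
    exact hφ.trans (mul_le_mul_of_nonneg_right a1 hu.le)
  have hξu : 0 < ξ * u := by positivity
  -- the depths
  obtain ⟨s₁, hs₁⟩ : ∃ s₁ : ℝ, s₁ = lam0 / r * u := ⟨_, rfl⟩
  obtain ⟨s₂, hs₂⟩ : ∃ s₂ : ℝ, s₂ = (u + 500 * y) + ξ * u := ⟨_, rfl⟩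
  have hs1r : r * s₁ = lam0 * u := by
    rw [hs₁]
    field_simp
  have hs1u : s₁ ≤ u := by
    have : lam0 / r ≤ 1 := (div_le_one hr0).2 (by rw [hr]; exact hlamr)
    have := mul_le_mul_of_nonneg_right this hu.le
    rw [hs₁]
    linarith
  have hs10 : 0 < s₁ := by rw [hs₁]; positivity
  have hs1al : s₁ = lam0 / be * u * al := by
    rw [hs₁, hr]
    field_simp
  have e1 : (2 * Cr + 10) * φ = 2 * (Cr * φ) + 10 * φ := by ring
  have e2 : (Cr + 10) * φ = Cr * φ + 10 * φ := by ring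
  have hru : r * s₁ ≤ r * u := mul_le_mul_of_nonneg_left hs1u hr0.le
  have hry : 0 ≤ r * y := by positivity
  have hry1 : r * y ≤ y := by
    have : r * y ≤ 1 * y := mul_le_mul_of_nonneg_right hr1 hy0
    linarith
  have e3 : r * s₂ = r * u + 500 * (r * y) + r * (ξ * u) := by rw [hs₂]; ring
  have h10 : 10 * φ ≤ u := by linarith
  obtain ⟨v, vq, yq, W⟩ := X.wins hΛ1 h10 (s₁ := s₁) (s₂ := s₂) (Cr := Cr)
    (η := Q * φ) (by linarith) (by linarith) (by linarith) (by linarith) (by rw [e1]; linarith)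
    (by rw [← hr, e2, e3]; linarith)
  have hvG := W.vG
  have hwv := W.wv
  have hvo := W.vo
  have hv1 : v ≤ 1 := by linarith
  have hvs : lam0 / be * u + w ≤ v := by
    have a1 := abs_le.1 (X.lin0 v hvG (by linarith) hvo)
    have a2 := W.al1
    have a5 : lam0 / be * u * al ≤ (v - w) * al := by
      rw [← hs1al]
      linarith
    have a6 := le_of_mul_le_mul_right a5 hal
    linarith
  have hjv : j ≤ v := by
    have : lam0 / be * u = lam0 / (2 * be) * u + lam0 / (2 * be) * u := by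
      field_simp
      norm_num
    linarith
  have hwv1 : (w₁ : ℝ) ≤ v := hwj.trans hjv
  -- the digits of the velocities
  have hPex : ∀ i : ℕ, ∃ P : ℚ, sn i w - w + (3 * T + k + 3 + (k - i)) * u < P ∧
      (P : ℝ) < sn i w - w + (3 * T + k + 3 + (k - i)) * u + u / 4 := fun i =>
    exists_rat_btwn (by linarith)
  choose P hPa hPb using hPex
  have hε : 0 < δ * u / 400 := by positivity
  have hTu3 : (3 * T * u : ℝ) = 3 * (T * u) := by ring
  have H₁ := HC X hΛ1 he0 (by linarith) g8 (d := 3 * T * u) W hs10.le (by linarith) (by linarith)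
    (by rw [hTu3]; linarith) (by rw [hTu3]; linarith) (by rw [← hr, e3]; linarith) hw hwv1
    (P := P) (fun i hi => by
      have a1 := hPa i
      have a2 := hPb i
      have a3 : (i : ℝ) + 1 ≤ k := by exact_mod_cast hi
      have a4 := mul_le_mul_of_nonneg_right a3 hu.le
      have a5 : 0 ≤ (i : ℝ) * u := by positivity
      have a6 : (3 * T + k + 3 + (k - i)) * u = 3 * (T * u) + k * u + 3 * u + k * u - i * u := by
        ring
      rw [a6] at a1 a2
      constructor <;> linarith)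
    (fun l i hl hi => by
      have a1 := hPb i
      have a2 := hPa l
      have a3 : (l : ℝ) + 1 ≤ i := by exact_mod_cast hl
      have a4 := mul_le_mul_of_nonneg_right a3 hu.le
      have a6 : (3 * T + k + 3 + (k - i)) * u = 3 * (T * u) + k * u + 3 * u + k * u - i * u := by
        ring
      have a7 : (3 * T + k + 3 + (k - l)) * u = 3 * (T * u) + k * u + 3 * u + k * u - l * u := by
        ring
      rw [a6] at a1
      rw [a7] at a2
      linarith) hε D K₀ E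
  obtain ⟨Lg, hLg⟩ : ∃ Lg : ℝ, Lg = (2 * (k : ℝ) + 3) * (2 + 2 * Real.log 5) := ⟨_, rfl⟩
  obtain ⟨Jd, hJd⟩ := exists_nat_gt (10 * Lg / (δ * u / 6))
  refine Bas.mono Jd (H₁.and (pos_bas X.lad.pos)) ?_
  rintro J hJ F A ⟨H1, hA⟩ Hb Hw H₀ H Hn γ TV Xt l₀ XE hγ1 hγ2 hTN hX0 hl1 hl2x ne Pe' hnP
  have hcl := isLaw_cond F.isLaw hA
  have h0 := hcl.nonneg
  have hpA : ∀ ω, 0 < Pool.Agent.H49.Ent.cond F.p A True ω → A ω := fun ω hω => cond_pos hω
  have hJ0 : (0 : ℝ) ≤ J := Nat.cast_nonneg J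
  have hlog : 10 * Lg ≤ δ * u / 6 * J := by
    have a1 : (Jd : ℝ) ≤ J := by exact_mod_cast hJ
    have a2 := hJd.le.trans a1
    rw [div_le_iff₀ (by positivity)] at a2
    linarith
  -- the class theorem
  have key := H1 XE Pe' (fun l hl => by
    have a1 := (hnP l hl).2.2.2
    have a2 := hPa l
    have a3 : (l : ℝ) ≤ k := by exact_mod_cast hl.le
    have a4 := mul_le_mul_of_nonneg_right a3 hu.le
    have a5 : (3 * T + k + 3 + (k - l)) * u = (3 * T + k + 2) * u + u + (k * u - l * u) := by ring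
    rw [a5] at a2
    linarith)
  -- numbers
  have w15' := abs_le.1 W.lyq
  rw [← hr, e3] at w15'
  have e5 : (Cr + 4) * φ = Cr * φ + 4 * φ := by ring
  have hLg1 : (2 * (k : ℝ) + 3) * (2 + 2 * Real.log 5) = 4 * k + 4 * (k * Real.log 5) + 6 +
      6 * Real.log 5 := by ring
  have hkl5 : 0 ≤ (k : ℝ) * Real.log 5 := by positivity
  have hQJ : 0 ≤ Q * φ * J := by positivity
  have hφJ : 0 ≤ φ * J := by positivity
  have hyJ : 0 ≤ y * J := by positivity
  have hryJ : r * y * J ≤ y * J := mul_le_mul_of_nonneg_right hry1 hJ0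
  have hryJ0 : 0 ≤ r * y * J := by positivity
  obtain ⟨e', he'⟩ : ∃ e' : ℝ, e' = 600 * (y * J) + 2 * (Q * φ * J) + 4 * (φ * J) + Lg := ⟨_, rfl⟩
  have he'0 : ∀ t, t ≤ 600 * (y * J) + 2 * (Q * φ * J) + 4 * (φ * J) + (4 * k +
      4 * (k * Real.log 5) + 6 + 6 * Real.log 5) → t ≤ e' := fun t ht => by
    rw [he', hLg, hLg1]
    exact ht
  -- the levels in digits
  have hq1 : (⌊(u + 500 * y) * (J : ℝ)⌋₊ : ℝ) ≤ u * J + 500 * (y * J) := by
    have := Nat.floor_le (mul_nonneg (show 0 ≤ u + 500 * y by linarith) hJ0)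
    linarith
  have hq2 : u * J + 500 * (y * J) - 1 ≤ (⌊(u + 500 * y) * (J : ℝ)⌋₊ : ℝ) := by
    linarith [Nat.lt_floor_add_one ((u + 500 * y) * (J : ℝ))]
  have hX1 : ((Xt 0 : ℕ) : ℝ) ≤ ξ * u * J := by
    rw [hX0]
    exact Nat.floor_le (by positivity)
  have hg1 := (XE.γb k le_rfl).1
  have hg2 := (XE.γb k le_rfl).2
  have hg3 : (sn k w - φ) * J = sn k w * J - φ * J := by ring
  have hg3' : (sn (k + 1) w - φ) * J = sn (k + 1) w * J - φ * J := by ring
  rw [hg3] at hg1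
  rw [hg3'] at hγ1
  have hs1J : (sn k w + s₁) * J ≤ sn k w * J + u * J := by
    have := mul_le_mul_of_nonneg_right hs1u hJ0
    linarith
  have hs2J : (sn k w + s₂) * J = sn k w * J + u * J + 500 * (y * J) + ξ * u * J := by
    rw [hs₂]; ring
  have hnf1 : (sn (k + 1) w + be / al * s₁ - (Cr + 4) * φ) * J ≤
      sn (k + 1) w * J + lam0 * u * J := by
    have : (sn (k + 1) w + be / al * s₁ - (Cr + 4) * φ) ≤ sn (k + 1) w + lam0 * u := by
      rw [← hr, hs1r, e5]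
      linarith
    have := mul_le_mul_of_nonneg_right this hJ0
    linarith
  have hnf2 : sn (k + 1) w * J + (be / al * (1 + ξ) * u + 600 * y) * J -
      (600 * (y * J) + 2 * (Q * φ * J) + 2 * (φ * J)) ≤ lam yq * J := by
    have a1 : sn (k + 1) w + (be / al * (1 + ξ) * u + 600 * y) - (600 * y + 2 * (Q * φ) + 2 * φ) ≤
        lam yq := by
      have : be / al * (1 + ξ) * u = r * u + r * (ξ * u) := by rw [hr]; ring
      rw [this]
      linarith
    have := mul_le_mul_of_nonneg_right a1 hJ0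
    linarith
  have hl2x' : (l₀ : ℝ) + (Xt 1 : ℕ) ≤ (be / al * (1 + ξ) * u + 600 * y) * J := by
    have := hl2x
    push_cast at this
    exact this
  have hXt0 : (0 : ℝ) ≤ (Xt 1 : ℕ) := Nat.cast_nonneg _
  have hφl : φ * J * Real.log 2 ≤ φ * J * 1 := mul_le_mul_of_nonneg_left hl2' hφJ
  obtain ⟨dd, hdd⟩ : ∃ dd : ℝ, dd = 600 * (y * J) + 2 * (Q * φ * J) + 2 * (φ * J) := ⟨_, rfl⟩
  have hdd0 : 0 ≤ dd := by rw [hdd]; positivity
  have hddl : dd * Real.log 2 ≤ dd * 1 := mul_le_mul_of_nonneg_left hl2' hdd0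
  rw [← hdd] at hnf2
  have p10 : P1x k sn w (be / al) s₁ Cr φ 0 = sn k w + s₁ := if_pos rfl
  have p11 : P1x k sn w (be / al) s₁ Cr φ 1 = sn (k + 1) w + be / al * s₁ - (Cr + 4) * φ :=
    if_neg one_ne_zero
  have p20 : P2x k sn w s₂ lam yq 0 = sn k w + s₂ := if_pos rfl
  have p21 : P2x k sn w s₂ lam yq 1 = lam yq := if_neg one_ne_zero
  have hNc : ((γ (k + 1) + l₀ : ℕ) : ℝ) = γ (k + 1) + l₀ := by push_cast; ring
  have hNc1 : ((Xt 1 + (γ (k + 1) + l₀) : ℕ) : ℝ) = (Xt 1 : ℕ) + γ (k + 1) + l₀ := by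
    push_cast
    ring
  have hξJ : 0 ≤ ξ * u * J := by positivity
  have hz : (fun ω => fun v : Fin 2 => ⌊(2 : ℝ) ^ ((fun _ => 0 : Fin 2 → ℕ) v) * TV ω v⌋) =
      fun ω => fun v : Fin 2 => ⌊TV ω v⌋ := by
    funext ω v
    simp
  have hh1 : CH (Pool.Agent.H49.Ent.cond F.p A True)
      (uv2 F c k w (Hif k H Hw) Hn (P1x k sn w (be / al) s₁ Cr φ))
      (fun ω => fun v : Fin 2 => ⌊TV ω v⌋) ≤ e' := by
    have a1 := pair_1 XE hTN hcl hpA (P := P1x k sn w (be / al) s₁ Cr φ) (fun _ => 0)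
      (d := φ * J + 1) (d' := φ * J + 1) (by
        rw [p10]
        push_cast
        linarith only [hs1J, hg1, hq2, hyJ]) (by positivity) (by
        rw [p11, zero_add, hNc]
        linarith only [hnf1, hγ1, hl1]) (by positivity)
    rw [hz] at a1
    refine he'0 _ (a1.trans ?_)
    have b1 : (φ * J + 1) * Real.log 2 = φ * J * Real.log 2 + Real.log 2 := by ring
    rw [b1]
    linarith only [hφl, hl2', hkl5, hl5, hk0, hyJ, hQJ, hφJ]
  have hh1' : CH (Pool.Agent.H49.Ent.cond F.p A True) (fun ω => fun v : Fin 2 => ⌊TV ω v⌋)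
      (uv2 F c k w (Hif k H Hw) Hn (P2x k sn w s₂ lam yq)) ≤ e' := by
    have a1 := pair_2 XE hTN hcl hpA (P := P2x k sn w s₂ lam yq) (fun _ => 0)
      (d := 0) (d' := dd) (by
        rw [p20, hs2J]
        push_cast
        linarith only [hg2, hq1, hξJ]) le_rfl (by
        rw [p21, zero_add, hNc]
        linarith only [hnf2, hγ2, hl2x', hXt0]) hdd0
    rw [hz] at a1
    refine he'0 _ (a1.trans ?_)
    rw [hdd] at hddl ⊢
    linarith only [hddl, hl2', hkl5, hl5, hk0, hyJ, hQJ, hφJ]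
  have hh2 : CH (Pool.Agent.H49.Ent.cond F.p A True)
      (fun ω => fun v : Fin 2 => ⌊(2 : ℝ) ^ Xt v * TV ω v⌋)
      (uv2 F c k w (Hif k H Hw) Hn (P2x k sn w s₂ lam yq)) ≤ e' := by
    have a1 := pair_2 XE hTN hcl hpA (P := P2x k sn w s₂ lam yq) Xt
      (d := 0) (d' := dd) (by
        rw [p20, hs2J]
        linarith only [hg2, hq1, hX1]) le_rfl (by
        rw [p21, hNc1]
        linarith only [hnf2, hγ2, hl2x', hXt0]) hdd0
    refine he'0 _ (a1.trans ?_)
    rw [hdd] at hddl ⊢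
    linarith only [hddl, hl2', hkl5, hl5, hk0, hyJ, hQJ, hφJ]
  have fin := mi_mid h0 (R := cR F A v) (U₁ := fun ω => fun v : Fin 2 => ⌊TV ω v⌋)
    (U₂ := fun ω => fun v : Fin 2 => ⌊(2 : ℝ) ^ Xt v * TV ω v⌋) (e := e') key hh1 hh1' hh2
  -- the record
  have fin1 : MI (Pool.Agent.H49.Ent.cond F.p A True) (cR F A j)
      (fun ω => fun v : Fin 2 => ⌊(2 : ℝ) ^ Xt v * TV ω v⌋)
      (fun ω => ((fun v : Fin 2 => ⌊TV ω v⌋), ((),
        ((jh F c k ⌊w * J⌋₊ H (nfx k sn w (3 * T * u) φ) ω, jv F c k ⌊w * J⌋₊ H Pe' ω),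
          (cR F A w₁ ω, F.W ω))))) ≤ 65 * ((18 * (Q * φ) + 2 * (e * u) + δ * u / 400) * J) +
          3 * e' := by
    refine le_trans ?_ fin
    rw [Pool.AVG71.MI_eq' h0, Pool.AVG71.MI_eq' h0]
    refine sub_le_sub_left (CH_mono_cond h0 fun ω ν hω hν e => ?_) _
    have e1 := Prod.ext_iff.mp e
    exact Prod.ext (det_cR2 (fun _ h => h) hjv hv1 hpA ω ν hω hν e1.1) e1.2
  -- the path
  have fin2 := mi_path (F := F) (c := c) (k := k) (w := w) (H := H) hcl
    (n := nfx k sn w (3 * T * u) φ) (n' := ne) (Pe' := Pe') (d := (20 * (k : ℝ) + 24) * φ * J)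
    (d' := 100 * y * J) (R := cR F A j)
    (U := fun ω => fun v : Fin 2 => ⌊(2 : ℝ) ^ Xt v * TV ω v⌋)
    (U₁ := fun ω => fun v : Fin 2 => ⌊TV ω v⌋) (s := fun _ => ())
    (z := fun ω => (cR F A w₁ ω, F.W ω))
    (fun l hl => by
      have h1 := (hnP l hl).1
      have h2 : (0 : ℝ) ≤ (l : ℝ) * φ := by positivity
      have h3 : nfx k sn w (3 * T * u) φ l = sn l w + 3 * T * u + 20 * (k * φ) -
        20 * (l * φ) + 24 * φ := by unfold nfx; ring
      refine mul_le_mul_of_nonneg_right ?_ hJ0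
      rw [h3]
      linarith only [h1, h2])
    (fun l hl => by
      have h1 := (hnP l hl).2.1
      have h0' : (l : ℝ) ≤ k := by exact_mod_cast hl.le
      have h2 := mul_le_mul_of_nonneg_right h0' hφ0.le
      have h3 : nfx k sn w (3 * T * u) φ l = sn l w + 3 * T * u + 20 * (k * φ) -
        20 * (l * φ) + 24 * φ := by unfold nfx; ring
      refine mul_le_mul_of_nonneg_right ?_ hJ0
      rw [h3]
      linarith only [h1, h2, hφ0]) (by positivity) (by positivity)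
  have fin3 : k * ((20 * (k : ℝ) + 24) * φ * J * Real.log 2 + Real.log 5) +
      k * (100 * y * J * Real.log 2 + Real.log 5) ≤
      (Q * φ * J + k * Real.log 5) + (100 * (k * y) * J + k * Real.log 5) := by
    have a2 : (k : ℝ) * (20 * k + 24) ≤ Q := by
      refine le_trans ?_ hQ
      nlinarith
    have a3 := mul_le_mul_of_nonneg_right a2 hφJ
    have a4 : (20 * (k : ℝ) + 24) * φ * J * Real.log 2 ≤ (20 * (k : ℝ) + 24) * φ * J * 1 :=
      mul_le_mul_of_nonneg_left hl2' (by positivity)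
    have a5 := mul_le_mul_of_nonneg_left a4 hk0
    have a6 : 100 * y * J * Real.log 2 ≤ 100 * y * J * 1 :=
      mul_le_mul_of_nonneg_left hl2' (by positivity)
    have a7 := mul_le_mul_of_nonneg_left a6 hk0
    linarith only [a3, a5, a7]
  refine fin2.trans ?_
  -- the sum
  have t4 : e * u ≤ φ₁ * u := mul_le_mul_of_nonneg_right he hu.le
  have t5 : (k : ℝ) * y ≤ k * (φ₁ * u) := mul_le_mul_of_nonneg_left hy hk0
  have t7 : φ₁ * u * M₀ ≤ δ / 2 * u := by
    have := mul_le_mul_of_nonneg_right f4 hu.le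
    linarith
  have t8 : 65 * (18 * (Q * φ) + 2 * (e * u) + δ * u / 400) +
      3 * (600 * y + 2 * (Q * φ) + 4 * φ) + Q * φ + 100 * (k * y) + δ * u / 6 ≤ δ * u := by
    rw [hM₀] at t7
    linarith
  have t9 := mul_le_mul_of_nonneg_right t8 hJ0
  have hLg2 : 2 * (k * Real.log 5) ≤ Lg := by
    rw [hLg, hLg1]
    linarith only [hkl5, hl5, hk0]
  have hLg0 : 0 ≤ Lg := by
    rw [hLg]
    positivity
  rw [he'] at fin1
  linarith only [fin1, fin3, t9, hLg2, hlog, hLg0, hkl5]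

end Pool.XR71
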