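import Pool.Agent.H71.XR.Xe
import Pool.Agent.H18.PN.Pyb

/-!
# The digits of the last place are full, from the rate of the last place alone

`xa_step`: the digits of a height to a near level. `fulb_of_at`: the digits of the last place are full
over the exact slope-one places and every closed code, if the numbers of the labels are linear near the
window with a rate which is almost the full one.
-/

set_option autoImplicit false

namespace Pool.XR71

open Finset Real MvPolynomial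
open Pool.Agent.H49.Ent Pool.Agent.H32.Dense
open Pool.STK hiding pr2
open Pool.KA Pool.KSAT Pool.K2S Pool.PB Pool.S6C
open Pool.GEN Pool.CHT Pool.CHX Pool.ISO Pool.LA91 Pool.AVG71 Pool.AVG5 Pool.D2F2 Pool.AVG57
open Pool.RCD Pool.AVG96 Pool.OWN68 Pool.V0F Pool.VA83 Pool.V0S Pool.ALT
open Pool.UNJ (ceI)

/-- The digits of a height to a near level. -/
theorem xa_step {m J : ℕ} {F : Fam m J} {p : F.Ω → ℝ} (hp : IsLaw p) {κ : Fin m} {V : Type}
    (z' : LnT F → V) (W : ℕ) (G : V → MvPolynomial (Option (Fin m)) ℝ) {s₁ s₂ d : ℝ}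
    (hd : |s₂ - s₁| ≤ d) {β : Type} {Z : F.Ω → β} (hZ : Det p Z (xa F κ z' W G s₁)) :
    CH p (xa F κ z' W G s₂) Z ≤ d * J * Real.log 2 + Real.log 5 := by
  have hJ : (0 : ℝ) ≤ J := Nat.cast_nonneg J
  have hd0 : 0 ≤ d := (abs_nonneg _).trans hd
  have h1 := (abs_le.1 hd).2
  refine CH_dg hp (x := fun ω => hgt F κ z' W G ω) (a := s₁ * J) (b := s₂ * J) (d := d * J)
    (fun ω _ => rfl) hZ ?_ (mul_nonneg hd0 hJ)
  have := mul_le_mul_of_nonneg_right h1 hJ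
  linarith

/-- **The digits of the last place are full**, from the rate of the last place alone. -/
theorem fulb_of_at {m : ℕ} {S : PCl m}
    (hpos : ∀ (τ : ℝ) (J : ℕ) (F : Fam m J) (A : F.Ω → Prop), S.St τ J F A → 0 < Pe F.p A)
    {c : ℕ → Fin m} {k K₀ n : ℕ} {e₀ ρ₀ π₀ π₁ : ℝ} {s : ℝ → ℝ}
    {g rt el be w u Λ e φ δ : ℝ} {lam : ℝ → ℝ}
    (h : AltAt S ((range (k + 1)).image c) ((range k).image c) (c (k + 1)) K₀ e₀ ρ₀ π₀ s g rt el n)
    (h1 : g - (1 / 2) ^ n ≤ w) (h2 : w + Λ * u ≤ g + (1 / 2) ^ n) (h3 : w + Λ * u ≤ 1)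
    (hu : 0 < u) (he : 0 < e) (hδ : 0 ≤ δ) (hrt : be * Real.log 2 - δ ≤ rt)
    (hs : ∀ v : ℝ, w ≤ v → v ≤ w + Λ * u → |lam v - s v| ≤ φ) (hπ : π₀ ≤ π₁)
    (hnum : δ * (Λ * u) + el * (1 / 2) ^ n + 2 * (φ * Real.log 2) ≤ e / 2 * u) :
    FulB S c k be w u Λ e lam K₀ e₀ ρ₀ π₁ := by
  intro a y ha hay hy
  have hay' : (a : ℝ) ≤ y := by exact_mod_cast hay
  have hl2 : 0 < Real.log 2 := Real.log_pos one_lt_two
  have heu : 0 < e * u := mul_pos he hu
  obtain ⟨d, hd⟩ : ∃ d : ℝ, d = be * (y - a) * Real.log 2 + 2 * (φ * Real.log 2) -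
    3 / 4 * (e * u) := ⟨_, rfl⟩
  have hdl : d < rt * (y - a) - el * (1 / 2) ^ n := by
    have b1 : (be * Real.log 2 - δ) * ((y : ℝ) - a) ≤ rt * (y - a) :=
      mul_le_mul_of_nonneg_right hrt (by linarith)
    have b2 : δ * ((y : ℝ) - a) ≤ δ * (Λ * u) := mul_le_mul_of_nonneg_left (by linarith) hδ
    have b3 : (be * Real.log 2 - δ) * ((y : ℝ) - a) = be * (y - a) * Real.log 2 - δ * (y - a) := by
      ring
    have b4 : e / 2 * u = 1 / 2 * (e * u) := by ring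
    rw [hd]
    linarith
  obtain ⟨J₁, hJ₁⟩ := exists_nat_ge (8 * Real.log 5 / (e * u))
  refine Bas.mono J₁ ((ful_n hpos h (v := w) (w₁ := a) (o := y) (by linarith) hay
    (by linarith) ha (by linarith) hdl).and (pos_bas hpos)) ?_
  rintro J hJ F A ⟨H, hA⟩ V z z' G hG C zc zc' hc
  have hJ0 : (0 : ℝ) ≤ J := Nat.cast_nonneg J
  have hlaw : IsLaw (Pool.Agent.H49.Ent.cond F.p A True) := isLaw_cond F.isLaw hA
  have h0 := hlaw.nonneg
  have hJb : 8 * Real.log 5 ≤ e * u * J := by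
    have h5 : 8 * Real.log 5 / (e * u) ≤ J := hJ₁.trans (by exact_mod_cast hJ)
    rw [div_le_iff₀ heu] at h5
    linarith
  have h5 := H V z z' G (hG.mono (Finset.Subset.refl _) le_rfl le_rfl le_rfl
    (Nat.floor_le_floor (mul_le_mul_of_nonneg_right hπ hJ0))) C zc zc' hc
  obtain ⟨R, hR⟩ : ∃ R : F.Ω → C × ((Fin m → ℤ) × (ℕ × F.ζ)), R = fun ω =>
    (zc' (slam F ⌊(a : ℝ) * J⌋₊ ω), (ceI ((range k).image c) (fun _ => J) (F.x ω), F.W ω)) :=
    ⟨_, rfl⟩
  have e1 : (fun ω => (xa F (c (k + 1)) z' ⌊w * J⌋₊ G (s a) ω,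
      (zc' (slam F ⌊(a : ℝ) * J⌋₊ ω), (ceI ((range k).image c) (fun _ => J) (F.x ω), F.W ω)))) =
      fun ω => (xa F (c (k + 1)) z' ⌊w * J⌋₊ G (s a) ω, R ω) := by rw [hR]
  have e2 : (fun ω => (xa F (c (k + 1)) z' ⌊w * J⌋₊ G (lam a) ω,
      (zc' (slam F ⌊(a : ℝ) * J⌋₊ ω), (ceI ((range k).image c) (fun _ => J) (F.x ω), F.W ω)))) =
      fun ω => (xa F (c (k + 1)) z' ⌊w * J⌋₊ G (lam a) ω, R ω) := by rw [hR]
  rw [e1] at h5
  rw [e2]
  obtain ⟨X, hX⟩ : ∃ X : ℝ → F.Ω → ℤ, X = xa F (c (k + 1)) z' ⌊w * J⌋₊ G := ⟨_, rfl⟩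
  rw [← hX] at h5 ⊢
  have ya := hs a ha (by linarith)
  have yy := hs y (by linarith) hy
  -- from the level of the first window
  have c1 : CH (Pool.Agent.H49.Ent.cond F.p A True) (X (lam a)) (fun ω => (X (s a) ω, R ω)) ≤
      φ * J * Real.log 2 + Real.log 5 := by
    rw [hX]
    exact xa_step hlaw z' _ G ya fun ω ω' _ _ e => (Prod.ext_iff.mp e).1
  have c2 : CH (Pool.Agent.H49.Ent.cond F.p A True) (X (s y)) (fun ω => (X (lam y) ω,
      (X (lam a) ω, (X (s a) ω, R ω)))) ≤ φ * J * Real.log 2 + Real.log 5 := by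
    rw [hX]
    refine xa_step hlaw z' _ G (by rw [abs_sub_comm]; exact yy) fun ω ω' _ _ e => ?_
    exact (Prod.ext_iff.mp e).1
  have c3 : CH (Pool.Agent.H49.Ent.cond F.p A True) (X (lam y)) (fun ω => (X (lam a) ω,
      (X (s a) ω, R ω))) ≤ CH (Pool.Agent.H49.Ent.cond F.p A True) (X (lam y))
        (fun ω => (X (lam a) ω, R ω)) := CH_mono_cond h0 fun ω ω' _ _ e => by
    simp only [Prod.mk.injEq] at e ⊢
    exact ⟨e.1, e.2.2⟩
  have c4 : CH (Pool.Agent.H49.Ent.cond F.p A True) (X (s y)) (fun ω => (X (s a) ω, R ω)) ≤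
      CH (Pool.Agent.H49.Ent.cond F.p A True) (X (lam a)) (fun ω => (X (s a) ω, R ω)) +
      CH (Pool.Agent.H49.Ent.cond F.p A True) (X (s y))
        (fun ω => (X (lam a) ω, (X (s a) ω, R ω))) := by
    rw [← CH_chain h0]
    exact CH_mono_left h0 fun ω ω' _ _ e => (Prod.ext_iff.mp (Prod.ext_iff.mp e).1).1
  have c5 : CH (Pool.Agent.H49.Ent.cond F.p A True) (X (s y))
        (fun ω => (X (lam a) ω, (X (s a) ω, R ω))) ≤
      CH (Pool.Agent.H49.Ent.cond F.p A True) (X (lam y))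
        (fun ω => (X (lam a) ω, (X (s a) ω, R ω))) +
      CH (Pool.Agent.H49.Ent.cond F.p A True) (X (s y)) (fun ω => (X (lam y) ω,
      (X (lam a) ω, (X (s a) ω, R ω)))) := by
    rw [← CH_chain h0]
    exact CH_mono_left h0 fun ω ω' _ _ e => (Prod.ext_iff.mp (Prod.ext_iff.mp e).1).1
  have e3 : (be * (y - a) * Real.log 2 - e * u) * J = d * J - 2 * (φ * J * Real.log 2) -
      1 / 4 * (e * u * J) := by
    rw [hd]
    ring
  rw [e3]
  linarith

end Pool.XR71
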