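import Pool.Agent.H71.XR.Xl

/-!
# The digits of the last place are full at a record

`fulb_rec`: from the rate of the last place alone at the density point (`AltR`, full by `ZfR`) and the
chain of the base (`CuQ`), for the exponents of the rate, at all windows near the record; `fulb_t`: in
the window `t` of the record, in its unit.
-/

set_option autoImplicit false

namespace Pool.XR71

open Finset Real MvPolynomial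
open Pool.Agent.H49.Ent Pool.Agent.H32.Dense
open Pool.STK hiding pr2
open Pool.KA Pool.KSAT Pool.K2S Pool.PB Pool.S6C
open Pool.GEN Pool.CHT Pool.CHX Pool.ISO Pool.LA91 Pool.AVG71 Pool.AVG5 Pool.D2F2 Pool.AVG57
open Pool.RCD Pool.AVG96 Pool.OWN68 Pool.V0F Pool.VA83 Pool.V0S Pool.ALT Pool.PKG Pool.PN18
open Pool.UNJ (ceI)
open Pool.ASM (AdmN)

/-- **Full digits of the last place at the windows near a record.** `μ = (1 / 2) ^ k₀`: the margin.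
The class is the class of the record, the labels have the exponents `e₀`, `ρ₀` of the rate. -/
theorem fulb_rec (k S₀ : ℕ) (hS₀ : 1 ≤ S₀) : ∃ D₀ : ℕ, 1 ≤ D₀ ∧ ∀ {D' : ℕ}, D₀ ≤ D' →
    ∀ {S : PCl (k + 2)} {P : List (Fin (k + 2)) × Fin (k + 2) → ℝ → ℝ → ℝ} {θ : ℝ}
    {c : ℕ → Fin (k + 2)} {Pt : ℝ → ℝ → ℝ} {rt : ℝ → ℝ} {L T : ℕ → ℝ → ℝ → ℝ} {κ : ℕ → Kg}
    {G : Set ℝ} {g : ℝ} {Sl : ℕ → ℝ} {el : ℚ} {k₀ k₁ : ℕ} {b : PosR × ℕ},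
    0 < el → g ∈ G → AltR ((range k, D'), el) k₀ S P θ c Pt rt L T κ G g →
    CuQ () k₁ S P θ c Pt rt L T κ G g → ZfR k Sl b S P θ c Pt rt L T κ G g → D' ≤ b.2 →
    ∃ e₀ ρ₀ π₀ : ℝ, 0 ≤ e₀ ∧ ρ₀ + (1 / 2) ^ k₀ ≤ 1 ∧
    (∀ w ∈ G, |w - g| ≤ (1 / 2) ^ k₀ → AltC S c k L e₀ ρ₀ π₀ ((1 / 2) ^ k₀) w) ∧
    ∀ {al : ℝ} {g₀ : ℝ → ℝ} {P₂ : ℕ → List (Fin (k + 2)) × Fin (k + 2) → ℝ → ℝ → ℝ}
      {θ₂ Eb e₂ : ℕ → ℝ} {h K₀ : ℝ} {N : ℕ} {A V : ℕ → ℝ} {S₂ N' : ℕ} {V' : ℕ → ℝ}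
      {K ε q t : ℝ},
      RecG S al g₀ P θ P₂ θ₂ Eb e₂ c Pt rt h K₀ g L T Sl κ G S₀ N A V S₂ N' V' K ε q t →
      (∃ j < N', V' j = -(K₀ + 1)) → 0 ≤ K₀ → K₀ + 1 ≤ K →
      (2 * K₀ + 1) * q ≤ (1 / 2) ^ k₀ →
      ∀ {w u Λ e X φ π₁ : ℝ} {lam : ℝ → ℝ}, 0 < X → X ≤ (1 / 2) ^ k₀ → |w - g| ≤ X →
      |w + Λ * u - g| ≤ X → w + Λ * u ≤ 1 → 0 < u → 0 < e →
      (∀ v : ℝ, w ≤ v → v ≤ w + Λ * u → |lam v - L (k + 1) v v| ≤ φ) → π₀ ≤ π₁ →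
      ((b.1 : ℝ) + el) * (Λ * u) + el * (2 * X) + 2 * (φ * Real.log 2) ≤ e / 2 * u →
      FulB S c k (Sl (k + 1)) w u Λ e lam D' e₀ ρ₀ π₁ := by
  obtain ⟨D₀, hD₀, HL⟩ := rec_lab k S₀ hS₀
  refine ⟨D₀, hD₀, ?_⟩
  intro D' hD S P θ c Pt rt L T κ G g Sl el k₀ k₁ b hel hg hA hC hZ hb
  have hμ : (0 : ℝ) < (1 / 2) ^ k₀ := by positivity
  obtain ⟨e₀, ρ₀, π₀, a1, a2, a3, a4⟩ := alt_ful hel hA hg (β := Sl (k + 1) * Real.log 2)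
    (δ := (b.1 : ℝ)) (D := b.2) hb
    (fun i i1 i2 i3 i4 i5 i6 i7 i8 φ e k₀ he hrt =>
      hZ i ⟨i1, i2, i3, i4, i5, i6, i7⟩ i8 φ e k₀ he hrt)
  refine ⟨e₀, ρ₀, π₀, a1, a2, a3, ?_⟩
  intro al g₀ P₂ θ₂ Eb e₂ h K₀ N A V S₂ N' V' K ε q t R hV hK₀ hK hq1 w u Λ e X φ π₁ lam hX0 hX
    hw1 hw2 hwo hu he hlam hπ hnum
  have hq := R.q0
  have ht0 := R.t0
  have hn := abs_le.1 R.near
  have hKq : (K₀ + 1) * q ≤ K * q := mul_le_mul_of_nonneg_right hK hq.le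
  have hK0q : 0 ≤ K₀ * q := mul_nonneg hK₀ hq.le
  have e1 : (K₀ + 1) * q = K₀ * q + q := by ring
  have e2 : (2 * K₀ + 1) * q = 2 * (K₀ * q) + q := by ring
  have e3 : t + -(K₀ + 1) * q = t - K₀ * q - q := by ring
  rw [e1] at hKq
  rw [e2] at hq1
  -- the labels at an earlier window
  have R₀ := R.wins (N'' := 1) (V'' := fun _ => -(K₀ + 1)) (fun j _ => hV)
  have hG1 : t + -(K₀ + 1) * q ∈ G := R₀.memG.2 0 one_pos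
  have hg1 : |t + -(K₀ + 1) * q - g| ≤ (1 / 2) ^ k₀ := by
    rw [e3, abs_le]
    constructor <;> linarith
  obtain ⟨S', b1, b2, -, b4⟩ := HL R₀ (by linarith : (0 : ℝ) < K) (fun j _ => by
    rw [abs_neg, abs_of_nonneg (by linarith)]
    exact hK) hC (e₀ := e₀) (ρ₀ := ρ₀) (π₀ := π₀) hμ (fun j _ => a3 _ hG1 hg1)
  obtain ⟨rk, E', c1, c2, c3, c4, c5, c6, c7, c8, c9, c10⟩ := a3 _ hG1 hg1
  have hE : AltE S' ((range (k + 1)).image c) (c (k + 1)) D' e₀ ρ₀ π₀ (t + -(K₀ + 1) * q) :=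
    AlC.lb (b4 0 one_pos).1 c6 hD hμ le_rfl (by linarith)
  obtain ⟨ph, d1, d2⟩ := a4 S' b1 b2 (t + -(K₀ + 1) * q) (by linarith) (by linarith) hE
  -- the scale
  obtain ⟨n, f1, f2, f3⟩ := pow_near hX0 hX
  have g1 := abs_le.1 hw1
  have g2 := abs_le.1 hw2
  have hel0 : (0 : ℝ) < el := by exact_mod_cast hel
  have h5 : (el : ℝ) * (1 / 2) ^ n ≤ el * (2 * X) := mul_le_mul_of_nonneg_left f3 hel0.le
  have hb1 : (0 : ℝ) < b.1 := b.1.2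
  exact fulb_of_at R.pos (d2 n f1) (by linarith) (by linarith) hwo hu he
    (δ := (b.1 : ℝ) + el) (by linarith) (by linarith) hlam hπ (by linarith)

/-- **Full digits of the last place in the window** `t` **of a record**, in its unit. -/
theorem fulb_t (k S₀ : ℕ) (hS₀ : 1 ≤ S₀) : ∃ D₀ : ℕ, 1 ≤ D₀ ∧ ∀ {D' : ℕ}, D₀ ≤ D' →
    ∀ {K₀ Λ e : ℝ}, 0 < K₀ → 1 ≤ Λ → 0 < e → ∀ {b : PosR × ℕ} {el : ℚ}, D' ≤ b.2 →
    16 * Λ * b.1 ≤ e → 0 < el → 16 * (K₀ + Λ) * (el : ℝ) ≤ e →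
    ∀ {S : PCl (k + 2)} {P : List (Fin (k + 2)) × Fin (k + 2) → ℝ → ℝ → ℝ} {θ : ℝ}
    {c : ℕ → Fin (k + 2)} {Pt : ℝ → ℝ → ℝ} {rt : ℝ → ℝ} {L T : ℕ → ℝ → ℝ → ℝ} {κ : ℕ → Kg}
    {G : Set ℝ} {g : ℝ} {Sl : ℕ → ℝ} {k₀ k₁ : ℕ},
    g ∈ G → AltR ((range k, D'), el) k₀ S P θ c Pt rt L T κ G g →
    CuQ () k₁ S P θ c Pt rt L T κ G g → ZfR k Sl b S P θ c Pt rt L T κ G g →
    ∃ e₀ ρ₀ π₀ : ℝ, 0 ≤ e₀ ∧ ρ₀ + (1 / 2) ^ k₀ ≤ 1 ∧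
    (∀ w ∈ G, |w - g| ≤ (1 / 2) ^ k₀ → AltC S c k L e₀ ρ₀ π₀ ((1 / 2) ^ k₀) w) ∧
    ∀ {al : ℝ} {g₀ : ℝ → ℝ} {P₂ : ℕ → List (Fin (k + 2)) × Fin (k + 2) → ℝ → ℝ → ℝ}
      {θ₂ Eb e₂ : ℕ → ℝ} {h : ℝ} {N : ℕ} {A V : ℕ → ℝ} {S₂ N' : ℕ} {V' : ℕ → ℝ}
      {K ε q t : ℝ},
      RecG S al g₀ P θ P₂ θ₂ Eb e₂ c Pt rt h K₀ g L T Sl κ G S₀ N A V S₂ N' V' K ε q t →
      (∃ j < N', V' j = -(K₀ + 1)) → K₀ + 1 ≤ K → Λ ≤ K → (2 * K₀ + 2 * Λ + 1) * q ≤ (1 / 2) ^ k₀ →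
      t ∈ G → ∀ {φ : ℝ} {lam : ℝ → ℝ}, φ ≤ 1 →
      (∀ v : ℝ, t ≤ v → v ≤ t + Λ * q → |lam v - L (k + 1) v v| ≤ e / 16 * q) →
      FulB S c k (Sl (k + 1)) t q Λ e lam D' e₀ ρ₀ (L (k + 1) t t - φ * q) := by
  obtain ⟨D₀, hD₀, H⟩ := fulb_rec k S₀ hS₀
  refine ⟨D₀, hD₀, ?_⟩
  intro D' hD K₀ Λ e hK₀ hΛ he b el hb hbe hel hele S P θ c Pt rt L T κ G g Sl k₀ k₁ hg hA hC hZ
  obtain ⟨e₀, ρ₀, π₀, a1, a2, a3, a4⟩ := H hD hel hg hA hC hZ hb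
  refine ⟨e₀, ρ₀, π₀, a1, a2, a3, ?_⟩
  intro al g₀ P₂ θ₂ Eb e₂ h N A V S₂ N' V' K ε q t R hV hK hΛK hqμ htG φ lam hφ hlam
  have hq := R.q0
  have ht0 := R.t0
  have ht1 := R.t1
  have hn := abs_le.1 R.near
  have hK0q : 0 < K₀ * q := mul_pos hK₀ hq
  have hΛq : q ≤ Λ * q := le_mul_of_one_le_left hq.le hΛ
  have hΛKq : Λ * q ≤ K * q := mul_le_mul_of_nonneg_right hΛK hq.le
  have e1 : (2 * K₀ + 2 * Λ + 1) * q = 2 * (K₀ * q) + 2 * (Λ * q) + q := by ring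
  have e2 : (2 * K₀ + 1) * q = 2 * (K₀ * q) + q := by ring
  have e3 : (K₀ + Λ) * q = K₀ * q + Λ * q := by ring
  rw [e1] at hqμ
  have htg : |t - g| ≤ (1 / 2) ^ k₀ := by
    rw [abs_le]
    constructor <;> linarith
  obtain ⟨rk, E', c1, c2, c3, c4, c5, c6, c7, c8, c9, c10⟩ := a3 t htG htg
  have hφq : φ * q ≤ 1 * q := mul_le_mul_of_nonneg_right hφ hq.le
  have hel0 : (0 : ℝ) < el := by exact_mod_cast hel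
  have hlog := Real.log_two_lt_d9
  have hl0 : 0 < Real.log 2 := Real.log_pos one_lt_two
  have heq : 0 < e * q := mul_pos he hq
  refine a4 R hV hK₀.le hK (by rw [e2]; linarith) (X := (K₀ + Λ) * q) (φ := e / 16 * q)
    (by rw [e3]; linarith) (by rw [e3]; linarith) ?_ ?_ (by linarith) hq he hlam (by linarith) ?_
  · rw [e3, abs_le]
    constructor <;> linarith
  · rw [e3, abs_le]
    constructor <;> linarith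
  · have f1 : 16 * Λ * b.1 * q ≤ e * q := mul_le_mul_of_nonneg_right hbe hq.le
    have f2 : 16 * (K₀ + Λ) * (el : ℝ) * q ≤ e * q := mul_le_mul_of_nonneg_right hele hq.le
    have f3 : 0 < K₀ * q * el := mul_pos hK0q hel0
    have f4 : e / 16 * q * Real.log 2 ≤ e / 16 * q * 1 :=
      mul_le_mul_of_nonneg_left (by linarith) (by positivity)
    have g1 : ((b.1 : ℝ) + el) * (Λ * q) = 16 * Λ * b.1 * q / 16 + Λ * q * el := by ring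
    have g2 : (el : ℝ) * (2 * ((K₀ + Λ) * q)) = 2 * (K₀ * q * el) + 2 * (Λ * q * el) := by ring
    have g3 : 16 * (K₀ + Λ) * (el : ℝ) * q = 16 * (K₀ * q * el) + 16 * (Λ * q * el) := by ring
    have g4 : e / 2 * q = e * q / 2 := by ring
    have g5 : e / 16 * q * 1 = e * q / 16 := by ring
    rw [g1, g2, g4]
    rw [g3] at f2
    rw [g5] at f4
    linarith

end Pool.XR71
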